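import Pool.Agent.Lib.MP_6da058_co.Struct

set_option autoImplicit false
set_option linter.unusedSectionVars false

namespace Pool.Agent.Lib.MP_6da058_co

open Finset

variable {ι : Type*} [DecidableEq ι]

/-- missing mass inside `S`. -/
noncomputable def ms (r : ℕ) (w : ι → ℝ) (Q : Finset (Finset ι)) (S : Finset ι) : ℝ :=
  (r.factorial : ℝ) * ∑ e ∈ Q.filter (fun e => e ⊆ S), ∏ i ∈ e, w i

lemma CC_pos {r : ℕ} (hr : 3 ≤ r) : 3 ≤ CC r := by
  unfold CC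
  have : (3 : ℝ) ≤ r := by exact_mod_cast hr
  nlinarith

lemma CC_ge {r : ℕ} (hr : 3 ≤ r) : (r : ℝ) ≤ CC r := by
  unfold CC
  have : (3 : ℝ) ≤ r := by exact_mod_cast hr
  nlinarith

lemma ms_nonneg {r : ℕ} {V : Finset ι} {w : ι → ℝ} {Q : Finset (Finset ι)}
    (hw : ∀ i ∈ V, 0 ≤ w i) (hQ : ∀ e ∈ Q, e ⊆ V ∧ e.card = r) (S : Finset ι) :
    0 ≤ ms r w Q S := by
  unfold ms
  apply mul_nonneg (by positivity)
  apply Finset.sum_nonneg
  intro e he
  exact Finset.prod_nonneg fun i hi => hw i ((hQ e (Finset.mem_filter.1 he).1).1 hi)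

lemma ms_mono {r : ℕ} {V : Finset ι} {w : ι → ℝ} {Q : Finset (Finset ι)}
    (hw : ∀ i ∈ V, 0 ≤ w i) (hQ : ∀ e ∈ Q, e ⊆ V ∧ e.card = r) {S T : Finset ι} (hST : S ⊆ T) :
    ms r w Q S ≤ ms r w Q T := by
  unfold ms
  apply mul_le_mul_of_nonneg_left _ (by positivity)
  apply Finset.sum_le_sum_of_subset_of_nonneg
  · intro e he
    rw [Finset.mem_filter] at he ⊢
    exact ⟨he.1, he.2.trans hST⟩
  · intro e he _
    exact Finset.prod_nonneg fun i hi => hw i ((hQ e (Finset.mem_filter.1 he).1).1 hi)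

/-- The criterion for a vertex set to be good. -/
lemma good_of {r : ℕ} (hr : 3 ≤ r) {S : Finset ι} {w : ι → ℝ} (hw : ∀ i ∈ S, 0 ≤ w i)
    {m z : ℝ} (hm : 0 ≤ m) (hz : 0 < z) (hzk : ∀ k : ℕ, k < r → (k : ℝ) * z ≤ 1)
    (hCz : CC r * z ≤ 1) (hs : 0 < ∑ i ∈ S, w i)
    (h : m < CC r * (1 - CC r * z) * (∑ i ∈ S, w i) ^ (r - 2)
      * ((∑ i ∈ S, w i) ^ 2 * z - ∑ i ∈ S, w i ^ 2)) :
    U r z * (∑ i ∈ S, w i) ^ r < G w S r - m := by
  set s := ∑ i ∈ S, w i with hsdef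
  set p := ∑ i ∈ S, w i ^ 2 with hpdef
  have hC := CC_pos hr
  have hp0 : 0 ≤ p := Finset.sum_nonneg fun i _ => sq_nonneg _
  have a0 : 0 ≤ CC r * (1 - CC r * z) * s ^ (r - 2) := by
    have : 0 ≤ 1 - CC r * z := by linarith
    positivity
  have a1 : 0 < s ^ 2 * z - p := by
    by_contra hcon
    push Not at hcon
    have := mul_nonpos_of_nonneg_of_nonpos a0 hcon
    linarith
  set y := p / s ^ 2 with hy
  have hs2 : 0 < s ^ 2 := by positivity
  have hy0 : 0 ≤ y := by positivity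
  have hys : p = y * s ^ 2 := by rw [hy]; field_simp
  have hyz : y ≤ z := by
    rw [hy, div_le_iff₀ hs2]; linarith
  have hyk : ∀ k : ℕ, k < r → (k : ℝ) * y ≤ 1 := fun k hk =>
    (mul_le_mul_of_nonneg_left hyz (by positivity)).trans (hzk k hk)
  have b1 := G_ge_U hw hs hys r hyk
  have b2 := U_sub_ge hy0 hyz hzk
  have b3 := U_ge_one_sub hz.le hzk
  have b4 : CC r * (z - y) * (1 - CC r * z) ≤ U r y - U r z := by
    refine le_trans ?_ b2
    apply mul_le_mul_of_nonneg_left b3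
    have : 0 ≤ z - y := by linarith
    positivity
  have hsr : s ^ r = s ^ (r - 2) * s ^ 2 := by
    rw [← pow_add]; congr 1; omega
  have b5 : s ^ r * (CC r * (z - y) * (1 - CC r * z)) ≤ s ^ r * (U r y - U r z) :=
    mul_le_mul_of_nonneg_left b4 (by positivity)
  have b6 : s ^ r * (CC r * (z - y) * (1 - CC r * z))
      = CC r * (1 - CC r * z) * s ^ (r - 2) * (s ^ 2 * z - p) := by
    rw [hsr, hys]; ring
  rw [b6] at b5
  nlinarith [b1, b5, h]

namespace Core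

variable {r : ℕ} {V : Finset ι} {w : ι → ℝ} {Q : Finset (Finset ι)} {Λ : ℝ}

lemma nonempty (c : Core r V w Q Λ) : V.Nonempty := by
  rw [Finset.nonempty_iff_ne_empty]
  rintro rfl
  have := c.sum_one
  simp at this

lemma exists_max (c : Core r V w Q Λ) : ∃ v ∈ V, ∀ i ∈ V, w i ≤ w v :=
  Finset.exists_max_image V w c.nonempty

lemma p2_nonneg : 0 ≤ ∑ i ∈ V, w i ^ 2 := Finset.sum_nonneg fun i _ => sq_nonneg _

lemma p2_le (c : Core r V w Q Λ) {W : ℝ} (h : ∀ i ∈ V, w i ≤ W) : ∑ i ∈ V, w i ^ 2 ≤ W := by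
  have : ∑ i ∈ V, w i ^ 2 ≤ ∑ i ∈ V, w i * W := by
    apply Finset.sum_le_sum
    intro i hi
    rw [sq]
    exact mul_le_mul_of_nonneg_left (h i hi) (c.nonneg i hi)
  rw [← Finset.sum_mul, c.sum_one, one_mul] at this
  exact this

lemma one_sub_lt {N : ℕ} (hr : 3 ≤ r) (hN : 2 * r ^ 3 * CC r ≤ N) (hΛ : U r (1 / (N : ℝ)) < Λ) :
    1 - Λ < CC r / N ∧ (0 : ℝ) < N ∧ (r : ℝ) / N ≤ 1 ∧ (r : ℝ) ^ 3 * CC r / N ≤ 1 / 2
      ∧ (r : ℝ) * (CC r / N) ≤ 1 / 2 := by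
  have hC := CC_pos hr
  have hr' : (3 : ℝ) ≤ r := by exact_mod_cast hr
  have hr3 : (r : ℝ) ≤ r ^ 3 := by nlinarith [sq_nonneg ((r : ℝ) - 1)]
  have hN0 : (0 : ℝ) < N := by
    have : 0 < 2 * (r : ℝ) ^ 3 * CC r := by positivity
    linarith
  have h1 : (r : ℝ) / N ≤ 1 := by
    rw [div_le_one hN0]
    nlinarith
  have h2 : (r : ℝ) ^ 3 * CC r / N ≤ 1 / 2 := by
    rw [div_le_iff₀ hN0]; linarith
  have h3 : (r : ℝ) * (CC r / N) ≤ 1 / 2 := by
    rw [← mul_div_assoc, div_le_iff₀ hN0]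
    nlinarith
  refine ⟨?_, hN0, h1, h2, h3⟩
  have hk : ∀ k : ℕ, k < r → (k : ℝ) * (1 / (N : ℝ)) ≤ 1 := by
    intro k hk
    have : (k : ℝ) ≤ r := by exact_mod_cast hk.le
    rw [mul_one_div]
    refine le_trans ?_ h1
    gcongr
  have := U_ge_one_sub (r := r) (z := 1 / (N : ℝ)) (by positivity) hk
  have e : CC r * (1 / (N : ℝ)) = CC r / N := by ring
  rw [e] at this
  linarith

/-- The budget inequality. -/
lemma budget (c : Core r V w Q Λ) {N : ℕ} (hr : 3 ≤ r) (hN : 2 * r ^ 3 * CC r ≤ N)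
    (hΛ : U r (1 / (N : ℝ)) < Λ) :
    (1 - (r : ℝ) ^ 3 * CC r / N) * MM r w Q < CC r * (1 / N - ∑ i ∈ V, w i ^ 2) := by
  obtain ⟨h0, hN0, h1, h2, h3⟩ := one_sub_lt hr hN hΛ
  have hC := CC_pos hr
  have hr' : (3 : ℝ) ≤ r := by exact_mod_cast hr
  obtain ⟨v, hv, hmax⟩ := c.exists_max
  set p := ∑ i ∈ V, w i ^ 2 with hp
  have hp0 : 0 ≤ p := p2_nonneg
  have hwv : w v ≤ CC r / N := by linarith [c.w_le hr hv]
  have hpw : p ≤ w v := c.p2_le hmax
  have hpk : ∀ k : ℕ, k < r → (k : ℝ) * p ≤ 1 := by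
    intro k hk
    have hk' : (k : ℝ) ≤ r := by exact_mod_cast hk.le
    have : (k : ℝ) * p ≤ r * (CC r / N) := by
      apply mul_le_mul hk' (by linarith) hp0 (by positivity)
    linarith
  have hM := c.MM_nonneg
  have up := G_upper c.nonneg c.sum_one hv hmax r hpk
  rw [← hp] at up
  have hrΛ : (r - 1 : ℝ) * (1 - Λ) ≤ 1 / 2 := by
    have : (r - 1 : ℝ) * (1 - Λ) ≤ r * (CC r / N) := by
      have a : (r - 1 : ℝ) * (1 - Λ) ≤ (r - 1 : ℝ) * (CC r / N) :=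
        mul_le_mul_of_nonneg_left h0.le (by linarith)
      have b : (0 : ℝ) ≤ CC r / N := by positivity
      nlinarith
    linarith
  have sp := c.spread_sum hr hrΛ hv hmax
  have hsp0 : 0 ≤ ∑ i ∈ V, w i * (w v - w i) :=
    Finset.sum_nonneg fun i hi => mul_nonneg (c.nonneg i hi) (by linarith [hmax i hi])
  have up2 : (r : ℝ) ^ 3 * (w v * ∑ i ∈ V, w i * (w v - w i))
      ≤ (r : ℝ) ^ 3 * CC r / N * MM r w Q := by
    have : w v * ∑ i ∈ V, w i * (w v - w i) ≤ CC r / N * MM r w Q :=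
      mul_le_mul hwv sp hsp0 (by positivity)
    have := mul_le_mul_of_nonneg_left this (show (0 : ℝ) ≤ (r : ℝ) ^ 3 by positivity)
    calc _ ≤ _ := this
      _ = _ := by ring
  have hlam := c.lam
  have key : Λ ≤ U r p - (1 - (r : ℝ) ^ 3 * CC r / N) * MM r w Q := by
    have : (r.factorial : ℝ) * ∑ e ∈ Q, ∏ i ∈ e, w i = MM r w Q := rfl
    rw [this] at hlam
    linarith
  have hnn : 0 ≤ (1 - (r : ℝ) ^ 3 * CC r / N) * MM r w Q := by
    apply mul_nonneg _ hM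
    linarith
  have hpN : p < 1 / N := by
    by_contra hcon
    push Not at hcon
    have := U_sub_ge (r := r) (y := 1 / (N : ℝ)) (z := p) (by positivity) hcon hpk
    have u0 := U_nonneg hpk
    have : 0 ≤ CC r * (p - 1 / N) * U r p := by
      have : 0 ≤ p - 1 / N := by linarith
      positivity
    linarith
  have hk : ∀ k : ℕ, k < r → (k : ℝ) * (1 / (N : ℝ)) ≤ 1 := by
    intro k hk
    have : (k : ℝ) ≤ r := by exact_mod_cast hk.le
    rw [mul_one_div]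
    refine le_trans ?_ h1
    gcongr
  have := U_sub_le (r := r) hp0 hpN.le hk
  linarith

lemma p2_lower (c : Core r V w Q Λ) {N : ℕ} (hr : 3 ≤ r) (hN : 2 * r ^ 3 * CC r ≤ N)
    (hΛ' : Λ ≤ U r (1 / ((N : ℝ) + 1))) :
    1 / ((N : ℝ) + 1) - 2 * MM r w Q / CC r ≤ ∑ i ∈ V, w i ^ 2 := by
  have hC := CC_pos hr
  have hr' : (3 : ℝ) ≤ r := by exact_mod_cast hr
  have hM := c.MM_nonneg
  set p := ∑ i ∈ V, w i ^ 2 with hp
  have hp0 : 0 ≤ p := p2_nonneg
  by_cases hcase : 1 / ((N : ℝ) + 1) ≤ p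
  · have : 0 ≤ 2 * MM r w Q / CC r := by positivity
    linarith
  push Not at hcase
  set z := 1 / ((N : ℝ) + 1) with hz
  have hr3 : (r : ℝ) ≤ r ^ 3 := by nlinarith [sq_nonneg ((r : ℝ) - 1)]
  have hN0 : (0 : ℝ) < N := by
    have : 0 < 2 * (r : ℝ) ^ 3 * CC r := by positivity
    linarith
  have hz0 : 0 < z := by positivity
  have hCz : CC r * z ≤ 1 / 2 := by
    rw [hz, mul_one_div, div_le_iff₀ (by positivity)]
    nlinarith
  have hrz : (r : ℝ) * z ≤ 1 := by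
    rw [hz, mul_one_div, div_le_iff₀ (by positivity)]
    nlinarith
  have hzk : ∀ k : ℕ, k < r → (k : ℝ) * z ≤ 1 := by
    intro k hk
    have : (k : ℝ) ≤ r := by exact_mod_cast hk.le
    have := mul_le_mul_of_nonneg_right this hz0.le
    linarith
  have hpk : ∀ k : ℕ, k < r → (k : ℝ) * p ≤ 1 := fun k hk =>
    (mul_le_mul_of_nonneg_left hcase.le (by positivity)).trans (hzk k hk)
  have lo := G_ge_U (y := p) c.nonneg (by rw [c.sum_one]; norm_num)
    (by rw [c.sum_one]; simp [hp]) r hpk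
  rw [c.sum_one, one_pow, one_mul] at lo
  have hlam := c.lam
  have e : (r.factorial : ℝ) * ∑ e ∈ Q, ∏ i ∈ e, w i = MM r w Q := rfl
  rw [e] at hlam
  have b1 := U_sub_ge (r := r) hp0 hcase.le hzk
  have b2 := U_ge_one_sub hz0.le hzk
  have b3 : 1 / 2 ≤ U r z := by linarith
  have b4 : CC r * (z - p) * (1 / 2) ≤ MM r w Q := by
    have : CC r * (z - p) * (1 / 2) ≤ CC r * (z - p) * U r z := by
      apply mul_le_mul_of_nonneg_left b3
      have : 0 ≤ z - p := by linarith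
      positivity
    linarith
  rw [sub_le_iff_le_add, ← sub_le_iff_le_add', le_div_iff₀ (by linarith)]
  linarith

end Core

end Pool.Agent.Lib.MP_6da058_co
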