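import Pool.Agent.Lib.MP_6da058_co.RegB3

set_option autoImplicit false
set_option linter.unusedSectionVars false
set_option maxHeartbeats 4000000

namespace Pool.Agent.Lib.MP_6da058_co

open Finset

variable {ι : Type*} [DecidableEq ι]

namespace Core

variable {r : ℕ} {V : Finset ι} {w : ι → ℝ} {Q : Finset (Finset ι)} {Λ : ℝ}

lemma regimeB (c : Core r V w Q Λ) (hr : 3 ≤ r) {a b N : ℕ} (hab : N + 1 = a + b)
    (hba : b ≤ a) (hN : 2 * r ^ 3 * CC r ≤ N) (hΛ : U r (1 / (N : ℝ)) < Λ)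
    (hΛ' : Λ ≤ U r (1 / ((N : ℝ) + 1))) {ε η : ℝ} (hε : 0 < ε) (hη0 : 0 < η)
    (hη : 200 * r * η ≤ 1) (hεη : 20 * CC r * ε ≤ η * (1 / 4) ^ r)
    (hMε : MM r w Q ≤ ε * CC r / N)
    (hb1 : 10 ≤ η * b) (hb2 : 6 * CC r ≤ η * b) (hb3 : 2 * ((r : ℝ) ^ 3 * CC r) ≤ b) :
    ∃ T ⊆ V, Good r w Q (V \ T) (1 / ((a : ℝ) - 1)) ∧ Good r w Q T (1 / ((b : ℝ) - 1)) := by
  obtain ⟨h0, hN0, h1, h2, h3⟩ := one_sub_lt hr hN hΛ
  have hC := CC_pos hr
  have hr' : (3 : ℝ) ≤ r := by exact_mod_cast hr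
  have hM0 := c.MM_nonneg
  have hη1 : η ≤ 1 / 600 := by
    have := mul_le_mul_of_nonneg_right hr' (show 0 ≤ 200 * η by positivity)
    linarith only [hη, this]
  have hq0p : (0 : ℝ) < (1 / 4) ^ r := by positivity
  have hq01 : ((1 : ℝ) / 4) ^ r ≤ 1 := pow_le_one₀ (by norm_num) (by norm_num)
  have hεη' : 20 * CC r * ε ≤ η := by
    have : η * (1 / 4) ^ r ≤ η * 1 := mul_le_mul_of_nonneg_left hq01 hη0.le
    linarith
  have hεC : ε * CC r ≤ η / 20 := by linarith
  obtain ⟨f1, f2, f3, f4, f5, f6, f7⟩ := c.regB_facts hr hN hΛ hΛ' hε (by linarith) hMε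
  have habR : (N : ℝ) + 1 = a + b := by exact_mod_cast hab
  have hbaR : (b : ℝ) ≤ a := by exact_mod_cast hba
  have hr3 : (27 : ℝ) ≤ (r : ℝ) ^ 3 := by
    have := pow_le_pow_left₀ (by norm_num : (0 : ℝ) ≤ 3) hr' 3
    linarith only [this]
  have hK : 81 ≤ (r : ℝ) ^ 3 * CC r := by
    have := mul_le_mul hr3 hC (by norm_num) (by positivity)
    linarith
  have hbb : (162 : ℝ) ≤ b := by linarith
  have hb0 : (0 : ℝ) < b := by linarith
  set q : ℝ := (b : ℝ) / N with hq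
  have hq0 : 0 < q := by positivity
  have hqn : q * N = b := by rw [hq]; field_simp
  have hq1 : q ≤ 13 / 25 := by
    rw [hq, div_le_iff₀ hN0]; linarith only [hK, habR, hb3, hbaR, hη0, hη1]
  have hb1' : (0 : ℝ) < (b : ℝ) - 1 := by linarith
  have hCt : CC r * (1 / ((b : ℝ) - 1)) ≤ 3 / 2 * CC r / b := by
    rw [mul_one_div, div_le_div_iff₀ hb1' (by linarith only [hK, hb3, hη0, hη1])]
    have h5 : (b : ℝ) ≤ 3 / 2 * ((b : ℝ) - 1) := by linarith only [hK, hb3, hη0, hη1]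
    have h6 := mul_le_mul_of_nonneg_left h5 (show 0 ≤ CC r by linarith only [hC, hη0, hη1])
    calc CC r * b ≤ _ := h6
      _ = _ := by ring
  have hCtq : 2 * (CC r * (1 / ((b : ℝ) - 1))) ≤ η := by
    have : 2 * (3 / 2 * CC r / b) ≤ η := by
      have e2 : 2 * (3 / 2 * CC r / b) = 3 * CC r / b := by ring
      rw [e2, div_le_iff₀ (by linarith only [hK, hb3, hη0, hη1])]
      linarith only [hC, hb2, hη0, hη1]
    linarith only [hCt, this]
  have hCt0 : 0 ≤ CC r * (1 / ((b : ℝ) - 1)) := by positivity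
  have hcb : 1 / (1 - CC r * (1 / ((b : ℝ) - 1))) ≤ 1 + η := by
    have := inv_one_sub_le hCt0 (by linarith only [hCtq, hη0, hη1])
    linarith only [hCtq, this]
  have hcb0 : 0 ≤ 1 / (1 - CC r * (1 / ((b : ℝ) - 1))) := by
    apply div_nonneg zero_le_one; linarith only [hCtq, hη0, hη1]
  have hμ : (N : ℝ) ^ 2 * (MM r w Q / CC r) ≤ ε * N := by
    rw [le_div_iff₀ hN0] at hMε
    rw [← mul_div_assoc, div_le_iff₀ (by linarith only [hC, hη0, hη1])]
    have := mul_le_mul_of_nonneg_left hMε hN0.le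
    calc (N : ℝ) ^ 2 * MM r w Q = N * (MM r w Q * N) := by ring
      _ ≤ N * (ε * CC r) := this
      _ = _ := by ring
  have hηrq : 200 * (r * (η * q)) ≤ q := by
    have := mul_le_mul_of_nonneg_right hη hq0.le
    linarith only [this]
  have hεN60 : 60 * (ε * N) ≤ η * (1 / 4) ^ r * N := by
    have a1 : 20 * 3 * ε ≤ 20 * CC r * ε := by
      apply mul_le_mul_of_nonneg_right _ hε.le
      linarith
    have := mul_le_mul_of_nonneg_right (a1.trans hεη) hN0.le
    linarith only [this]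
  rcases le_or_gt ((1 / 4 : ℝ) ^ r) q with hcase | hcase
  · -- q large
    have hηqN : η * (1 / 4) ^ r * N ≤ η * b := by
      have := mul_le_mul_of_nonneg_right (mul_le_mul_of_nonneg_left hcase hη0.le) hN0.le
      calc η * (1 / 4) ^ r * N ≤ η * q * N := this
        _ = η * (q * N) := by ring
        _ = _ := by rw [hqn]
    apply c.regimeB_core hr hab hba hN hΛ hΛ' hε hη0 hη hεη' hMε hb1 hb2 hb3
      (q' := (1 - 2 * η) * q) (lam := 1) (B₀ := (1 + 20 * r * η) * q ^ 2)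
      (mul_pos (by linarith only [hη0, hη1]) hq0) le_rfl
    · intro P₂ hP₂ hP₂'
      rw [one_mul]
      exact niB1 hr hq0 hη0.le hη hcb0 hcb hP₂ hP₂'
    · rw [← hq]
      have e1 : 20 * r * η * q ^ 2 ≤ q ^ 2 / 10 := by
        have := mul_le_mul_of_nonneg_right hη (sq_nonneg q)
        linarith only [this]
      have e2 : q ^ 2 ≤ 13 / 25 * q := by
        rw [sq]; exact mul_le_mul_of_nonneg_right hq1 hq0.le
      have e3 : (1 - q) ^ 2 = 1 - 2 * q + q ^ 2 := by ring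
      rw [e3]
      linarith only [e1, e2, hq0, hηrq]
    · intro T hT hge
      have a1 := f7 T hT
      have a2 : 2 * ε * N + ε * CC r * N ≤ η * b / 10 := by
        have b1 : 2 * ε + ε * CC r ≤ 2 * CC r * ε := by nlinarith only [hC, hε]
        have b2 : 2 * CC r * ε ≤ η * (1 / 4) ^ r / 10 := by linarith only [hεη]
        have := mul_le_mul_of_nonneg_right (b1.trans b2) hN0.le
        linarith only [hηqN, this]
      have a3 : (1 - 2 * η) * q * N ≤ (∑ i ∈ T, w i) * N := by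
        have : (1 - 2 * η) * q * N = (1 - 2 * η) * b := by rw [← hqn]; ring
        rw [this]
        linarith only [a1, a2, hC, hb2, hge, hη0, hη1]
      exact le_of_mul_le_mul_right a3 hN0
    · linarith only [hC, hb2, hεN60, hη0, hη1, hηqN, hμ]
  · -- q small
    apply c.regimeB_core hr hab hba hN hΛ hΛ' hε hη0 hη hεη' hMε hb1 hb2 hb3
      (q' := q / 3) (lam := (1 / 4) ^ r / q) (B₀ := q / 4)
      (by positivity) (by rw [le_div_iff₀ hq0]; linarith only [hcase])
    · intro P₂ hP₂ hP₂'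
      have a1 := niB2 hr hq0 hcb0 (by linarith only [hcb, hη0, hη1]) hP₂ (le_trans hP₂' (by
        apply mul_le_mul_of_nonneg_right _ hq0.le
        linarith only [hη0, hη1]))
      have a2 := mul_le_mul_of_nonneg_left a1 (show 0 ≤ (1 / 4 : ℝ) ^ r / q by positivity)
      refine a2.trans (le_of_eq ?_)
      have e : ((1 : ℝ) / 4) ^ r * 4 ^ r = 1 := by rw [← mul_pow]; norm_num
      have : (1 / 4 : ℝ) ^ r / q * (q ^ 2 * 4 ^ r / 4) = ((1 / 4 : ℝ) ^ r * 4 ^ r) * (q / 4) := by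
        field_simp
      rw [this, e, one_mul]
    · rw [← hq]
      have e2 : q ^ 2 ≤ 13 / 25 * q := by
        rw [sq]; exact mul_le_mul_of_nonneg_right hq1 hq0.le
      have e3 : (1 - q) ^ 2 = 1 - 2 * q + q ^ 2 := by ring
      rw [e3]
      linarith only [e2, hq0, hηrq]
    · intro T hT hge
      have a1 := f6 T hT
      have a3 : q / 3 * N ≤ (∑ i ∈ T, w i) * N := by
        have : q / 3 * N = b / 3 := by rw [← hqn]; ring
        rw [this]
        have : η * b ≤ 1 / 600 * b := mul_le_mul_of_nonneg_right hη1 hb0.le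
        linarith only [a1, hC, hb2, hge, hη0, hη1, this]
      exact le_of_mul_le_mul_right a3 hN0
    · have e : (1 / 4 : ℝ) ^ r / q * (η * b / 4) = η * (1 / 4) ^ r * N / 4 := by
        rw [← hqn]; field_simp
      rw [e]
      have : 0 ≤ ε * N := by positivity
      linarith only [hεN60, hμ, this]

end Core

/-- The core partition theorem. -/
theorem core_partition (r : ℕ) (hr : 3 ≤ r) : ∃ n : ℕ, ∀ {ι : Type} [DecidableEq ι]
    {V : Finset ι} {w : ι → ℝ} {Q : Finset (Finset ι)} {Λ : ℝ}, Core r V w Q Λ →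
    ∀ a b N : ℕ, N + 1 = a + b → b ≤ a → n ≤ b → U r (1 / (N : ℝ)) < Λ →
    Λ ≤ U r (1 / ((N : ℝ) + 1)) →
    ∃ T ⊆ V, Good r w Q (V \ T) (1 / ((a : ℝ) - 1)) ∧ Good r w Q T (1 / ((b : ℝ) - 1)) := by
  have hC := CC_pos hr
  have hr' : (3 : ℝ) ≤ r := by exact_mod_cast hr
  set η : ℝ := 1 / (200 * r) with hη
  have hη0 : 0 < η := by positivity
  have hηr : 200 * r * η ≤ 1 := by rw [hη]; field_simp; exact le_rfl
  set ε : ℝ := η * (1 / 4) ^ r / (20 * CC r) with hε
  have hε0 : 0 < ε := by positivity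
  have hεη : 20 * CC r * ε ≤ η * (1 / 4) ^ r := by
    rw [hε]
    rw [mul_div_cancel₀]
    positivity
  have hε1 : ε ≤ 1 := by
    have h1 : ((1 : ℝ) / 4) ^ r ≤ 1 := pow_le_one₀ (by norm_num) (by norm_num)
    have h2 : η ≤ 1 := by
      have := mul_le_mul_of_nonneg_right hr' (show 0 ≤ 200 * η by positivity)
      linarith only [hη0, hηr, this]
    have h3 : η * (1 / 4) ^ r ≤ 1 * 1 := mul_le_mul h2 h1 (by positivity) (by norm_num)
    have h4 : 20 * 3 * ε ≤ 20 * CC r * ε := by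
      apply mul_le_mul_of_nonneg_right _ hε0.le
      linarith
    linarith
  set δ : ℝ := (2 / 5) ^ r * ε / (2 * (r + 4)) with hδ
  have hδ0 : 0 < δ := by positivity
  have hδs : (3 / ε + r + 1) * δ ≤ (2 / 5) ^ r / 2 := by
    have e : (3 / ε + r + 1) * δ = ((3 + (r + 1) * ε) / (r + 4)) * ((2 / 5) ^ r / 2) := by
      rw [hδ]; field_simp
      ring
    rw [e]
    have h1 : (3 + ((r : ℝ) + 1) * ε) / (r + 4) ≤ 1 := by
      rw [div_le_one (by positivity)]
      have : ((r : ℝ) + 1) * ε ≤ (r + 1) * 1 := mul_le_mul_of_nonneg_left hε1 (by positivity)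
      linarith
    have := mul_le_mul_of_nonneg_right h1 (show 0 ≤ ((2 : ℝ) / 5) ^ r / 2 by positivity)
    linarith only [this]
  set k1 : ℝ := 10 * CC r ^ 2 / δ ^ 2 with hk1
  set k2 : ℝ := 10 * (r : ℝ) ^ 3 * CC r / (δ ^ 2 * ε) with hk2
  set k3 : ℝ := 2 * (3 * CC r + (r : ℝ) ^ 3 * CC r) / (2 / 5) ^ r with hk3
  set k4 : ℝ := 10 / η with hk4
  set k5 : ℝ := 6 * CC r / η with hk5
  set k6 : ℝ := 2 * ((r : ℝ) ^ 3 * CC r) with hk6
  have p1 : 0 < k1 := by positivity
  have p2 : 0 < k2 := by positivity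
  have p3 : 0 < k3 := by positivity
  have p4 : 0 < k4 := by positivity
  have p5 : 0 < k5 := by positivity
  have p6 : 0 < k6 := by positivity
  refine ⟨⌈k1 + k2 + k3 + k4 + k5 + k6⌉₊, ?_⟩
  intro ι _ V w Q Λ c a b N hab hba hnb hΛ hΛ'
  have hbR : k1 + k2 + k3 + k4 + k5 + k6 ≤ b := by
    have := Nat.le_ceil (k1 + k2 + k3 + k4 + k5 + k6)
    have h2 : ((⌈k1 + k2 + k3 + k4 + k5 + k6⌉₊ : ℕ) : ℝ) ≤ b := by exact_mod_cast hnb
    linarith only [h2, this]
  have b1 : 10 * CC r ^ 2 ≤ δ ^ 2 * b := by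
    have : k1 ≤ b := by linarith only [hbR, p2, p3, p4, p5, p6]
    rw [hk1, div_le_iff₀ (by positivity)] at this
    linarith only [this]
  have b2 : 10 * (r : ℝ) ^ 3 * CC r ≤ δ ^ 2 * ε * b := by
    have : k2 ≤ b := by linarith only [hbR, p1, p3, p4, p5, p6]
    rw [hk2, div_le_iff₀ (by positivity)] at this
    linarith only [this]
  have b3 : 2 * (3 * CC r + (r : ℝ) ^ 3 * CC r) ≤ (2 / 5) ^ r * b := by
    have : k3 ≤ b := by linarith only [hbR, p1, p2, p4, p5, p6]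
    rw [hk3, div_le_iff₀ (by positivity)] at this
    linarith only [this]
  have b4 : 10 ≤ η * b := by
    have : k4 ≤ b := by linarith only [hbR, p1, p2, p3, p5, p6]
    rw [hk4, div_le_iff₀ (by positivity)] at this
    linarith only [this]
  have b5 : 6 * CC r ≤ η * b := by
    have : k5 ≤ b := by linarith only [hbR, p1, p2, p3, p4, p6]
    rw [hk5, div_le_iff₀ (by positivity)] at this
    linarith only [this]
  have b6 : 2 * ((r : ℝ) ^ 3 * CC r) ≤ b := by linarith only [hbR, p1, p2, p3, p4, p5]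
  have hbN : (b : ℝ) ≤ N := by
    have hbpos : (0 : ℝ) < b := by linarith only [hbR, p1, p2, p3, p4, p5, p6]
    have hb1 : 1 ≤ b := by exact_mod_cast hbpos
    have : b ≤ N := by omega
    exact_mod_cast this
  have hN : 2 * r ^ 3 * CC r ≤ N := by linarith only [hbN, hbR, p1, p2, p3, p4, p5]
  rcases lt_or_ge (ε * CC r / N) (MM r w Q) with hM | hM
  · exact c.regimeA hr hab hba hN hΛ hε0 hδ0 hM b1 b2 hδs b3
  · exact c.regimeB hr hab hba hN hΛ hΛ' hε0 hη0 hηr hεη hM b4 b5 b6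

end Pool.Agent.Lib.MP_6da058_co
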