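import Mathlib

/-! Elementary symmetric sums `G w S k = k! e_k(w|_S)` and the inequalities needed for the
Lagrangian density theorem. -/

set_option autoImplicit false
set_option linter.unusedSectionVars false

namespace Pool.Agent.Lib.MP_6da058_co

open Finset

variable {ι : Type*} [DecidableEq ι]

/-- `k!` times the elementary symmetric polynomial of degree `k` of the weights `w` on `S`. -/
noncomputable def G (w : ι → ℝ) (S : Finset ι) (k : ℕ) : ℝ :=
  (k.factorial : ℝ) * ∑ e ∈ S.powersetCard k, ∏ i ∈ e, w i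

lemma G_zero (w : ι → ℝ) (S : Finset ι) : G w S 0 = 1 := by
  simp [G]

lemma G_insert (w : ι → ℝ) (S : Finset ι) (k : ℕ) {i : ι} (hi : i ∉ S) :
    G w (insert i S) (k + 1) = G w S (k + 1) + (k + 1) * w i * G w S k := by
  unfold G
  rw [← Nat.succ_eq_add_one, Finset.powersetCard_succ_insert hi, Finset.sum_union]
  · rw [Finset.sum_image]
    · have : ∀ e ∈ powersetCard k S, ∏ j ∈ insert i e, w j = w i * ∏ j ∈ e, w j := by
        intro e he
        rw [Finset.mem_powersetCard] at he
        rw [Finset.prod_insert]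
        intro h
        exact hi (he.1 h)
      rw [Finset.sum_congr rfl this, ← Finset.mul_sum, Nat.succ_eq_add_one, Nat.factorial_succ]
      push_cast
      ring
    · intro e he e' he' hee
      rw [Finset.mem_coe, Finset.mem_powersetCard] at he he'
      have h1 : i ∉ e := fun h => hi (he.1 h)
      have h2 : i ∉ e' := fun h => hi (he'.1 h)
      have := congrArg (fun s => Finset.erase s i) hee
      simpa [Finset.erase_insert h1, Finset.erase_insert h2] using this
  · rw [Finset.disjoint_left]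
    intro e he he'
    rw [Finset.mem_powersetCard] at he
    rw [Finset.mem_image] at he'
    obtain ⟨e', _, rfl⟩ := he'
    exact hi (he.1 (Finset.mem_insert_self _ _))

lemma G_erase (w : ι → ℝ) (S : Finset ι) (k : ℕ) {i : ι} (hi : i ∈ S) :
    G w S (k + 1) = G w (S.erase i) (k + 1) + (k + 1) * w i * G w (S.erase i) k := by
  have := G_insert w (S.erase i) k (Finset.notMem_erase i S)
  rwa [Finset.insert_erase hi] at this

lemma G_succ (w : ι → ℝ) (S : Finset ι) (k : ℕ) :
    G w S (k + 1) = ∑ i ∈ S, w i * G w (S.erase i) k := by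
  induction S using Finset.induction_on generalizing k with
  | empty =>
    have : powersetCard (k + 1) (∅ : Finset ι) = ∅ := by
      rw [Finset.powersetCard_eq_empty]; simp
    simp [G, this]
  | insert a S ha ih =>
    rw [Finset.sum_insert ha, Finset.erase_insert ha, G_insert w S k ha]
    cases k with
    | zero =>
      simp only [G_zero, mul_one, Nat.cast_zero, zero_add, one_mul]
      rw [ih 0]
      simp only [G_zero, mul_one]
      ring
    | succ k =>
      have : ∀ i ∈ S, w i * G w ((insert a S).erase i) (k + 1)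
          = w i * G w (S.erase i) (k + 1) + (k + 1) * w a * (w i * G w (S.erase i) k) := by
        intro i hi
        have hia : i ≠ a := fun h => ha (h ▸ hi)
        rw [Finset.erase_insert_of_ne (Ne.symm hia), G_insert]
        · ring
        · intro h
          exact ha (Finset.mem_of_mem_erase h)
      rw [Finset.sum_congr rfl this, Finset.sum_add_distrib, ← Finset.mul_sum, ← ih, ← ih]
      push_cast
      ring

lemma G_nonneg {w : ι → ℝ} {S : Finset ι} (hw : ∀ i ∈ S, 0 ≤ w i) (k : ℕ) : 0 ≤ G w S k := by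
  unfold G
  apply mul_nonneg (by positivity)
  apply Finset.sum_nonneg
  intro e he
  rw [Finset.mem_powersetCard] at he
  exact Finset.prod_nonneg fun i hi => hw i (he.1 hi)

lemma G_le_pow {w : ι → ℝ} {S : Finset ι} (hw : ∀ i ∈ S, 0 ≤ w i) (k : ℕ) :
    G w S k ≤ (∑ i ∈ S, w i) ^ k := by
  induction k generalizing S with
  | zero => simp [G_zero]
  | succ k ih =>
    rw [G_succ, pow_succ', Finset.sum_mul]
    apply Finset.sum_le_sum
    intro i hi
    apply mul_le_mul_of_nonneg_left _ (hw i hi)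
    have hw' : ∀ j ∈ S.erase i, 0 ≤ w j := fun j hj => hw j (Finset.mem_of_mem_erase hj)
    refine (ih hw').trans ?_
    apply pow_le_pow_left₀ (Finset.sum_nonneg hw')
    exact Finset.sum_le_sum_of_subset_of_nonneg (Finset.erase_subset i S)
      (fun j hj _ => hw j hj)

lemma G_mono {w : ι → ℝ} {S T : Finset ι} (hST : S ⊆ T) (hw : ∀ i ∈ T, 0 ≤ w i) (k : ℕ) :
    G w S k ≤ G w T k := by
  unfold G
  apply mul_le_mul_of_nonneg_left _ (by positivity)
  apply Finset.sum_le_sum_of_subset_of_nonneg (Finset.powersetCard_mono hST)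
  intro e he _
  rw [Finset.mem_powersetCard] at he
  exact Finset.prod_nonneg fun i hi => hw i (he.1 hi)

/-- Difference of the deleted sums at two vertices. -/
lemma G_erase_sub (w : ι → ℝ) (S : Finset ι) (k : ℕ) {i j : ι} (hi : i ∈ S) (hj : j ∈ S)
    (hij : i ≠ j) :
    G w (S.erase i) (k + 1) - G w (S.erase j) (k + 1)
      = (k + 1) * (w j - w i) * G w ((S.erase i).erase j) k := by
  have h1 := G_erase w (S.erase i) k (i := j) (Finset.mem_erase.2 ⟨Ne.symm hij, hj⟩)
  have h2 := G_erase w (S.erase j) k (i := i) (Finset.mem_erase.2 ⟨hij, hi⟩)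
  rw [h1, h2, Finset.erase_right_comm]
  ring

/-- Antitonicity of the deleted sums, in product form. -/
lemma G_erase_anti {w : ι → ℝ} {S : Finset ι} (hw : ∀ i ∈ S, 0 ≤ w i) (k : ℕ) {i j : ι}
    (hi : i ∈ S) (hj : j ∈ S) :
    (w i - w j) * (G w (S.erase i) k - G w (S.erase j) k) ≤ 0 := by
  by_cases hij : i = j
  · subst hij; simp
  cases k with
  | zero => simp [G_zero]
  | succ k =>
    rw [G_erase_sub w S k hi hj hij]
    have h0 : 0 ≤ G w ((S.erase i).erase j) k :=
      G_nonneg (fun l hl => hw l (Finset.mem_of_mem_erase (Finset.mem_of_mem_erase hl))) k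
    have h1 : (w i - w j) * ((k + 1) * (w j - w i) * G w ((S.erase i).erase j) k)
        = -((k + 1) * (w i - w j) ^ 2 * G w ((S.erase i).erase j) k) := by ring
    rw [h1]
    have : 0 ≤ ((k : ℝ) + 1) * (w i - w j) ^ 2 * G w ((S.erase i).erase j) k := by positivity
    linarith

/-- `G_{k+1} = w(S) G_k - k ∑ w_i² G_{k-1}(S∖i)` (shifted). -/
lemma G_succ_succ (w : ι → ℝ) (S : Finset ι) (k : ℕ) :
    G w S (k + 2) = (∑ i ∈ S, w i) * G w S (k + 1)
      - (k + 1) * ∑ i ∈ S, w i ^ 2 * G w (S.erase i) k := by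
  rw [G_succ w S (k + 1), Finset.sum_mul, Finset.mul_sum, ← Finset.sum_sub_distrib]
  apply Finset.sum_congr rfl
  intro i hi
  have := G_erase w S k hi
  have h2 : G w (S.erase i) (k + 1) = G w S (k + 1) - (k + 1) * w i * G w (S.erase i) k := by
    linarith
  rw [h2]
  ring


/-- Weighted Chebyshev inequality for the deleted sums. -/
lemma cheb_lower {w : ι → ℝ} {S : Finset ι} (hw : ∀ i ∈ S, 0 ≤ w i) (k : ℕ) :
    (∑ i ∈ S, w i) * ∑ i ∈ S, w i ^ 2 * G w (S.erase i) k
      ≤ (∑ i ∈ S, w i ^ 2) * ∑ i ∈ S, w i * G w (S.erase i) k := by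
  have key : ∑ i ∈ S, ∑ j ∈ S,
      (w i * w j) * ((w i - w j) * (G w (S.erase i) k - G w (S.erase j) k)) ≤ 0 := by
    apply Finset.sum_nonpos
    intro i hi
    apply Finset.sum_nonpos
    intro j hj
    exact mul_nonpos_of_nonneg_of_nonpos (mul_nonneg (hw i hi) (hw j hj))
      (G_erase_anti hw k hi hj)
  have expand : ∑ i ∈ S, ∑ j ∈ S,
      (w i * w j) * ((w i - w j) * (G w (S.erase i) k - G w (S.erase j) k))
      = 2 * ((∑ i ∈ S, w i) * ∑ i ∈ S, w i ^ 2 * G w (S.erase i) k
        - (∑ i ∈ S, w i ^ 2) * ∑ i ∈ S, w i * G w (S.erase i) k) := by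
    have e1 : ∀ i j, (w i * w j) * ((w i - w j) * (G w (S.erase i) k - G w (S.erase j) k))
        = (w i ^ 2 * G w (S.erase i) k) * w j - w i ^ 2 * (w j * G w (S.erase j) k)
          - (w i * G w (S.erase i) k) * w j ^ 2 + w i * (w j ^ 2 * G w (S.erase j) k) := by
      intro i j; ring
    simp only [e1, Finset.sum_add_distrib, Finset.sum_sub_distrib, ← Finset.mul_sum,
      ← Finset.sum_mul]
    ring
  rw [expand] at key
  linarith

lemma erase_mul_sub (w : ι → ℝ) (S : Finset ι) (k : ℕ) {i j : ι} (hi : i ∈ S) (hj : j ∈ S)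
    (hij : i ≠ j) :
    w i * G w (S.erase i) k - w j * G w (S.erase j) k
      = (w i - w j) * G w ((S.erase i).erase j) k := by
  cases k with
  | zero => simp [G_zero]
  | succ k =>
    have h1 := G_erase w (S.erase i) k (i := j) (Finset.mem_erase.2 ⟨Ne.symm hij, hj⟩)
    have h2 := G_erase w (S.erase j) k (i := i) (Finset.mem_erase.2 ⟨hij, hi⟩)
    rw [h1, h2, Finset.erase_right_comm (a := j) (b := i)]
    ring

/-- Chebyshev inequality leading to the Maclaurin bound. -/
lemma cheb_upper {w : ι → ℝ} {S : Finset ι} (hw : ∀ i ∈ S, 0 ≤ w i) (k : ℕ) :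
    (∑ i ∈ S, w i) * ∑ i ∈ S, w i * G w (S.erase i) k
      ≤ (S.card : ℝ) * ∑ i ∈ S, w i ^ 2 * G w (S.erase i) k := by
  have key : 0 ≤ ∑ i ∈ S, ∑ j ∈ S,
      (w i - w j) * (w i * G w (S.erase i) k - w j * G w (S.erase j) k) := by
    apply Finset.sum_nonneg
    intro i hi
    apply Finset.sum_nonneg
    intro j hj
    by_cases hij : i = j
    · subst hij; simp
    rw [erase_mul_sub w S k hi hj hij]
    have h0 : 0 ≤ G w ((S.erase i).erase j) k :=
      G_nonneg (fun l hl => hw l (Finset.mem_of_mem_erase (Finset.mem_of_mem_erase hl))) k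
    have : (w i - w j) * ((w i - w j) * G w ((S.erase i).erase j) k)
        = (w i - w j) ^ 2 * G w ((S.erase i).erase j) k := by ring
    rw [this]
    positivity
  have expand : ∑ i ∈ S, ∑ j ∈ S,
      (w i - w j) * (w i * G w (S.erase i) k - w j * G w (S.erase j) k)
      = 2 * ((S.card : ℝ) * ∑ i ∈ S, w i ^ 2 * G w (S.erase i) k
        - (∑ i ∈ S, w i) * ∑ i ∈ S, w i * G w (S.erase i) k) := by
    have e1 : ∀ i j, (w i - w j) * (w i * G w (S.erase i) k - w j * G w (S.erase j) k)
        = (w i ^ 2 * G w (S.erase i) k) * 1 - w i * (w j * G w (S.erase j) k)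
          - (w i * G w (S.erase i) k) * w j + 1 * (w j ^ 2 * G w (S.erase j) k) := by
      intro i j; ring
    simp only [e1, Finset.sum_add_distrib, Finset.sum_sub_distrib, ← Finset.mul_sum,
      ← Finset.sum_mul]
    simp only [Finset.sum_const, nsmul_eq_mul]
    ring
  rw [expand] at key
  linarith

/-- `U r y = ∏_{k<r} (1 - k y)`. -/
noncomputable def U (r : ℕ) (y : ℝ) : ℝ := ∏ k ∈ range r, (1 - (k : ℝ) * y)

lemma U_succ (r : ℕ) (y : ℝ) : U (r + 1) y = U r y * (1 - (r : ℝ) * y) := by
  unfold U; rw [Finset.prod_range_succ]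

lemma U_zero (y : ℝ) : U 0 y = 1 := by simp [U]

lemma U_one (y : ℝ) : U 1 y = 1 := by simp [U]

lemma U_nonneg {r : ℕ} {y : ℝ} (h : ∀ k : ℕ, k < r → (k : ℝ) * y ≤ 1) : 0 ≤ U r y := by
  unfold U
  apply Finset.prod_nonneg
  intro k hk
  have := h k (Finset.mem_range.1 hk)
  linarith

lemma U_le_one {r : ℕ} {y : ℝ} (hy : 0 ≤ y) (h : ∀ k : ℕ, k < r → (k : ℝ) * y ≤ 1) :
    U r y ≤ 1 := by
  unfold U
  apply Finset.prod_le_one
  · intro k hk
    have := h k (Finset.mem_range.1 hk)
    linarith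
  · intro k _
    have : 0 ≤ (k : ℝ) * y := by positivity
    linarith

/-- `C r = r(r-1)/2`. -/
noncomputable def CC (r : ℕ) : ℝ := (r : ℝ) * (r - 1) / 2

lemma U_sub_le {r : ℕ} {y z : ℝ} (hy : 0 ≤ y) (hyz : y ≤ z)
    (h : ∀ k : ℕ, k < r → (k : ℝ) * z ≤ 1) : U r y - U r z ≤ CC r * (z - y) := by
  induction r with
  | zero => simp [U_zero, CC]
  | succ r ih =>
    have h' : ∀ k : ℕ, k < r → (k : ℝ) * z ≤ 1 := fun k hk => h k (by omega)
    have hy' : ∀ k : ℕ, k < r → (k : ℝ) * y ≤ 1 := fun k hk =>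
      (mul_le_mul_of_nonneg_left hyz (by positivity)).trans (h' k hk)
    have i1 := ih h'
    have hz : 0 ≤ z := hy.trans hyz
    have u1 := U_le_one hz h'
    have u0 := U_nonneg h'
    rw [U_succ, U_succ]
    have hr := h r (by omega)
    have e : U r y * (1 - (r : ℝ) * y) - U r z * (1 - (r : ℝ) * z)
        = (U r y - U r z) * (1 - (r : ℝ) * y) + U r z * (r * (z - y)) := by ring
    rw [e]
    have hry : 0 ≤ (r : ℝ) * y := by positivity
    have hry1 : (r : ℝ) * y ≤ 1 := (mul_le_mul_of_nonneg_left hyz (by positivity)).trans hr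
    have hC : 0 ≤ CC r := by
      unfold CC
      rcases Nat.eq_zero_or_pos r with h0 | h0
      · subst h0; simp
      · have : (1 : ℝ) ≤ r := by exact_mod_cast h0
        have : (0 : ℝ) ≤ (r : ℝ) - 1 := by linarith
        positivity
    have hzy : 0 ≤ z - y := by linarith
    have t1 : (U r y - U r z) * (1 - (r : ℝ) * y) ≤ CC r * (z - y) := by
      have a : (U r y - U r z) * (1 - (r : ℝ) * y) ≤ (CC r * (z - y)) * (1 - (r : ℝ) * y) :=
        mul_le_mul_of_nonneg_right i1 (by linarith)
      have b : (CC r * (z - y)) * (1 - (r : ℝ) * y) ≤ (CC r * (z - y)) * 1 :=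
        mul_le_mul_of_nonneg_left (by linarith) (by positivity)
      linarith
    have t2 : U r z * (r * (z - y)) ≤ 1 * (r * (z - y)) :=
      mul_le_mul_of_nonneg_right u1 (by positivity)
    have t3 : CC (r + 1) * (z - y) = CC r * (z - y) + r * (z - y) := by
      unfold CC; push_cast; ring
    rw [t3]; linarith

lemma U_sub_ge {r : ℕ} {y z : ℝ} (hy : 0 ≤ y) (hyz : y ≤ z)
    (h : ∀ k : ℕ, k < r → (k : ℝ) * z ≤ 1) : CC r * (z - y) * U r z ≤ U r y - U r z := by
  induction r with
  | zero => simp [U_zero, CC]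
  | succ r ih =>
    have h' : ∀ k : ℕ, k < r → (k : ℝ) * z ≤ 1 := fun k hk => h k (by omega)
    have i1 := ih h'
    have hz : 0 ≤ z := hy.trans hyz
    have u0 := U_nonneg h'
    rw [U_succ, U_succ]
    have hr := h r (by omega)
    have e : U r y * (1 - (r : ℝ) * y) - U r z * (1 - (r : ℝ) * z)
        = (U r y - U r z) * (1 - (r : ℝ) * y) + U r z * (r * (z - y)) := by ring
    rw [e]
    have hC : 0 ≤ CC r := by
      unfold CC
      rcases Nat.eq_zero_or_pos r with h0 | h0
      · subst h0; simp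
      · have : (1 : ℝ) ≤ r := by exact_mod_cast h0
        have : (0 : ℝ) ≤ (r : ℝ) - 1 := by linarith
        positivity
    have hzy : 0 ≤ z - y := by linarith
    have hrz : 0 ≤ 1 - (r : ℝ) * z := by linarith
    have hryz : (r : ℝ) * y ≤ r * z := mul_le_mul_of_nonneg_left hyz (by positivity)
    have hrzn : 0 ≤ (r : ℝ) * z := by positivity
    have nn : 0 ≤ CC r * (z - y) * U r z := by positivity
    have t1 : (CC r * (z - y) * U r z) * (1 - (r : ℝ) * z) ≤ (U r y - U r z) * (1 - (r : ℝ) * y) := by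
      have a : (CC r * (z - y) * U r z) * (1 - (r : ℝ) * z)
          ≤ (CC r * (z - y) * U r z) * (1 - (r : ℝ) * y) :=
        mul_le_mul_of_nonneg_left (by linarith) nn
      have b : (CC r * (z - y) * U r z) * (1 - (r : ℝ) * y) ≤ (U r y - U r z) * (1 - (r : ℝ) * y) :=
        mul_le_mul_of_nonneg_right i1 (by linarith)
      linarith
    have nn2 : 0 ≤ U r z * (r * (z - y)) := by positivity
    have t2 : U r z * (r * (z - y)) * (1 - (r : ℝ) * z) ≤ U r z * (r * (z - y)) := by
      have := mul_le_mul_of_nonneg_left (show 1 - (r : ℝ) * z ≤ 1 by linarith) nn2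
      linarith
    have t3 : CC (r + 1) * (z - y) * (U r z * (1 - (r : ℝ) * z))
        = (CC r * (z - y) * U r z) * (1 - (r : ℝ) * z)
          + U r z * (r * (z - y)) * (1 - (r : ℝ) * z) := by
      unfold CC; push_cast; ring
    rw [t3]; linarith

lemma U_at_zero (r : ℕ) : U r 0 = 1 := by simp [U]

lemma U_ge_one_sub {r : ℕ} {z : ℝ} (hz : 0 ≤ z)
    (h : ∀ k : ℕ, k < r → (k : ℝ) * z ≤ 1) : 1 - CC r * z ≤ U r z := by
  have := U_sub_le (r := r) le_rfl hz h
  rw [U_at_zero] at this
  linarith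

end Pool.Agent.Lib.MP_6da058_co
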