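import Pool.Agent.Lib.MP_6da058_co.Esym

set_option autoImplicit false
set_option linter.unusedSectionVars false

namespace Pool.Agent.Lib.MP_6da058_co

open Finset

variable {ι : Type*} [DecidableEq ι]

/-- Lower bound: `r! e_r(S) ≥ w(S)^r U(p₂(S)/w(S)²)`. -/
lemma G_ge_U {w : ι → ℝ} {S : Finset ι} (hw : ∀ i ∈ S, 0 ≤ w i) (hs : 0 < ∑ i ∈ S, w i)
    {y : ℝ} (hy : ∑ i ∈ S, w i ^ 2 = y * (∑ i ∈ S, w i) ^ 2) (r : ℕ)
    (h : ∀ k : ℕ, k < r → (k : ℝ) * y ≤ 1) :
    (∑ i ∈ S, w i) ^ r * U r y ≤ G w S r := by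
  set s := ∑ i ∈ S, w i with hsdef
  induction r with
  | zero => simp [G_zero, U_zero]
  | succ r ih =>
    have i1 := ih (fun k hk => h k (by omega))
    cases r with
    | zero =>
      rw [U_one, G_succ]
      simp [G_zero, hsdef]
    | succ k =>
      have hk := h (k + 1) (by omega)
      rw [G_succ_succ, U_succ]
      have c := cheb_lower hw k
      rw [← G_succ, ← hsdef, hy] at c
      -- c : s * Σ w² c ≤ y s² G (k+1)
      have c2 : ∑ i ∈ S, w i ^ 2 * G w (S.erase i) k ≤ y * s * G w S (k + 1) := by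
        have : s * ∑ i ∈ S, w i ^ 2 * G w (S.erase i) k ≤ s * (y * s * G w S (k + 1)) := by
          calc s * ∑ i ∈ S, w i ^ 2 * G w (S.erase i) k ≤ y * s ^ 2 * G w S (k + 1) := c
            _ = s * (y * s * G w S (k + 1)) := by ring
        exact le_of_mul_le_mul_left this hs
      have hk' : 0 ≤ 1 - ((k + 1 : ℕ) : ℝ) * y := by linarith
      have step : s ^ (k + 2) * (U (k + 1) y * (1 - ((k + 1 : ℕ) : ℝ) * y))
          ≤ s * G w S (k + 1) * (1 - ((k + 1 : ℕ) : ℝ) * y) := by
        have e : s ^ (k + 2) * (U (k + 1) y * (1 - ((k + 1 : ℕ) : ℝ) * y))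
            = (s * (s ^ (k + 1) * U (k + 1) y)) * (1 - ((k + 1 : ℕ) : ℝ) * y) := by ring
        rw [e]
        apply mul_le_mul_of_nonneg_right _ hk'
        exact mul_le_mul_of_nonneg_left i1 hs.le
      refine step.trans ?_
      have hkp : (0 : ℝ) ≤ (k : ℝ) + 1 := by positivity
      have := mul_le_mul_of_nonneg_left c2 hkp
      push_cast
      nlinarith [this]

/-- Maclaurin upper bound: `r! e_r(S) ≤ w(S)^r U(1/|S|)`, multiplied out form. -/
lemma G_le_U {w : ι → ℝ} {S : Finset ι} (hw : ∀ i ∈ S, 0 ≤ w i) (hS : 0 < S.card) (r : ℕ)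
    (h : ∀ k : ℕ, k < r → (k : ℝ) * (1 / (S.card : ℝ)) ≤ 1) :
    G w S r ≤ (∑ i ∈ S, w i) ^ r * U r (1 / (S.card : ℝ)) := by
  set s := ∑ i ∈ S, w i with hsdef
  have hs : 0 ≤ s := Finset.sum_nonneg hw
  have hn : (0 : ℝ) < S.card := by exact_mod_cast hS
  induction r with
  | zero => simp [G_zero, U_zero]
  | succ r ih =>
    have i1 := ih (fun k hk => h k (by omega))
    cases r with
    | zero =>
      rw [U_one, G_succ]
      simp [G_zero, hsdef]
    | succ k =>
      have hk := h (k + 1) (by omega)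
      rw [G_succ_succ, U_succ]
      have c := cheb_upper hw k
      rw [← G_succ, ← hsdef] at c
      have c2 : (1 / (S.card : ℝ)) * (s * G w S (k + 1)) ≤ ∑ i ∈ S, w i ^ 2 * G w (S.erase i) k := by
        rw [one_div, inv_mul_le_iff₀ hn]
        exact c
      have hk' : 0 ≤ 1 - ((k + 1 : ℕ) : ℝ) * (1 / (S.card : ℝ)) := by linarith
      have step : s * G w S (k + 1) * (1 - ((k + 1 : ℕ) : ℝ) * (1 / (S.card : ℝ)))
          ≤ s ^ (k + 2) * (U (k + 1) (1 / (S.card : ℝ)) * (1 - ((k + 1 : ℕ) : ℝ) * (1 / (S.card : ℝ)))) := by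
        have e : s ^ (k + 2) * (U (k + 1) (1 / (S.card : ℝ)) * (1 - ((k + 1 : ℕ) : ℝ) * (1 / (S.card : ℝ))))
            = (s * (s ^ (k + 1) * U (k + 1) (1 / (S.card : ℝ)))) * (1 - ((k + 1 : ℕ) : ℝ) * (1 / (S.card : ℝ))) := by
          ring
        rw [e]
        apply mul_le_mul_of_nonneg_right _ hk'
        exact mul_le_mul_of_nonneg_left i1 hs
      refine le_trans ?_ step
      have hkp : (0 : ℝ) ≤ (k : ℝ) + 1 := by positivity
      have := mul_le_mul_of_nonneg_left c2 hkp
      push_cast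
      nlinarith [this]

lemma G_le_one {w : ι → ℝ} {S : Finset ι} (hw : ∀ i ∈ S, 0 ≤ w i) (hs : ∑ i ∈ S, w i ≤ 1)
    (k : ℕ) : G w S k ≤ 1 := by
  refine (G_le_pow hw k).trans ?_
  exact pow_le_one₀ (Finset.sum_nonneg hw) hs

lemma sum_erase_le {w : ι → ℝ} {S : Finset ι} (hw : ∀ i ∈ S, 0 ≤ w i) (i : ι) :
    ∑ j ∈ S.erase i, w j ≤ ∑ j ∈ S, w j :=
  Finset.sum_le_sum_of_subset_of_nonneg (Finset.erase_subset i S) (fun j hj _ => hw j hj)

/-- Upper bound for `r! e_r` when all weights are at most `w v` (the maximum). -/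
lemma G_step_upper {w : ι → ℝ} {S : Finset ι} (hw : ∀ i ∈ S, 0 ≤ w i) (hs : ∑ i ∈ S, w i = 1)
    {v : ι} (hv : v ∈ S) (hmax : ∀ i ∈ S, w i ≤ w v) (k : ℕ) :
    G w S (k + 2) ≤ G w S (k + 1) * (1 - (k + 1) * ∑ i ∈ S, w i ^ 2)
      + (k + 1) * k * (w v * ∑ i ∈ S, w i * (w v - w i)) := by
  set p := ∑ i ∈ S, w i ^ 2 with hp
  set W := w v with hW
  have hW0 : 0 ≤ W := hw v hv
  have hp0 : 0 ≤ p := Finset.sum_nonneg fun i _ => sq_nonneg _
  have hpW : p ≤ W := by
    have : p ≤ ∑ i ∈ S, w i * W := by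
      apply Finset.sum_le_sum
      intro i hi
      rw [sq]
      exact mul_le_mul_of_nonneg_left (hmax i hi) (hw i hi)
    rw [← Finset.sum_mul, hs, one_mul] at this
    exact this
  rw [G_succ_succ, hs, one_mul]
  -- c_i - c_* bounds
  have hc : ∀ i ∈ S, 0 ≤ G w (S.erase i) k - G w (S.erase v) k ∧
      G w (S.erase i) k - G w (S.erase v) k ≤ k * (W - w i) := by
    intro i hi
    by_cases hiv : i = v
    · subst hiv
      simp only [sub_self, le_refl, true_and]
      rw [← hW]; simp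
    cases k with
    | zero => simp [G_zero]
    | succ k =>
      rw [G_erase_sub w S k hi hv hiv]
      have h0 : 0 ≤ G w ((S.erase i).erase v) k :=
        G_nonneg (fun l hl => hw l (Finset.mem_of_mem_erase (Finset.mem_of_mem_erase hl))) k
      have h1 : G w ((S.erase i).erase v) k ≤ 1 := by
        apply G_le_one (fun l hl => hw l (Finset.mem_of_mem_erase (Finset.mem_of_mem_erase hl)))
        refine le_trans (sum_erase_le (fun l hl => hw l (Finset.mem_of_mem_erase hl)) v) ?_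
        refine le_trans (sum_erase_le hw i) hs.le
      have h2 : 0 ≤ W - w i := by have := hmax i hi; linarith
      have h3 : 0 ≤ ((k : ℝ) + 1) * (W - w i) := by positivity
      constructor
      · positivity
      · have := mul_le_mul_of_nonneg_left h1 h3
        push_cast
        linarith
  have hc' : p * G w S (k + 1) - k * (W * ∑ i ∈ S, w i * (W - w i))
      ≤ ∑ i ∈ S, w i ^ 2 * G w (S.erase i) k := by
    have e1 : ∑ i ∈ S, w i ^ 2 * G w (S.erase i) k - p * G w S (k + 1)
        = ∑ i ∈ S, w i * (w i - p) * (G w (S.erase i) k - G w (S.erase v) k) := by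
      have : ∀ i, w i * (w i - p) * (G w (S.erase i) k - G w (S.erase v) k)
          = w i ^ 2 * G w (S.erase i) k - p * (w i * G w (S.erase i) k)
            - w i ^ 2 * G w (S.erase v) k + (p * G w (S.erase v) k) * w i := by
        intro i; ring
      simp only [this, Finset.sum_add_distrib, Finset.sum_sub_distrib, ← Finset.mul_sum,
        ← Finset.sum_mul]
      rw [G_succ, hs, ← hp]
      ring
    have e2 : -(k * (W * ∑ i ∈ S, w i * (W - w i)))
        ≤ ∑ i ∈ S, w i * (w i - p) * (G w (S.erase i) k - G w (S.erase v) k) := by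
      rw [Finset.mul_sum, Finset.mul_sum, ← Finset.sum_neg_distrib]
      apply Finset.sum_le_sum
      intro i hi
      obtain ⟨c0, c1⟩ := hc i hi
      have hwi := hw i hi
      have hWi := hmax i hi
      have a1 : -W ≤ w i - p := by linarith
      have a2 : -(W * (k * (W - w i))) ≤ (w i - p) * (G w (S.erase i) k - G w (S.erase v) k) := by
        have b1 : (-W) * (G w (S.erase i) k - G w (S.erase v) k)
            ≤ (w i - p) * (G w (S.erase i) k - G w (S.erase v) k) :=
          mul_le_mul_of_nonneg_right a1 c0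
        have b2 : W * (G w (S.erase i) k - G w (S.erase v) k) ≤ W * (k * (W - w i)) :=
          mul_le_mul_of_nonneg_left c1 hW0
        linarith
      have := mul_le_mul_of_nonneg_left a2 hwi
      nlinarith [this]
    linarith
  have hkp : (0 : ℝ) ≤ (k : ℝ) + 1 := by positivity
  have := mul_le_mul_of_nonneg_left hc' hkp
  nlinarith [this]

lemma G_upper {w : ι → ℝ} {S : Finset ι} (hw : ∀ i ∈ S, 0 ≤ w i) (hs : ∑ i ∈ S, w i = 1)
    {v : ι} (hv : v ∈ S) (hmax : ∀ i ∈ S, w i ≤ w v) (r : ℕ)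
    (h : ∀ k : ℕ, k < r → (k : ℝ) * ∑ i ∈ S, w i ^ 2 ≤ 1) :
    G w S r ≤ U r (∑ i ∈ S, w i ^ 2) + (r : ℝ) ^ 3 * (w v * ∑ i ∈ S, w i * (w v - w i)) := by
  set p := ∑ i ∈ S, w i ^ 2 with hp
  set D := w v * ∑ i ∈ S, w i * (w v - w i) with hD
  have hp0 : 0 ≤ p := Finset.sum_nonneg fun i _ => sq_nonneg _
  have hD0 : 0 ≤ D := by
    apply mul_nonneg (hw v hv)
    apply Finset.sum_nonneg
    intro i hi
    exact mul_nonneg (hw i hi) (by have := hmax i hi; linarith)
  induction r with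
  | zero => simp [G_zero, U_zero]
  | succ r ih =>
    have i1 := ih (fun k hk => h k (by omega))
    cases r with
    | zero =>
      rw [U_one, G_succ]
      simp [G_zero, hs]
      exact hD0
    | succ k =>
      have hk := h (k + 1) (by omega)
      have st := G_step_upper hw hs hv hmax k
      rw [← hp, ← hD] at st
      rw [U_succ]
      have hkp : (0 : ℝ) ≤ (k : ℝ) := by positivity
      have n0 : 0 ≤ 1 - ((k : ℝ) + 1) * p := by push_cast at hk; linarith
      have n1 : 1 - ((k : ℝ) + 1) * p ≤ 1 := by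
        have : 0 ≤ ((k : ℝ) + 1) * p := by positivity
        linarith
      have a1 : G w S (k + 1) * (1 - ((k : ℝ) + 1) * p)
          ≤ (U (k + 1) p + ((k : ℝ) + 1) ^ 3 * D) * (1 - ((k : ℝ) + 1) * p) := by
        apply mul_le_mul_of_nonneg_right _ n0
        have := i1
        push_cast at this
        exact this
      have a2 : ((k : ℝ) + 1) ^ 3 * D * (1 - ((k : ℝ) + 1) * p) ≤ ((k : ℝ) + 1) ^ 3 * D * 1 :=
        mul_le_mul_of_nonneg_left n1 (by positivity)
      have a3 : ((k : ℝ) + 1) ^ 3 * D + (k + 1) * k * D ≤ ((k : ℝ) + 1 + 1) ^ 3 * D := by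
        have : ((k : ℝ) + 1) ^ 3 + (k + 1) * k ≤ ((k : ℝ) + 1 + 1) ^ 3 := by nlinarith
        have := mul_le_mul_of_nonneg_right this hD0
        linarith
      push_cast
      nlinarith [st, a1, a2, a3]

end Pool.Agent.Lib.MP_6da058_co
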