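import Pool.Agent.Lib.MP_6da058_co.Budget

set_option autoImplicit false
set_option linter.unusedSectionVars false

namespace Pool.Agent.Lib.MP_6da058_co

open Finset

variable {ι : Type*} [DecidableEq ι]

/-- Expectation of `f T`, `T` a random subset of `V` with independent inclusion probability `q`. -/
noncomputable def EX (V : Finset ι) (q : ℝ) (f : Finset ι → ℝ) : ℝ :=
  ∑ T ∈ V.powerset, (q ^ T.card * (1 - q) ^ (V \ T).card) * f T

lemma EX_add (V : Finset ι) (q : ℝ) (f g : Finset ι → ℝ) :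
    EX V q (fun T => f T + g T) = EX V q f + EX V q g := by
  unfold EX; rw [← Finset.sum_add_distrib]
  apply Finset.sum_congr rfl; intro T _; ring

lemma EX_mul (V : Finset ι) (q c : ℝ) (f : Finset ι → ℝ) :
    EX V q (fun T => c * f T) = c * EX V q f := by
  unfold EX; rw [Finset.mul_sum]
  apply Finset.sum_congr rfl; intro T _; ring

lemma EX_sum {κ : Type*} (V : Finset ι) (q : ℝ) (K : Finset κ) (f : κ → Finset ι → ℝ) :
    EX V q (fun T => ∑ k ∈ K, f k T) = ∑ k ∈ K, EX V q (f k) := by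
  unfold EX
  rw [Finset.sum_comm]
  apply Finset.sum_congr rfl; intro T _; rw [Finset.mul_sum]

lemma EX_congr {V : Finset ι} {q : ℝ} {f g : Finset ι → ℝ} (h : ∀ T ⊆ V, f T = g T) :
    EX V q f = EX V q g := by
  unfold EX
  apply Finset.sum_congr rfl; intro T hT
  rw [h T (Finset.mem_powerset.1 hT)]

lemma EX_const (V : Finset ι) (q c : ℝ) : EX V q (fun _ => c) = c := by
  unfold EX
  rw [← Finset.sum_mul]
  have := Finset.prod_add (fun _ : ι => q) (fun _ : ι => 1 - q) V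
  simp only [Finset.prod_const] at this
  rw [← this]
  simp

lemma EX_sub (V : Finset ι) (q : ℝ) {A : Finset ι} (hA : A ⊆ V) :
    EX V q (fun T => if A ⊆ T then 1 else 0) = q ^ A.card := by
  have h := Finset.prod_add (fun _ : ι => q) (fun i : ι => if i ∈ A then 0 else 1 - q) V
  have h1 : ∏ i ∈ V, (q + if i ∈ A then 0 else 1 - q) = q ^ A.card := by
    have : ∀ i ∈ V, (q + if i ∈ A then 0 else 1 - q) = if i ∈ A then q else 1 := by
      intro i _; split_ifs <;> ring
    rw [Finset.prod_congr rfl this, Finset.prod_ite, Finset.prod_const, Finset.prod_const_one,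
      mul_one, Finset.filter_mem_eq_inter, Finset.inter_eq_right.2 hA]
  rw [← h1, h]
  unfold EX
  apply Finset.sum_congr rfl
  intro T hT
  rw [Finset.mem_powerset] at hT
  rw [Finset.prod_const, mul_assoc]
  congr 1
  beta_reduce
  by_cases hAT : A ⊆ T
  · rw [if_pos hAT, mul_one, ← Finset.prod_const]
    apply Finset.prod_congr rfl
    intro i hi
    rw [Finset.mem_sdiff] at hi
    rw [if_neg (fun hc => hi.2 (hAT hc))]
  · rw [if_neg hAT, mul_zero]
    obtain ⟨i, hiA, hiT⟩ := Finset.not_subset.1 hAT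
    symm
    apply Finset.prod_eq_zero (Finset.mem_sdiff.2 ⟨hA hiA, hiT⟩)
    rw [if_pos hiA]

lemma EX_disj (V : Finset ι) (q : ℝ) {A : Finset ι} (hA : A ⊆ V) :
    EX V q (fun T => if A ⊆ V \ T then 1 else 0) = (1 - q) ^ A.card := by
  have h := Finset.prod_add (fun i : ι => if i ∈ A then 0 else q) (fun _ : ι => 1 - q) V
  have h1 : ∏ i ∈ V, ((if i ∈ A then 0 else q) + (1 - q)) = (1 - q) ^ A.card := by
    have : ∀ i ∈ V, ((if i ∈ A then 0 else q) + (1 - q)) = if i ∈ A then (1 - q) else 1 := by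
      intro i _; split_ifs <;> ring
    rw [Finset.prod_congr rfl this, Finset.prod_ite, Finset.prod_const, Finset.prod_const_one,
      mul_one, Finset.filter_mem_eq_inter, Finset.inter_eq_right.2 hA]
  rw [← h1, h]
  unfold EX
  apply Finset.sum_congr rfl
  intro T hT
  rw [Finset.mem_powerset] at hT
  rw [Finset.prod_const, mul_right_comm]
  congr 1
  beta_reduce
  by_cases hAT : A ⊆ V \ T
  · rw [if_pos hAT, mul_one, ← Finset.prod_const]
    apply Finset.prod_congr rfl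
    intro i hi
    rw [if_neg (fun hc => (Finset.mem_sdiff.1 (hAT hc)).2 hi)]
  · rw [if_neg hAT, mul_zero]
    obtain ⟨i, hiA, hiT⟩ := Finset.not_subset.1 hAT
    have hiT' : i ∈ T := by
      by_contra hc
      exact hiT (Finset.mem_sdiff.2 ⟨hA hiA, hc⟩)
    symm
    apply Finset.prod_eq_zero hiT'
    rw [if_pos hiA]

lemma EX_exists {V : Finset ι} {q : ℝ} (h0 : 0 ≤ q) (h1 : q ≤ 1) {f : Finset ι → ℝ}
    (h : EX V q f < 1) : ∃ T ⊆ V, f T < 1 := by
  by_contra hcon
  push Not at hcon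
  have : EX V q (fun _ => 1) ≤ EX V q f := by
    unfold EX
    apply Finset.sum_le_sum
    intro T hT
    apply mul_le_mul_of_nonneg_left (hcon T (Finset.mem_powerset.1 hT))
    have : 0 ≤ 1 - q := by linarith
    positivity
  rw [EX_const] at this
  linarith

/-- variance of a linear statistic -/
lemma EX_var_lin (V : Finset ι) (q : ℝ) (g : ι → ℝ) :
    EX V q (fun T => (∑ i ∈ T, g i - q * ∑ i ∈ V, g i) ^ 2) ≤ q * ∑ i ∈ V, g i ^ 2 := by
  have e1 : ∀ T ⊆ V, (∑ i ∈ T, g i - q * ∑ i ∈ V, g i) ^ 2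
      = ∑ i ∈ V, ∑ j ∈ V, (g i * g j) * (if ({i, j} : Finset ι) ⊆ T then 1 else 0)
        + (-2 * q * ∑ i ∈ V, g i) * ∑ i ∈ V, g i * (if ({i} : Finset ι) ⊆ T then 1 else 0)
        + (q * ∑ i ∈ V, g i) ^ 2 := by
    intro T hT
    have a : ∑ i ∈ T, g i = ∑ i ∈ V, g i * (if ({i} : Finset ι) ⊆ T then 1 else 0) := by
      simp only [Finset.singleton_subset_iff, mul_ite, mul_one, mul_zero]
      rw [← Finset.sum_filter, Finset.filter_mem_eq_inter, Finset.inter_eq_right.2 hT]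
    have b : ∑ i ∈ V, ∑ j ∈ V, (g i * g j) * (if ({i, j} : Finset ι) ⊆ T then 1 else 0)
        = (∑ i ∈ T, g i) ^ 2 := by
      rw [a, sq, Finset.sum_mul_sum]
      apply Finset.sum_congr rfl; intro i _
      apply Finset.sum_congr rfl; intro j _
      have : (({i, j} : Finset ι) ⊆ T) ↔ (({i} : Finset ι) ⊆ T ∧ ({j} : Finset ι) ⊆ T) := by
        simp [Finset.insert_subset_iff]
      by_cases h1 : ({i} : Finset ι) ⊆ T <;> by_cases h2 : ({j} : Finset ι) ⊆ T <;>
        simp [this, h1, h2]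
    rw [b, ← a]; ring
  rw [EX_congr e1, EX_add, EX_add, EX_const, EX_mul, EX_sum, EX_sum]
  have e2 : ∀ i ∈ V, EX V q (fun T => g i * (if ({i} : Finset ι) ⊆ T then 1 else 0)) = g i * q := by
    intro i hi
    rw [EX_mul, EX_sub V q (Finset.singleton_subset_iff.2 hi)]; simp
  have e3 : ∀ i ∈ V, EX V q (fun T => ∑ j ∈ V, (g i * g j) * (if ({i, j} : Finset ι) ⊆ T then 1 else 0))
      = ∑ j ∈ V, (g i * g j) * (q ^ 2 + if i = j then q - q ^ 2 else 0) := by
    intro i hi
    rw [EX_sum]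
    apply Finset.sum_congr rfl
    intro j hj
    rw [EX_mul, EX_sub V q (Finset.insert_subset_iff.2 ⟨hi, Finset.singleton_subset_iff.2 hj⟩)]
    by_cases hij : i = j
    · subst hij; simp
    · rw [Finset.card_pair hij, if_neg hij]; simp
  rw [Finset.sum_congr rfl e2, Finset.sum_congr rfl e3]
  have e4 : ∀ i ∈ V, ∑ j ∈ V, (g i * g j) * (q ^ 2 + if i = j then q - q ^ 2 else 0)
      = q ^ 2 * g i * ∑ j ∈ V, g j + (q - q ^ 2) * g i ^ 2 := by
    intro i hi
    simp only [mul_add, Finset.sum_add_distrib, mul_ite, mul_zero]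
    rw [Finset.sum_ite_eq, if_pos hi, Finset.mul_sum]
    congr 1
    · apply Finset.sum_congr rfl; intro j _; ring
    · ring
  rw [Finset.sum_congr rfl e4, Finset.sum_add_distrib, ← Finset.sum_mul, ← Finset.mul_sum,
    ← Finset.mul_sum, ← Finset.sum_mul]
  have : 0 ≤ ∑ i ∈ V, g i ^ 2 := Finset.sum_nonneg fun i _ => sq_nonneg _
  nlinarith [mul_nonneg (sq_nonneg q) this]


lemma one_sub_pow_le {p : ℝ} (h0 : 0 ≤ p) (h1 : p ≤ 1) (j : ℕ) : 1 - p ^ j ≤ j * (1 - p) := by
  have := one_add_mul_le_pow (a := p - 1) (by linarith) j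
  have e : 1 + (p - 1) = p := by ring
  rw [e] at this
  linarith

lemma sum_sq_touch {V : Finset ι} {Q : Finset (Finset ι)} (hQ : ∀ e ∈ Q, e ⊆ V)
    {c : Finset ι → ℝ} (hc : ∀ e ∈ Q, 0 ≤ c e) :
    ∑ e ∈ Q, ∑ e' ∈ Q, (c e * c e') * (if (e ∩ e').Nonempty then 1 else 0)
      ≤ ∑ i ∈ V, (∑ e ∈ Q.filter (fun e => i ∈ e), c e) ^ 2 := by
  have e1 : ∀ i ∈ V, (∑ e ∈ Q.filter (fun e => i ∈ e), c e) ^ 2
      = ∑ e ∈ Q, ∑ e' ∈ Q, (c e * c e') * (if i ∈ e ∩ e' then 1 else 0) := by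
    intro i _
    rw [Finset.sum_filter, sq, Finset.sum_mul_sum]
    apply Finset.sum_congr rfl; intro e _
    apply Finset.sum_congr rfl; intro e' _
    by_cases h1 : i ∈ e <;> by_cases h2 : i ∈ e' <;> simp [h1, h2]
  have e2 : ∑ i ∈ V, ∑ e ∈ Q, ∑ e' ∈ Q, (c e * c e') * (if i ∈ e ∩ e' then 1 else 0)
      = ∑ e ∈ Q, ∑ e' ∈ Q, ∑ i ∈ V, (c e * c e') * (if i ∈ e ∩ e' then 1 else 0) := by
    rw [Finset.sum_comm]
    apply Finset.sum_congr rfl; intro e _
    rw [Finset.sum_comm]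
  rw [Finset.sum_congr rfl e1, e2]
  apply Finset.sum_le_sum; intro e he
  apply Finset.sum_le_sum; intro e' he'
  rw [← Finset.mul_sum]
  apply mul_le_mul_of_nonneg_left _ (mul_nonneg (hc e he) (hc e' he'))
  split_ifs with h
  · obtain ⟨i, hi⟩ := h
    have hiV : i ∈ V := hQ e he (Finset.mem_inter.1 hi).1
    calc (1 : ℝ) = (if i ∈ e ∩ e' then 1 else 0) := by rw [if_pos hi]
      _ ≤ ∑ k ∈ V, (if k ∈ e ∩ e' then (1 : ℝ) else 0) :=
          Finset.single_le_sum (f := fun k => (if k ∈ e ∩ e' then (1 : ℝ) else 0))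
            (fun k _ => by split_ifs <;> norm_num) hiV
  · exact Finset.sum_nonneg fun k _ => by split_ifs <;> norm_num

/-- variance of the number of members of a family inside the complement -/
lemma EX_var_fam {V : Finset ι} {q : ℝ} (h0 : 0 ≤ q) (_hq1 : q ≤ 1) {r : ℕ}
    {Q : Finset (Finset ι)} (hQ : ∀ e ∈ Q, e ⊆ V ∧ e.card = r)
    {c : Finset ι → ℝ} (hc : ∀ e ∈ Q, 0 ≤ c e) :
    EX V q (fun T => (∑ e ∈ Q.filter (fun e => e ⊆ V \ T), c e - (1 - q) ^ r * ∑ e ∈ Q, c e) ^ 2)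
      ≤ r * q * ∑ i ∈ V, (∑ e ∈ Q.filter (fun e => i ∈ e), c e) ^ 2 := by
  set p := 1 - q with hp
  have p0 : 0 ≤ p := by linarith
  have p1 : p ≤ 1 := by linarith
  have e1 : ∀ T ⊆ V, (∑ e ∈ Q.filter (fun e => e ⊆ V \ T), c e - p ^ r * ∑ e ∈ Q, c e) ^ 2
      = ∑ e ∈ Q, ∑ e' ∈ Q, (c e * c e') * (if e ∪ e' ⊆ V \ T then 1 else 0)
        + (-2 * p ^ r * ∑ e ∈ Q, c e) * ∑ e ∈ Q, c e * (if e ⊆ V \ T then 1 else 0)
        + (p ^ r * ∑ e ∈ Q, c e) ^ 2 := by
    intro T hT
    have a : ∑ e ∈ Q.filter (fun e => e ⊆ V \ T), c e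
        = ∑ e ∈ Q, c e * (if e ⊆ V \ T then 1 else 0) := by
      simp only [mul_ite, mul_one, mul_zero]
      rw [← Finset.sum_filter]
    have b : ∑ e ∈ Q, ∑ e' ∈ Q, (c e * c e') * (if e ∪ e' ⊆ V \ T then 1 else 0)
        = (∑ e ∈ Q.filter (fun e => e ⊆ V \ T), c e) ^ 2 := by
      rw [a, sq, Finset.sum_mul_sum]
      apply Finset.sum_congr rfl; intro e _
      apply Finset.sum_congr rfl; intro e' _
      have : (e ∪ e' ⊆ V \ T) ↔ (e ⊆ V \ T ∧ e' ⊆ V \ T) := Finset.union_subset_iff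
      by_cases h1 : e ⊆ V \ T <;> by_cases h2 : e' ⊆ V \ T <;>
        simp [this, h1, h2]
    rw [b, ← a]; ring
  rw [EX_congr e1, EX_add, EX_add, EX_const, EX_mul, EX_sum, EX_sum]
  have e2 : ∀ e ∈ Q, EX V q (fun T => c e * (if e ⊆ V \ T then 1 else 0)) = c e * p ^ r := by
    intro e he
    rw [EX_mul, EX_disj V q (hQ e he).1, (hQ e he).2]
  have e3 : ∀ e ∈ Q, EX V q (fun T => ∑ e' ∈ Q, (c e * c e') * (if e ∪ e' ⊆ V \ T then 1 else 0))
      ≤ ∑ e' ∈ Q, ((c e * c e') * (p ^ r * p ^ r)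
          + r * q * ((c e * c e') * (if (e ∩ e').Nonempty then 1 else 0))) := by
    intro e he
    rw [EX_sum]
    apply Finset.sum_le_sum
    intro e' he'
    rw [EX_mul, EX_disj V q (Finset.union_subset (hQ e he).1 (hQ e' he').1)]
    have cc : 0 ≤ c e * c e' := mul_nonneg (hc e he) (hc e' he')
    have hcard : (e ∪ e').card + (e ∩ e').card = r + r := by
      rw [Finset.card_union_add_card_inter, (hQ e he).2, (hQ e' he').2]
    have key : p ^ (e ∪ e').card ≤ p ^ r * p ^ r + r * q * (if (e ∩ e').Nonempty then 1 else 0) := by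
      have hpp : p ^ r * p ^ r = p ^ (e ∪ e').card * p ^ (e ∩ e').card := by
        rw [← pow_add, ← pow_add, hcard]
      rw [hpp]
      split_ifs with hne
      · have hj := one_sub_pow_le p0 p1 (e ∩ e').card
        have hjr : ((e ∩ e').card : ℝ) ≤ r := by
          have : (e ∩ e').card ≤ r := by
            rw [← (hQ e he).2]; exact Finset.card_le_card Finset.inter_subset_left
          exact_mod_cast this
        have hq : 1 - p = q := by rw [hp]; ring
        rw [hq] at hj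
        have hpn : 0 ≤ p ^ (e ∪ e').card := by positivity
        have hpn1 : p ^ (e ∪ e').card ≤ 1 := pow_le_one₀ p0 p1
        have a1 : 1 - p ^ (e ∩ e').card ≤ r * q := by
          have := mul_le_mul_of_nonneg_right hjr h0
          linarith
        have a0 : 0 ≤ 1 - p ^ (e ∩ e').card := by
          have : p ^ (e ∩ e').card ≤ 1 := pow_le_one₀ p0 p1
          linarith
        have a2 : p ^ (e ∪ e').card * (1 - p ^ (e ∩ e').card) ≤ 1 * (1 - p ^ (e ∩ e').card) :=
          mul_le_mul_of_nonneg_right hpn1 a0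
        linarith
      · rw [Finset.not_nonempty_iff_eq_empty] at hne
        rw [hne]; simp
    have := mul_le_mul_of_nonneg_left key cc
    linarith
  rw [Finset.sum_congr rfl e2]
  refine le_trans (add_le_add_left (add_le_add_left (Finset.sum_le_sum e3) _) _) ?_
  simp only [Finset.sum_add_distrib, ← Finset.mul_sum, ← Finset.sum_mul]
  have t := sum_sq_touch (V := V) (fun e he => (hQ e he).1) hc
  have hrq : 0 ≤ (r : ℝ) * q := by positivity
  have := mul_le_mul_of_nonneg_left t hrq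
  nlinarith [this]

end Pool.Agent.Lib.MP_6da058_co
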