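import Pool.Agent.Lib.MP_6da058_co.Lagr

set_option autoImplicit false
set_option linter.unusedSectionVars false
set_option maxHeartbeats 4000000

namespace Pool.Agent.Lib.MP_6da058_co

open Finset

lemma U_anti {r : ℕ} {y z : ℝ} (hy : 0 ≤ y) (hyz : y ≤ z)
    (h : ∀ k : ℕ, k < r → (k : ℝ) * z ≤ 1) : U r z ≤ U r y := by
  have h1 := U_sub_ge hy hyz h
  have h2 := U_nonneg h
  have hC : 0 ≤ CC r := by
    unfold CC
    rcases Nat.eq_zero_or_pos r with h0 | h0
    · subst h0; simp
    · have : (1 : ℝ) ≤ r := by exact_mod_cast h0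
      have : (0 : ℝ) ≤ (r : ℝ) - 1 := by linarith
      positivity
  have : 0 ≤ CC r * (z - y) * U r z := by
    have : 0 ≤ z - y := by linarith
    positivity
  linarith

lemma kcond {r n : ℕ} (h : r ≤ n + 1) (hn : 0 < n) : ∀ k : ℕ, k < r → (k : ℝ) * (1 / (n : ℝ)) ≤ 1 := by
  intro k hk
  have h1 : (k : ℝ) ≤ n := by exact_mod_cast (by omega : k ≤ n)
  have h2 : (0 : ℝ) < n := by exact_mod_cast hn
  rw [mul_one_div, div_le_one h2]
  exact h1

/-- A set on which the normalised edge density exceeds the threshold. -/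
def Beats {m : ℕ} (r : ℕ) (P : Finset (Finset (Fin m))) (w : Fin m → ℝ) (S : Finset (Fin m))
    (n : ℕ) : Prop :=
  0 < ∑ i ∈ S, w i ∧ U r (1 / (n : ℝ)) * (∑ i ∈ S, w i) ^ r
    < (r.factorial : ℝ) * ∑ e ∈ P.filter (fun e => e ⊆ S), ∏ i ∈ e, w i

theorem partition_thm (r : ℕ) (hr : 3 ≤ r) : ∃ n : ℕ, r + 1 ≤ n ∧
    ∀ (m : ℕ) (P : Finset (Finset (Fin m))) (w : Fin m → ℝ), (∀ e ∈ P, e.card = r) → Opt P w →
    ∀ a b : ℕ, n ≤ a → n ≤ b → U r (1 / ((a + b - 1 : ℕ) : ℝ)) < (r.factorial : ℝ) * ff P w →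
    ∃ S T : Finset (Fin m), Disjoint S T ∧ Beats r P w S (a - 1) ∧ Beats r P w T (b - 1) := by
  obtain ⟨n₀, hn₀⟩ := core_partition r hr
  refine ⟨n₀ + r + 1, by omega, ?_⟩
  intro m P w hP o a b ha hb hΛ
  have c := o.core hP (by omega)
  set V := supp w with hV
  set Q := missF r P V with hQ
  set Λ := (r.factorial : ℝ) * ff P w with hΛdef
  set N := a + b - 1 with hN
  have hN0 : 0 < N := by omega
  have hU0 : 0 ≤ U r (1 / (N : ℝ)) := U_nonneg (kcond (by omega) hN0)
  have hΛG : Λ ≤ G w V r := by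
    have := c.lam
    have h2 := c.MM_nonneg
    unfold MM at h2
    linarith
  have hcard : r ≤ V.card := by
    by_contra hcon
    push Not at hcon
    have : G w V r = 0 := by
      unfold G
      rw [Finset.powersetCard_eq_empty.2 hcon]; simp
    linarith
  have hVpos : 0 < V.card := by omega
  have hmac : G w V r ≤ U r (1 / (V.card : ℝ)) := by
    have := G_le_U c.nonneg hVpos r (kcond (by omega) hVpos)
    rwa [c.sum_one, one_pow, one_mul] at this
  have hex : ∃ j : ℕ, Λ ≤ U r (1 / ((N + j + 1 : ℕ) : ℝ)) := by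
    refine ⟨V.card, ?_⟩
    refine (hΛG.trans hmac).trans (U_anti (by positivity) ?_ (kcond (by omega) hVpos))
    apply one_div_le_one_div_of_le
    · exact_mod_cast hVpos
    · exact_mod_cast (by omega : V.card ≤ N + V.card + 1)
  classical
  set j := Nat.find hex with hj
  have hj1 : Λ ≤ U r (1 / ((N + j + 1 : ℕ) : ℝ)) := Nat.find_spec hex
  have hj2 : U r (1 / ((N + j : ℕ) : ℝ)) < Λ := by
    rcases Nat.eq_zero_or_pos j with h0 | h0
    · rw [h0, add_zero]; exact hΛ
    · have := Nat.find_min hex (m := j - 1) (by omega)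
      push Not at this
      have e : N + (j - 1) + 1 = N + j := by omega
      rw [e] at this
      exact this
  have hj1' : Λ ≤ U r (1 / (((N + j : ℕ) : ℝ) + 1)) := by
    have e : (((N + j : ℕ) : ℝ) + 1) = ((N + j + 1 : ℕ) : ℝ) := by push_cast; ring
    rw [e]; exact hj1
  have toBeats : ∀ (S : Finset (Fin m)) (x y : ℕ), S ⊆ V → r + 1 ≤ x → x ≤ y →
      Good r w Q S (1 / ((y : ℝ) - 1)) → Beats r P w S (x - 1) := by
    intro S x y hSV hx hxy hg
    refine ⟨hg.1, ?_⟩
    have h1 := hg.2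
    rw [hQ, G_split hP w hSV] at h1
    refine lt_of_le_of_lt ?_ h1
    apply mul_le_mul_of_nonneg_right _ (pow_nonneg hg.1.le _)
    have e1 : ((x - 1 : ℕ) : ℝ) = (x : ℝ) - 1 := by
      rw [Nat.cast_sub (by omega)]; simp
    have hx1 : (0 : ℝ) < ((x - 1 : ℕ) : ℝ) := by exact_mod_cast (by omega : 0 < x - 1)
    have hxyR : (x : ℝ) ≤ y := by exact_mod_cast hxy
    apply U_anti
    · rw [e1] at hx1
      apply div_nonneg zero_le_one; linarith
    · rw [e1]
      rw [e1] at hx1
      apply one_div_le_one_div_of_le hx1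
      linarith
    · exact kcond (by omega) (by omega)
  rcases le_total b a with hba | hba
  · obtain ⟨T, hTV, g1, g2⟩ := hn₀ c (a + j) b (N + j) (by omega) (by omega) (by omega) hj2 hj1'
    exact ⟨V \ T, T, Finset.sdiff_disjoint, toBeats _ a (a + j) Finset.sdiff_subset (by omega)
      (by omega) g1, toBeats _ b b hTV (by omega) le_rfl g2⟩
  · obtain ⟨T, hTV, g1, g2⟩ := hn₀ c (b + j) a (N + j) (by omega) (by omega) (by omega) hj2 hj1'
    exact ⟨T, V \ T, Finset.disjoint_sdiff, toBeats _ a a hTV (by omega) le_rfl g2,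
      toBeats _ b (b + j) Finset.sdiff_subset (by omega) (by omega) g1⟩

section transport

variable {m : ℕ}

/-- value set of the Lagrangian -/
def vals (m : ℕ) (E : Finset (Finset (Fin m))) : Set ℝ :=
  {y : ℝ | ∃ x : Fin m → ℝ, (∀ i, 0 ≤ x i) ∧ ∑ i, x i = 1 ∧ y = ∑ e ∈ E, ∏ i ∈ e, x i}

lemma ff_le_G {r : ℕ} {E : Finset (Finset (Fin m))} (hE : ∀ e ∈ E, e.card = r)
    {x : Fin m → ℝ} (hx : ∀ i, 0 ≤ x i) :
    (r.factorial : ℝ) * ff E x ≤ G x Finset.univ r := by
  unfold G ff
  apply mul_le_mul_of_nonneg_left _ (by positivity)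
  apply Finset.sum_le_sum_of_subset_of_nonneg
  · intro e he
    rw [Finset.mem_powersetCard]
    exact ⟨Finset.subset_univ _, hE e he⟩
  · intro e _ _
    exact Finset.prod_nonneg fun i _ => hx i

lemma vals_le {r : ℕ} {E : Finset (Finset (Fin m))} (hE : ∀ e ∈ E, e.card = r) {y : ℝ}
    (hy : y ∈ vals m E) : y ≤ 1 / (r.factorial : ℝ) := by
  obtain ⟨x, hx, hs, rfl⟩ := hy
  have h1 := ff_le_G hE hx
  have h2 := G_le_one (fun i _ => hx i) hs.le r (S := Finset.univ)
  rw [le_div_iff₀ (by positivity)]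
  unfold ff at h1
  linarith

lemma bdd_vals {r : ℕ} {E : Finset (Finset (Fin m))} (hE : ∀ e ∈ E, e.card = r) :
    BddAbove (vals m E) := ⟨_, fun _ hy => vals_le hE hy⟩

lemma fact_sSup_le_one {r : ℕ} {E : Finset (Finset (Fin m))} (hE : ∀ e ∈ E, e.card = r) :
    (r.factorial : ℝ) * sSup (vals m E) ≤ 1 := by
  have h1 : sSup (vals m E) ≤ 1 / (r.factorial : ℝ) :=
    Real.sSup_le (fun y hy => vals_le hE hy) (by positivity)
  have h2 := mul_le_mul_of_nonneg_left h1 (show (0 : ℝ) ≤ r.factorial by positivity)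
  have e : (r.factorial : ℝ) * (1 / (r.factorial : ℝ)) = 1 := by field_simp
  rw [e] at h2
  exact h2

/-- the complete graph: upper bound -/
lemma complete_le {r : ℕ} (hm : 0 < m) (hr : r ≤ m) :
    (r.factorial : ℝ) * sSup (vals m (Finset.powersetCard r (Finset.univ : Finset (Fin m))))
      ≤ U r (1 / (m : ℝ)) := by
  have hcard : (Finset.univ : Finset (Fin m)).card = m := by simp
  have hU : 0 ≤ U r (1 / (m : ℝ)) := U_nonneg (kcond (by omega) hm)
  have h1 : sSup (vals m (Finset.powersetCard r (Finset.univ : Finset (Fin m))))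
      ≤ U r (1 / (m : ℝ)) / r.factorial := by
    apply Real.sSup_le _ (by positivity)
    rintro y ⟨x, hx, hs, rfl⟩
    rw [le_div_iff₀ (by positivity)]
    have := G_le_U (w := x) (S := Finset.univ) (fun i _ => hx i) (by rw [hcard]; exact hm) r
      (by rw [hcard]; exact kcond (by omega) hm)
    rw [hcard, hs, one_pow, one_mul] at this
    unfold G at this
    linarith
  have h2 := mul_le_mul_of_nonneg_left h1 (show (0 : ℝ) ≤ r.factorial by positivity)
  have e : (r.factorial : ℝ) * (U r (1 / (m : ℝ)) / r.factorial) = U r (1 / (m : ℝ)) := by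
    field_simp
  rw [e] at h2
  exact h2

/-- the complete graph: lower bound -/
lemma complete_ge {r : ℕ} (hm : 0 < m) (hr : r ≤ m) :
    U r (1 / (m : ℝ))
      ≤ (r.factorial : ℝ) * sSup (vals m (Finset.powersetCard r (Finset.univ : Finset (Fin m)))) := by
  have hm' : (0 : ℝ) < m := by exact_mod_cast hm
  set x : Fin m → ℝ := fun _ => 1 / (m : ℝ) with hx
  have hx0 : ∀ i, 0 ≤ x i := fun i => by rw [hx]; positivity
  have hs : ∑ i, x i = 1 := by
    rw [hx]; simp; field_simp
  have hE : ∀ e ∈ Finset.powersetCard r (Finset.univ : Finset (Fin m)), e.card = r :=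
    fun e he => (Finset.mem_powersetCard.1 he).2
  have hmem : (∑ e ∈ Finset.powersetCard r (Finset.univ : Finset (Fin m)), ∏ i ∈ e, x i)
      ∈ vals m (Finset.powersetCard r (Finset.univ : Finset (Fin m))) := ⟨x, hx0, hs, rfl⟩
  have h1 := le_csSup (bdd_vals hE) hmem
  have h2 := G_ge_U (w := x) (S := Finset.univ) (fun i _ => hx0 i) (by rw [hs]; norm_num)
    (y := 1 / (m : ℝ)) (by rw [hs, hx]; simp; field_simp) r (kcond (by omega) hm)
  rw [hs, one_pow, one_mul] at h2
  refine h2.trans ?_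
  unfold G
  exact mul_le_mul_of_nonneg_left h1 (by positivity)

/-- transport of a dense vertex set to a hypergraph on `Fin s` -/
lemma transport {r : ℕ} {P : Finset (Finset (Fin m))} (hP : ∀ e ∈ P, e.card = r)
    {w : Fin m → ℝ} (hw : ∀ i, 0 ≤ w i) {S : Finset (Fin m)} {n : ℕ} (h : Beats r P w S n) :
    ∃ E : Finset (Finset (Fin S.card)), (∀ e ∈ E, e.card = r) ∧
      (∀ e ∈ E, e.image (S.orderEmbOfFin rfl) ∈ P) ∧
      U r (1 / (n : ℝ)) < (r.factorial : ℝ) * sSup (vals S.card E) := by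
  classical
  set g := S.orderEmbOfFin rfl with hg
  have ginj : Function.Injective g := g.injective
  have gmem : ∀ i, g i ∈ S := fun i => Finset.orderEmbOfFin_mem S rfl i
  have gsurj : ∀ x ∈ S, ∃ i, g i = x := by
    intro x hx
    have := Finset.range_orderEmbOfFin S rfl
    have hx' : x ∈ Set.range g := by rw [hg, this]; exact hx
    exact hx'
  set E : Finset (Finset (Fin S.card)) := Finset.univ.filter (fun e => e.image g ∈ P) with hE
  have hE1 : ∀ e ∈ E, e.image g ∈ P := fun e he => (Finset.mem_filter.1 he).2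
  have hEr : ∀ e ∈ E, e.card = r := by
    intro e he
    rw [← hP _ (hE1 e he), Finset.card_image_of_injective _ ginj]
  refine ⟨E, hEr, hE1, ?_⟩
  set s := ∑ i ∈ S, w i with hs
  have hs0 : 0 < s := h.1
  set x : Fin S.card → ℝ := fun i => w (g i) / s with hx
  have hx0 : ∀ i, 0 ≤ x i := fun i => div_nonneg (hw _) hs0.le
  have himg : Finset.univ.image g = S := by
    ext y
    simp only [Finset.mem_image, Finset.mem_univ, true_and]
    constructor
    · rintro ⟨i, rfl⟩; exact gmem i
    · intro hy; exact gsurj y hy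
  have hxs : ∑ i, x i = 1 := by
    rw [hx, ← Finset.sum_div]
    rw [← Finset.sum_image (f := w) (s := Finset.univ) (g := g) (fun a _ b _ hab => ginj hab), himg]
    exact div_self hs0.ne'
  have hsum : ∑ e ∈ E, ∏ i ∈ e, x i
      = (∑ e ∈ P.filter (fun e => e ⊆ S), ∏ i ∈ e, w i) / s ^ r := by
    rw [Finset.sum_div]
    apply Finset.sum_bij (fun e _ => e.image g)
    · intro e he
      rw [Finset.mem_filter]
      refine ⟨hE1 e he, ?_⟩
      intro y hy
      obtain ⟨i, _, rfl⟩ := Finset.mem_image.1 hy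
      exact gmem i
    · intro e _ e' _ hee
      exact Finset.image_injective ginj hee
    · intro e he
      rw [Finset.mem_filter] at he
      refine ⟨Finset.univ.filter (fun i => g i ∈ e), ?_, ?_⟩
      · rw [hE, Finset.mem_filter]
        refine ⟨Finset.mem_univ _, ?_⟩
        have : (Finset.univ.filter (fun i => g i ∈ e)).image g = e := by
          ext y
          simp only [Finset.mem_image, Finset.mem_filter, Finset.mem_univ, true_and]
          constructor
          · rintro ⟨i, hi, rfl⟩; exact hi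
          · intro hy
            obtain ⟨i, rfl⟩ := gsurj y (he.2 hy)
            exact ⟨i, hy, rfl⟩
        rw [this]; exact he.1
      · ext y
        simp only [Finset.mem_image, Finset.mem_filter, Finset.mem_univ, true_and]
        constructor
        · rintro ⟨i, hi, rfl⟩; exact hi
        · intro hy
          obtain ⟨i, rfl⟩ := gsurj y (he.2 hy)
          exact ⟨i, hy, rfl⟩
    · intro e he
      rw [Finset.prod_image (fun a _ b _ hab => ginj hab), hx, Finset.prod_div_distrib,
        Finset.prod_const, hEr e he]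
  have hmem : (∑ e ∈ E, ∏ i ∈ e, x i) ∈ vals S.card E := ⟨x, hx0, hxs, rfl⟩
  have h1 := le_csSup (bdd_vals hEr) hmem
  have h2 := mul_le_mul_of_nonneg_left h1 (show (0 : ℝ) ≤ r.factorial by positivity)
  refine lt_of_lt_of_le ?_ h2
  rw [hsum, ← mul_div_assoc, lt_div_iff₀ (by positivity)]
  exact h.2

end transport

end Pool.Agent.Lib.MP_6da058_co
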