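import Pool.Agent.Lib.MP_6da058_co.CoreThm

set_option autoImplicit false
set_option linter.unusedSectionVars false
set_option maxHeartbeats 4000000

namespace Pool.Agent.Lib.MP_6da058_co

open Finset

variable {ι : Type*} [DecidableEq ι]

/-- the edge polynomial -/
noncomputable def ff (P : Finset (Finset ι)) (x : ι → ℝ) : ℝ := ∑ e ∈ P, ∏ i ∈ e, x i

lemma dg_full (w : ι → ℝ) {V : Finset ι} {i : ι} (hi : i ∈ V) (k : ℕ) :
    (k.factorial : ℝ) * dg (V.powersetCard (k + 1)) w i = G w (V.erase i) k := by
  unfold G dg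
  congr 1
  have hV : V = insert i (V.erase i) := (Finset.insert_erase hi).symm
  have hni : i ∉ V.erase i := Finset.notMem_erase i V
  have : (V.powersetCard (k + 1)).filter (fun e => i ∈ e)
      = (powersetCard k (V.erase i)).image (insert i) := by
    conv_lhs => rw [hV]
    rw [← Nat.succ_eq_add_one, Finset.powersetCard_succ_insert hni, Finset.filter_union]
    have h1 : (powersetCard k.succ (V.erase i)).filter (fun e => i ∈ e) = ∅ := by
      rw [Finset.filter_eq_empty_iff]
      intro e he hie
      exact hni ((Finset.mem_powersetCard.1 he).1 hie)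
    have h2 : ((powersetCard k (V.erase i)).image (insert i)).filter (fun e => i ∈ e)
        = (powersetCard k (V.erase i)).image (insert i) := by
      rw [Finset.filter_eq_self]
      intro e he
      obtain ⟨e', _, rfl⟩ := Finset.mem_image.1 he
      exact Finset.mem_insert_self _ _
    rw [h1, h2, Finset.empty_union]
  rw [this, Finset.sum_image]
  · apply Finset.sum_congr rfl
    intro e he
    rw [Finset.erase_insert]
    intro hc
    exact hni ((Finset.mem_powersetCard.1 he).1 hc)
  · intro e he e' he' hee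
    rw [Finset.mem_coe, Finset.mem_powersetCard] at he he'
    have h1 : i ∉ e := fun h => hni (he.1 h)
    have h2 : i ∉ e' := fun h => hni (he'.1 h)
    have := congrArg (fun s => Finset.erase s i) hee
    simpa [Finset.erase_insert h1, Finset.erase_insert h2] using this

lemma ff_move {P : Finset (Finset ι)} {r : ℕ} (hP : ∀ e ∈ P, e.card = r) (hr : 1 ≤ r)
    (w : ι → ℝ) (i : ι) (t : ℝ) :
    ff P (fun k => (1 - t) * w k + if k = i then t else 0)
      = (1 - t) ^ r * ff P w + t * (1 - t) ^ (r - 1) * dg P w i := by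
  unfold ff dg
  rw [Finset.sum_filter, Finset.mul_sum, Finset.mul_sum, ← Finset.sum_add_distrib]
  apply Finset.sum_congr rfl
  intro e he
  split_ifs with hi
  · rw [← Finset.mul_prod_erase e _ hi]
    have h1 : ∏ k ∈ e.erase i, ((1 - t) * w k + if k = i then t else 0)
        = (1 - t) ^ (r - 1) * ∏ k ∈ e.erase i, w k := by
      have : ∀ k ∈ e.erase i, ((1 - t) * w k + if k = i then t else 0) = (1 - t) * w k := by
        intro k hk
        rw [if_neg (Finset.ne_of_mem_erase hk), add_zero]
      rw [Finset.prod_congr rfl this, Finset.prod_mul_distrib, Finset.prod_const,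
        Finset.card_erase_of_mem hi, hP e he]
    rw [h1, ← Finset.mul_prod_erase e w hi, if_pos rfl]
    have : (1 - t) ^ r = (1 - t) ^ (r - 1) * (1 - t) := by
      rw [← pow_succ]; congr 1; omega
    rw [this]; ring
  · have : ∀ k ∈ e, ((1 - t) * w k + if k = i then t else 0) = (1 - t) * w k := by
      intro k hk
      rw [if_neg (fun h : k = i => hi (h ▸ hk)), add_zero]
    rw [Finset.prod_congr rfl this, Finset.prod_mul_distrib, Finset.prod_const, hP e he]
    ring

section opt

variable {m : ℕ}

/-- `w` is an optimal weighting of `P`. -/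
structure Opt (P : Finset (Finset (Fin m))) (w : Fin m → ℝ) : Prop where
  nonneg : ∀ i, 0 ≤ w i
  sum_one : ∑ i, w i = 1
  max : ∀ x : Fin m → ℝ, (∀ i, 0 ≤ x i) → ∑ i, x i = 1 → ff P x ≤ ff P w

lemma ff_nonneg {P : Finset (Finset ι)} {w : ι → ℝ} (hw : ∀ i, 0 ≤ w i) : 0 ≤ ff P w :=
  Finset.sum_nonneg fun _ _ => Finset.prod_nonneg fun i _ => hw i

lemma Opt.dg_le {P : Finset (Finset (Fin m))} {w : Fin m → ℝ} (o : Opt P w) {r : ℕ}
    (hP : ∀ e ∈ P, e.card = r) (hr : 1 ≤ r) (i : Fin m) : dg P w i ≤ r * ff P w := by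
  have hf := ff_nonneg (P := P) o.nonneg
  have hd : 0 ≤ dg P w i := by
    unfold dg
    exact Finset.sum_nonneg fun _ _ => Finset.prod_nonneg fun j _ => o.nonneg j
  have key : ∀ t : ℝ, 0 < t → t < 1 → (1 - (r - 1 : ℕ) * t) * dg P w i ≤ r * ff P w := by
    intro t ht0 ht1
    have hbox : ∀ k, 0 ≤ (1 - t) * w k + if k = i then t else 0 := by
      intro k
      have := mul_nonneg (show 0 ≤ 1 - t by linarith) (o.nonneg k)
      split_ifs <;> linarith
    have hsum : ∑ k, ((1 - t) * w k + if k = i then t else 0) = 1 := by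
      rw [Finset.sum_add_distrib, ← Finset.mul_sum, o.sum_one]
      simp
    have h1 := o.max _ hbox hsum
    rw [ff_move hP hr] at h1
    have b1 : 1 - (r : ℝ) * t ≤ (1 - t) ^ r := by
      have := one_add_mul_le_pow (a := -t) (by linarith) r
      have e : 1 + -t = 1 - t := by ring
      rw [e] at this; linarith
    have b2 : 1 - ((r - 1 : ℕ) : ℝ) * t ≤ (1 - t) ^ (r - 1) := by
      have := one_add_mul_le_pow (a := -t) (by linarith) (r - 1)
      have e : 1 + -t = 1 - t := by ring
      rw [e] at this; linarith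
    have b3 : t * ((1 - t) ^ (r - 1) * dg P w i) ≤ t * (r * ff P w) := by
      have := mul_le_mul_of_nonneg_right b1 hf
      nlinarith
    have b4 := le_of_mul_le_mul_left b3 ht0
    have b5 := mul_le_mul_of_nonneg_right b2 hd
    linarith
  by_contra hcon
  push Not at hcon
  set D := dg P w i with hD
  set F := (r : ℝ) * ff P w with hF
  have hF0 : 0 ≤ F := by positivity
  have hDpos : 0 < D := lt_of_le_of_lt hF0 hcon
  set R : ℝ := ((r - 1 : ℕ) : ℝ) with hR
  have hR0 : 0 ≤ R := by positivity
  set t : ℝ := (D - F) / (2 * (R + 1) * D) with ht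
  have ht0 : 0 < t := by
    rw [ht]; apply div_pos (by linarith); positivity
  have ht1 : t < 1 := by
    rw [ht, div_lt_one (by positivity)]
    have : D ≤ 2 * (R + 1) * D := by nlinarith
    have : D < 2 * (R + 1) * D := by nlinarith
    linarith
  have h := key t ht0 ht1
  have e : R * t * D ≤ (D - F) / 2 := by
    have : R * t * D = (D - F) * (R / (2 * (R + 1))) := by
      rw [ht]; field_simp
    rw [this]
    have h2 : R / (2 * (R + 1)) ≤ 1 / 2 := by
      rw [div_le_div_iff₀ (by positivity) (by norm_num)]; linarith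
    have := mul_le_mul_of_nonneg_left h2 (show 0 ≤ D - F by linarith)
    linarith
  have e2 : (1 - R * t) * D = D - R * t * D := by ring
  rw [e2] at h
  linarith

/-- support -/
noncomputable def supp (w : Fin m → ℝ) : Finset (Fin m) := Finset.univ.filter (fun i => 0 < w i)

/-- missing family -/
noncomputable def missF (r : ℕ) (P : Finset (Finset (Fin m))) (V : Finset (Fin m)) :
    Finset (Finset (Fin m)) :=
  (V.powersetCard r).filter (fun e => e ∉ P)

lemma G_split {P : Finset (Finset (Fin m))} {r : ℕ} (hP : ∀ e ∈ P, e.card = r) (w : Fin m → ℝ)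
    {V S : Finset (Fin m)} (hS : S ⊆ V) :
    G w S r - ms r w (missF r P V) S
      = (r.factorial : ℝ) * ∑ e ∈ P.filter (fun e => e ⊆ S), ∏ i ∈ e, w i := by
  unfold G ms missF
  rw [Finset.filter_filter, ← mul_sub]
  congr 1
  have h1 : (S.powersetCard r) = (P.filter (fun e => e ⊆ S))
      ∪ ((V.powersetCard r).filter (fun e => e ∉ P ∧ e ⊆ S)) := by
    ext e
    simp only [Finset.mem_powersetCard, Finset.mem_union, Finset.mem_filter]
    constructor
    · rintro ⟨h1, h2⟩
      by_cases he : e ∈ P
      · left; exact ⟨he, h1⟩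
      · right; exact ⟨⟨h1.trans hS, h2⟩, he, h1⟩
    · rintro (⟨h1, h2⟩ | ⟨⟨h1, h2⟩, h3, h4⟩)
      · exact ⟨h2, hP e h1⟩
      · exact ⟨h4, h2⟩
  have hd : Disjoint (P.filter (fun e => e ⊆ S))
      ((V.powersetCard r).filter (fun e => e ∉ P ∧ e ⊆ S)) := by
    rw [Finset.disjoint_left]
    intro e he he'
    exact (Finset.mem_filter.1 he').2.1 (Finset.mem_filter.1 he).1
  rw [h1, Finset.sum_union hd]
  ring

lemma Opt.core {P : Finset (Finset (Fin m))} {w : Fin m → ℝ} (o : Opt P w) {r : ℕ}
    (hP : ∀ e ∈ P, e.card = r) (hr : 1 ≤ r) :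
    Core r (supp w) w (missF r P (supp w)) ((r.factorial : ℝ) * ff P w) := by
  have hzero : ∀ i, i ∉ supp w → w i = 0 := by
    intro i hi
    have : ¬ 0 < w i := fun h => hi (by unfold supp; simp [h])
    exact le_antisymm (not_lt.1 this) (o.nonneg i)
  have hPV : ∑ e ∈ P.filter (fun e => e ⊆ supp w), ∏ i ∈ e, w i = ff P w := by
    unfold ff
    apply Finset.sum_subset (Finset.filter_subset _ _)
    intro e he hne
    have : ¬ e ⊆ supp w := fun h => hne (Finset.mem_filter.2 ⟨he, h⟩)
    obtain ⟨i, hi, hiV⟩ := Finset.not_subset.1 this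
    exact Finset.prod_eq_zero hi (hzero i hiV)
  have hpos : ∀ i ∈ supp w, 0 < w i := fun i hi => (Finset.mem_filter.1 hi).2
  have hsum : ∑ i ∈ supp w, w i = 1 := by
    rw [← o.sum_one]
    apply Finset.sum_subset (Finset.subset_univ _)
    intro i _ hi
    exact hzero i hi
  have hsumdg : ∑ i, w i * dg P w i = r * ff P w := by
    apply sum_mul_dg
    intro e he
    exact ⟨Finset.subset_univ _, hP e he⟩
  have heq : ∀ i ∈ supp w, dg P w i = r * ff P w := by
    intro i hi
    have hnn : ∀ k ∈ (Finset.univ : Finset (Fin m)), 0 ≤ w k * (r * ff P w - dg P w k) := by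
      intro k _
      exact mul_nonneg (o.nonneg k) (by linarith [o.dg_le hP hr k])
    have hz : ∑ k, w k * (r * ff P w - dg P w k) = 0 := by
      have : ∀ k, w k * (r * ff P w - dg P w k) = (r * ff P w) * w k - w k * dg P w k := by
        intro k; ring
      simp only [this, Finset.sum_sub_distrib, ← Finset.mul_sum, o.sum_one, hsumdg]
      ring
    have := (Finset.sum_eq_zero_iff_of_nonneg hnn).1 hz i (Finset.mem_univ i)
    have h2 := hpos i hi
    rcases mul_eq_zero.1 this with h | h
    · linarith
    · linarith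
  refine ⟨hpos, hsum, ?_, ?_, ?_⟩
  · intro e he
    exact Finset.mem_powersetCard.1 (Finset.mem_filter.1 he).1
  · have h1 := G_split hP w (Finset.Subset.refl (supp w))
    have h2 : ms r w (missF r P (supp w)) (supp w)
        = (r.factorial : ℝ) * ∑ e ∈ missF r P (supp w), ∏ i ∈ e, w i := by
      unfold ms
      congr 1
      apply Finset.sum_congr _ (fun _ _ => rfl)
      rw [Finset.filter_eq_self]
      intro e he
      exact (Finset.mem_powersetCard.1 (Finset.mem_filter.1 he).1).1
    rw [h2, hPV] at h1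
    linarith
  · intro i hi
    obtain ⟨k, rfl⟩ : ∃ k, r = k + 1 := ⟨r - 1, by omega⟩
    rw [Nat.add_sub_cancel, ← dg_full w hi k]
    have hsplit : dg ((supp w).powersetCard (k + 1)) w i
        = dg (missF (k + 1) P (supp w)) w i + dg P w i := by
      unfold dg missF
      rw [Finset.filter_filter]
      have h1 : ((supp w).powersetCard (k + 1)).filter (fun e => i ∈ e)
          = ((supp w).powersetCard (k + 1)).filter (fun e => e ∉ P ∧ i ∈ e)
            ∪ P.filter (fun e => i ∈ e ∧ e ⊆ supp w) := by
        ext e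
        simp only [Finset.mem_powersetCard, Finset.mem_union, Finset.mem_filter]
        constructor
        · rintro ⟨⟨h1, h2⟩, h3⟩
          by_cases he : e ∈ P
          · right; exact ⟨he, h3, h1⟩
          · left; exact ⟨⟨h1, h2⟩, he, h3⟩
        · rintro (⟨h1, _, h3⟩ | ⟨h1, h2, h3⟩)
          · exact ⟨h1, h3⟩
          · exact ⟨⟨h3, hP e h1⟩, h2⟩
      have hd : Disjoint (((supp w).powersetCard (k + 1)).filter (fun e => e ∉ P ∧ i ∈ e))
          (P.filter (fun e => i ∈ e ∧ e ⊆ supp w)) := by
        rw [Finset.disjoint_left]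
        intro e he he'
        exact (Finset.mem_filter.1 he).2.1 (Finset.mem_filter.1 he').1
      rw [h1, Finset.sum_union hd]
      congr 1
      apply Finset.sum_subset
      · intro e he
        rw [Finset.mem_filter] at he ⊢
        exact ⟨he.1, he.2.1⟩
      · intro e he hne
        rw [Finset.mem_filter] at he
        have : ¬ e ⊆ supp w := fun h => hne (Finset.mem_filter.2 ⟨he.1, he.2, h⟩)
        obtain ⟨j, hj, hjV⟩ := Finset.not_subset.1 this
        have hji : j ≠ i := fun h => hjV (h ▸ hi)
        exact Finset.prod_eq_zero (Finset.mem_erase.2 ⟨hji, hj⟩) (hzero j hjV)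
    rw [hsplit, heq i hi, Nat.factorial_succ]
    push_cast
    ring

lemma exists_opt (P : Finset (Finset (Fin m))) (hm : 0 < m) : ∃ w, Opt P w := by
  have hne : (stdSimplex ℝ (Fin m)).Nonempty := ⟨_, single_mem_stdSimplex ℝ (⟨0, hm⟩ : Fin m)⟩
  have hcont : ContinuousOn (ff P) (stdSimplex ℝ (Fin m)) := by
    unfold ff
    fun_prop
  obtain ⟨w, hw, hmax⟩ := (isCompact_stdSimplex ℝ (Fin m)).exists_isMaxOn hne hcont
  refine ⟨w, hw.1, hw.2, ?_⟩
  intro x hx hs
  exact hmax (show x ∈ stdSimplex ℝ (Fin m) from ⟨hx, hs⟩)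

end opt

end Pool.Agent.Lib.MP_6da058_co
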