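import Mathlib

set_option autoImplicit false
set_option linter.unusedSectionVars false

namespace Pool.Agent.Lib.MP_6da058_co

open Finset Function

variable {ι : Type*} [DecidableEq ι]

/-- the unit box -/
def Box (X : ι → ℝ) : Prop := ∀ k, 0 ≤ X k ∧ X k ≤ 1

/-- pairwise bi-affine with nonnegative mixed coefficient -/
def PB (V : Finset ι) (F : (ι → ℝ) → ℝ) : Prop :=
  ∀ X, Box X → ∀ i ∈ V, ∀ j ∈ V, i ≠ j → ∃ a b c d : ℝ, 0 ≤ d ∧
    ∀ s t : ℝ, F (update (update X i s) j t) = a + b * s + c * t + d * s * t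

/-- affine in every coordinate -/
def SA (V : Finset ι) (F : (ι → ℝ) → ℝ) : Prop :=
  ∀ X, Box X → ∀ i ∈ V, ∃ a b : ℝ, ∀ s : ℝ, F (update X i s) = a + b * s

lemma Box.update {X : ι → ℝ} (hX : Box X) (i : ι) {s : ℝ} (h0 : 0 ≤ s) (h1 : s ≤ 1) :
    Box (update X i s) := by
  intro k
  by_cases hk : k = i
  · subst hk; simp [h0, h1]
  · simp [Function.update_of_ne hk, hX k]

lemma sum_update {V : Finset ι} {h X : ι → ℝ} {i : ι} (hi : i ∈ V) (s : ℝ) :
    ∑ k ∈ V, h k * update X i s k = ∑ k ∈ V, h k * X k + h i * (s - X i) := by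
  rw [← Finset.add_sum_erase V _ hi, ← Finset.add_sum_erase V (fun k => h k * X k) hi]
  have : ∑ k ∈ V.erase i, h k * update X i s k = ∑ k ∈ V.erase i, h k * X k := by
    apply Finset.sum_congr rfl
    intro k hk
    rw [Function.update_of_ne (Finset.ne_of_mem_erase hk)]
  rw [this]
  simp
  ring

lemma exchange {V : Finset ι} {h : ι → ℝ} (hh : ∀ i ∈ V, 0 < h i) {F : (ι → ℝ) → ℝ}
    (hF : PB V F) {X : ι → ℝ} (hX : Box X) {i j : ι} (hi : i ∈ V) (hj : j ∈ V) (hij : i ≠ j)
    (fi : 0 < X i ∧ X i < 1) (fj : 0 < X j ∧ X j < 1) :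
    ∃ s t : ℝ, 0 ≤ s ∧ s ≤ 1 ∧ 0 ≤ t ∧ t ≤ 1 ∧ h i * (s - X i) + h j * (t - X j) = 0 ∧
      F (update (update X i s) j t) ≤ F X ∧ (s = 0 ∨ s = 1 ∨ t = 0 ∨ t = 1) := by
  obtain ⟨a, b, c, d, hd, hF'⟩ := hF X hX i hi j hj hij
  have hi0 := hh i hi
  have hj0 := hh j hj
  have hFX : F X = a + b * X i + c * X j + d * X i * X j := by
    rw [← hF' (X i) (X j)]
    congr 1
    simp
  set B := b * h j - c * h i + d * (h j * X j - h i * X i) with hB
  rcases le_or_gt B 0 with hB0 | hB0
  · -- positive direction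
    rcases le_total ((1 - X i) / h j) (X j / h i) with hle | hle
    · refine ⟨1, X j - h i * ((1 - X i) / h j), by norm_num, le_rfl, ?_, ?_, ?_, ?_, Or.inr (Or.inl rfl)⟩
      · have := mul_le_mul_of_nonneg_left hle hi0.le
        rw [mul_div_cancel₀ _ hi0.ne'] at this
        linarith
      · have : 0 ≤ h i * ((1 - X i) / h j) :=
          mul_nonneg hi0.le (div_nonneg (by linarith) hj0.le)
        linarith
      · field_simp; ring
      · rw [hF', hFX]
        set τ := (1 - X i) / h j with hτ
        have hτ0 : 0 ≤ τ := div_nonneg (by linarith) hj0.le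
        have e1 : (1 : ℝ) = X i + h j * τ := by rw [hτ]; field_simp; ring
        have e2 : a + b * 1 + c * (X j - h i * τ) + d * 1 * (X j - h i * τ)
            = a + b * X i + c * X j + d * X i * X j + τ * B - d * (h i * h j) * τ ^ 2 := by
          rw [hB]
          nth_rewrite 1 [e1]
          nth_rewrite 1 [e1]
          ring
        rw [e2]
        have : τ * B ≤ 0 := mul_nonpos_of_nonneg_of_nonpos hτ0 hB0
        have : 0 ≤ d * (h i * h j) * τ ^ 2 := by positivity
        linarith
    · refine ⟨X i + h j * (X j / h i), 0, ?_, ?_, le_rfl, by norm_num, ?_, ?_, Or.inr (Or.inr (Or.inl rfl))⟩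
      · have : 0 ≤ h j * (X j / h i) := mul_nonneg hj0.le (div_nonneg fj.1.le hi0.le)
        linarith [fi.1]
      · have := mul_le_mul_of_nonneg_left hle hj0.le
        rw [mul_div_cancel₀ _ hj0.ne'] at this
        linarith
      · field_simp; ring
      · rw [hF', hFX]
        set τ := X j / h i with hτ
        have hτ0 : 0 ≤ τ := div_nonneg fj.1.le hi0.le
        have e1 : (0 : ℝ) = X j - h i * τ := by rw [hτ]; field_simp; ring
        have e2 : a + b * (X i + h j * τ) + c * 0 + d * (X i + h j * τ) * 0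
            = a + b * X i + c * X j + d * X i * X j + τ * B - d * (h i * h j) * τ ^ 2 := by
          rw [hB]
          nth_rewrite 1 [e1]
          nth_rewrite 1 [e1]
          ring
        rw [e2]
        have : τ * B ≤ 0 := mul_nonpos_of_nonneg_of_nonpos hτ0 hB0
        have : 0 ≤ d * (h i * h j) * τ ^ 2 := by positivity
        linarith
  · -- negative direction
    rcases le_total (X i / h j) ((1 - X j) / h i) with hle | hle
    · refine ⟨0, X j + h i * (X i / h j), le_rfl, by norm_num, ?_, ?_, ?_, ?_, Or.inl rfl⟩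
      · have : 0 ≤ h i * (X i / h j) := mul_nonneg hi0.le (div_nonneg fi.1.le hj0.le)
        linarith [fj.1]
      · have := mul_le_mul_of_nonneg_left hle hi0.le
        rw [mul_div_cancel₀ _ hi0.ne'] at this
        linarith
      · field_simp; ring
      · rw [hF', hFX]
        set τ := X i / h j with hτ
        have hτ0 : 0 ≤ τ := div_nonneg fi.1.le hj0.le
        have e1 : (0 : ℝ) = X i - h j * τ := by rw [hτ]; field_simp; ring
        have e2 : a + b * 0 + c * (X j + h i * τ) + d * 0 * (X j + h i * τ)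
            = a + b * X i + c * X j + d * X i * X j - τ * B - d * (h i * h j) * τ ^ 2 := by
          rw [hB]
          nth_rewrite 1 [e1]
          nth_rewrite 1 [e1]
          ring
        rw [e2]
        have : 0 ≤ τ * B := mul_nonneg hτ0 hB0.le
        have : 0 ≤ d * (h i * h j) * τ ^ 2 := by positivity
        linarith
    · refine ⟨X i - h j * ((1 - X j) / h i), 1, ?_, ?_, by norm_num, le_rfl, ?_, ?_, Or.inr (Or.inr (Or.inr rfl))⟩
      · have := mul_le_mul_of_nonneg_left hle hj0.le
        rw [mul_div_cancel₀ _ hj0.ne'] at this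
        linarith
      · have : 0 ≤ h j * ((1 - X j) / h i) :=
          mul_nonneg hj0.le (div_nonneg (by linarith) hi0.le)
        linarith
      · field_simp; ring
      · rw [hF', hFX]
        set τ := (1 - X j) / h i with hτ
        have hτ0 : 0 ≤ τ := div_nonneg (by linarith) hi0.le
        have e1 : (1 : ℝ) = X j + h i * τ := by rw [hτ]; field_simp; ring
        have e2 : a + b * (X i - h j * τ) + c * 1 + d * (X i - h j * τ) * 1
            = a + b * X i + c * X j + d * X i * X j - τ * B - d * (h i * h j) * τ ^ 2 := by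
          rw [hB]
          nth_rewrite 1 [e1]
          nth_rewrite 1 [e1]
          ring
        rw [e2]
        have : 0 ≤ τ * B := mul_nonneg hτ0 hB0.le
        have : 0 ≤ d * (h i * h j) * τ ^ 2 := by positivity
        linarith

/-- fractional coordinates -/
noncomputable def frac (V : Finset ι) (X : ι → ℝ) : Finset ι :=
  V.filter (fun i => 0 < X i ∧ X i < 1)

lemma pipage {V : Finset ι} {h : ι → ℝ} (hh : ∀ i ∈ V, 0 < h i) {F : (ι → ℝ) → ℝ}
    (hF : PB V F) (n : ℕ) : ∀ X : ι → ℝ, Box X → (frac V X).card ≤ n →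
    ∃ Y, Box Y ∧ F Y ≤ F X ∧ ∑ k ∈ V, h k * Y k = ∑ k ∈ V, h k * X k ∧ (frac V Y).card ≤ 1 := by
  induction n with
  | zero =>
    intro X hX hc
    exact ⟨X, hX, le_rfl, rfl, by omega⟩
  | succ n ih =>
    intro X hX hc
    by_cases h1 : (frac V X).card ≤ 1
    · exact ⟨X, hX, le_rfl, rfl, h1⟩
    push Not at h1
    obtain ⟨i, hi, j, hj, hij⟩ := Finset.one_lt_card.1 h1
    have hi' := Finset.mem_filter.1 hi
    have hj' := Finset.mem_filter.1 hj
    obtain ⟨s, t, s0, s1, t0, t1, hst, hFle, hend⟩ :=
      exchange hh hF hX hi'.1 hj'.1 hij hi'.2 hj'.2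
    set X' := update (update X i s) j t with hX'
    have hbox : Box X' := (hX.update i s0 s1).update j t0 t1
    have hX'i : X' i = s := by
      rw [hX', Function.update_of_ne hij]; simp
    have hX'j : X' j = t := by rw [hX']; simp
    have hX'k : ∀ k, k ≠ i → k ≠ j → X' k = X k := by
      intro k hki hkj
      rw [hX', Function.update_of_ne hkj, Function.update_of_ne hki]
    have hsum : ∑ k ∈ V, h k * X' k = ∑ k ∈ V, h k * X k := by
      rw [hX', sum_update hj'.1, sum_update hi'.1, Function.update_of_ne (Ne.symm hij)]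
      linarith
    have hcard : (frac V X').card ≤ n := by
      have hsub : frac V X' ⊆ frac V X := by
        intro k hk
        rw [frac, Finset.mem_filter] at hk ⊢
        by_cases hki : k = i
        · subst hki; exact hi'
        by_cases hkj : k = j
        · subst hkj; exact hj'
        rw [hX'k k hki hkj] at hk
        exact hk
      have hss : frac V X' ⊂ frac V X := by
        rw [Finset.ssubset_iff_of_subset hsub]
        rcases hend with h0 | h0 | h0 | h0
        · refine ⟨i, hi, fun hc => ?_⟩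
          have := (Finset.mem_filter.1 hc).2.1
          rw [hX'i, h0] at this
          exact lt_irrefl _ this
        · refine ⟨i, hi, fun hc => ?_⟩
          have := (Finset.mem_filter.1 hc).2.2
          rw [hX'i, h0] at this
          exact lt_irrefl _ this
        · refine ⟨j, hj, fun hc => ?_⟩
          have := (Finset.mem_filter.1 hc).2.1
          rw [hX'j, h0] at this
          exact lt_irrefl _ this
        · refine ⟨j, hj, fun hc => ?_⟩
          have := (Finset.mem_filter.1 hc).2.2
          rw [hX'j, h0] at this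
          exact lt_irrefl _ this
      have := Finset.card_lt_card hss
      omega
    obtain ⟨Y, hY, hFY, hsY, hfY⟩ := ih X' hbox hcard
    exact ⟨Y, hY, hFY.trans hFle, hsY.trans hsum, hfY⟩

/-- Pipage rounding to an actual subset. -/
lemma pipage_round {V : Finset ι} {h : ι → ℝ} (hh : ∀ i ∈ V, 0 < h i ∧ h i ≤ 1)
    {F : (ι → ℝ) → ℝ} (hF : PB V F) (hS : SA V F)
    (hdep : ∀ X Y : ι → ℝ, (∀ i ∈ V, X i = Y i) → F X = F Y)
    {X : ι → ℝ} (hX : Box X) :
    ∃ T ⊆ V, F (fun i => if i ∈ T then 1 else 0) ≤ F X ∧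
      |∑ i ∈ T, h i - ∑ i ∈ V, h i * X i| ≤ 1 := by
  obtain ⟨Y, hY, hFY, hsY, hfY⟩ := pipage (fun i hi => (hh i hi).1) hF _ X hX le_rfl
  -- an integral point Z
  have hZ : ∃ Z : ι → ℝ, Box Z ∧ F Z ≤ F Y ∧ (∀ i ∈ V, Z i = 0 ∨ Z i = 1) ∧
      |∑ i ∈ V, h i * Z i - ∑ i ∈ V, h i * Y i| ≤ 1 := by
    rcases Nat.eq_zero_or_pos (frac V Y).card with h0 | h0
    · refine ⟨Y, hY, le_rfl, ?_, by simp⟩
      intro i hi
      by_contra hcon
      push Not at hcon
      have : i ∈ frac V Y := by
        rw [frac, Finset.mem_filter]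
        refine ⟨hi, lt_of_le_of_ne (hY i).1 (Ne.symm hcon.1), lt_of_le_of_ne (hY i).2 hcon.2⟩
      rw [Finset.card_eq_zero] at h0
      rw [h0] at this
      simp at this
    · have h1 : (frac V Y).card = 1 := by omega
      obtain ⟨j, hj⟩ := Finset.card_eq_one.1 h1
      have hjm : j ∈ frac V Y := by rw [hj]; simp
      have hj' := Finset.mem_filter.1 hjm
      obtain ⟨a, b, hab⟩ := hS Y hY j hj'.1
      have hFY0 : F Y = a + b * Y j := by rw [← hab (Y j)]; simp
      have hint : ∀ s : ℝ, (s = 0 ∨ s = 1) → ∀ i ∈ V, update Y j s i = 0 ∨ update Y j s i = 1 := by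
        intro s hs i hi
        by_cases hij : i = j
        · subst hij; simpa using hs
        · rw [Function.update_of_ne hij]
          by_contra hcon
          push Not at hcon
          have : i ∈ frac V Y := by
            rw [frac, Finset.mem_filter]
            refine ⟨hi, lt_of_le_of_ne (hY i).1 (Ne.symm hcon.1), lt_of_le_of_ne (hY i).2 hcon.2⟩
          rw [hj] at this
          exact hij (Finset.mem_singleton.1 this)
      have hhj := hh j hj'.1
      rcases le_or_gt 0 b with hb | hb
      · refine ⟨update Y j 0, hY.update j le_rfl (by norm_num), ?_, hint 0 (Or.inl rfl), ?_⟩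
        · rw [hab, hFY0]
          have : 0 ≤ b * Y j := mul_nonneg hb (hY j).1
          linarith
        · rw [sum_update hj'.1, add_sub_cancel_left, abs_le]
          have := hY j
          constructor <;> nlinarith
      · refine ⟨update Y j 1, hY.update j (by norm_num) le_rfl, ?_, hint 1 (Or.inr rfl), ?_⟩
        · rw [hab, hFY0]
          have : b * 1 ≤ b * Y j := mul_le_mul_of_nonpos_left (hY j).2 hb.le
          linarith
        · rw [sum_update hj'.1, add_sub_cancel_left, abs_le]
          have := hY j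
          constructor <;> nlinarith
  obtain ⟨Z, hZb, hFZ, hZi, hZs⟩ := hZ
  refine ⟨V.filter (fun i => Z i = 1), Finset.filter_subset _ _, ?_, ?_⟩
  · refine le_trans (le_of_eq ?_) (hFZ.trans hFY)
    apply hdep
    intro i hi
    by_cases h1 : Z i = 1
    · simp [h1, hi]
    · have : Z i = 0 := (hZi i hi).resolve_right h1
      simp [this]
  · have : ∑ i ∈ V.filter (fun i => Z i = 1), h i = ∑ i ∈ V, h i * Z i := by
      rw [Finset.sum_filter]
      apply Finset.sum_congr rfl
      intro i hi
      by_cases h1 : Z i = 1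
      · simp [h1]
      · have : Z i = 0 := (hZi i hi).resolve_right h1
        simp [this]
    rw [this, ← hsY]
    exact hZs

/-! Closure properties -/

lemma PB.add {V : Finset ι} {F F' : (ι → ℝ) → ℝ} (h : PB V F) (h' : PB V F') :
    PB V (fun X => F X + F' X) := by
  intro X hX i hi j hj hij
  obtain ⟨a, b, c, d, hd, hF⟩ := h X hX i hi j hj hij
  obtain ⟨a', b', c', d', hd', hF'⟩ := h' X hX i hi j hj hij
  refine ⟨a + a', b + b', c + c', d + d', by linarith, fun s t => ?_⟩
  simp only [hF, hF']
  ring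

lemma PB.smul {V : Finset ι} {F : (ι → ℝ) → ℝ} (h : PB V F) {q : ℝ} (hq : 0 ≤ q) :
    PB V (fun X => q * F X) := by
  intro X hX i hi j hj hij
  obtain ⟨a, b, c, d, hd, hF⟩ := h X hX i hi j hj hij
  refine ⟨q * a, q * b, q * c, q * d, mul_nonneg hq hd, fun s t => ?_⟩
  simp only [hF]
  ring

lemma PB.sum {κ : Type*} {V : Finset ι} {K : Finset κ} {F : κ → (ι → ℝ) → ℝ}
    (h : ∀ k ∈ K, PB V (F k)) : PB V (fun X => ∑ k ∈ K, F k X) := by
  classical
  induction K using Finset.induction_on with
  | empty =>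
    intro X hX i hi j hj hij
    exact ⟨0, 0, 0, 0, le_rfl, fun s t => by simp⟩
  | insert a K ha ih =>
    have := (h a (Finset.mem_insert_self _ _)).add
      (ih fun k hk => h k (Finset.mem_insert_of_mem hk))
    simpa only [Finset.sum_insert ha] using this

lemma SA.add {V : Finset ι} {F F' : (ι → ℝ) → ℝ} (h : SA V F) (h' : SA V F') :
    SA V (fun X => F X + F' X) := by
  intro X hX i hi
  obtain ⟨a, b, hF⟩ := h X hX i hi
  obtain ⟨a', b', hF'⟩ := h' X hX i hi
  refine ⟨a + a', b + b', fun s => ?_⟩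
  simp only [hF, hF']
  ring

lemma SA.smul {V : Finset ι} {F : (ι → ℝ) → ℝ} (h : SA V F) (q : ℝ) :
    SA V (fun X => q * F X) := by
  intro X hX i hi
  obtain ⟨a, b, hF⟩ := h X hX i hi
  refine ⟨q * a, q * b, fun s => ?_⟩
  simp only [hF]
  ring

lemma SA.sum {κ : Type*} {V : Finset ι} {K : Finset κ} {F : κ → (ι → ℝ) → ℝ}
    (h : ∀ k ∈ K, SA V (F k)) : SA V (fun X => ∑ k ∈ K, F k X) := by
  classical
  induction K using Finset.induction_on with
  | empty =>
    intro X hX i hi
    exact ⟨0, 0, fun s => by simp⟩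
  | insert a K ha ih =>
    have := (h a (Finset.mem_insert_self _ _)).add
      (ih fun k hk => h k (Finset.mem_insert_of_mem hk))
    simpa only [Finset.sum_insert ha] using this

lemma prod_update_affine (u v X : ι → ℝ) (e : Finset ι) (i : ι) (s : ℝ) :
    ∏ k ∈ e, (u k + v k * update X i s k)
      = if i ∈ e then (u i + v i * s) * ∏ k ∈ e.erase i, (u k + v k * X k)
        else ∏ k ∈ e, (u k + v k * X k) := by
  split_ifs with hi
  · rw [← Finset.mul_prod_erase e _ hi]
    simp only [Function.update_self]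
    congr 1
    apply Finset.prod_congr rfl
    intro k hk
    rw [Function.update_of_ne (Finset.ne_of_mem_erase hk)]
  · apply Finset.prod_congr rfl
    intro k hk
    rw [Function.update_of_ne]
    rintro rfl
    exact hi hk

lemma SA_prod (V : Finset ι) (u v : ι → ℝ) (e : Finset ι) :
    SA V (fun X => ∏ k ∈ e, (u k + v k * X k)) := by
  intro X _ i _
  by_cases hi : i ∈ e
  · refine ⟨u i * ∏ k ∈ e.erase i, (u k + v k * X k), v i * ∏ k ∈ e.erase i, (u k + v k * X k),
      fun s => ?_⟩
    simp only [prod_update_affine, if_pos hi]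
    ring
  · refine ⟨∏ k ∈ e, (u k + v k * X k), 0, fun s => ?_⟩
    simp only [prod_update_affine, if_neg hi]
    ring

lemma PB_prod (V : Finset ι) (u v : ι → ℝ) (e : Finset ι)
    (hnn : ∀ k, ∀ x : ℝ, 0 ≤ x → x ≤ 1 → 0 ≤ u k + v k * x)
    (hv : ∀ i j, 0 ≤ v i * v j) :
    PB V (fun X => ∏ k ∈ e, (u k + v k * X k)) := by
  intro X hX i _ j _ hij
  by_cases hj : j ∈ e
  · by_cases hi : i ∈ e
    · have hi' : i ∈ e.erase j := Finset.mem_erase.2 ⟨hij, hi⟩
      set R := ∏ k ∈ (e.erase j).erase i, (u k + v k * X k) with hR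
      have hR0 : 0 ≤ R := Finset.prod_nonneg fun k _ => hnn k (X k) (hX k).1 (hX k).2
      refine ⟨u i * u j * R, v i * u j * R, u i * v j * R, v i * v j * R,
        mul_nonneg (hv i j) hR0, fun s t => ?_⟩
      simp only [prod_update_affine, if_pos hj, if_pos hi']
      rw [← hR]
      ring
    · have hi' : i ∉ e.erase j := fun h => hi (Finset.mem_of_mem_erase h)
      set R := ∏ k ∈ e.erase j, (u k + v k * X k) with hR
      refine ⟨u j * R, 0, v j * R, 0, le_rfl, fun s t => ?_⟩
      simp only [prod_update_affine, if_pos hj, if_neg hi']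
      rw [← hR]
      ring
  · by_cases hi : i ∈ e
    · set R := ∏ k ∈ e.erase i, (u k + v k * X k) with hR
      refine ⟨u i * R, v i * R, 0, 0, le_rfl, fun s t => ?_⟩
      simp only [prod_update_affine, if_neg hj, if_pos hi]
      rw [← hR]
      ring
    · refine ⟨∏ k ∈ e, (u k + v k * X k), 0, 0, 0, le_rfl, fun s t => ?_⟩
      simp only [prod_update_affine, if_neg hj, if_neg hi]
      ring

end Pool.Agent.Lib.MP_6da058_co
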