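import Pool.Agent.Lib.MP_6da058_co.Budget

set_option autoImplicit false

namespace Pool.Agent.Lib.MP_6da058_co

/-- `(p - x)^k ≥ p^k - k x` for `0 ≤ x ≤ p ≤ 1`. -/
lemma pow_sub_ge {p x : ℝ} (hx : 0 ≤ x) (hxp : x ≤ p) (hp : p ≤ 1) (k : ℕ) :
    p ^ k - k * x ≤ (p - x) ^ k := by
  induction k with
  | zero => simp
  | succ k ih =>
    have hp0 : 0 ≤ p := hx.trans hxp
    have h1 : 0 ≤ p - x := by linarith
    have h2 : (p ^ k - k * x) * (p - x) ≤ (p - x) ^ k * (p - x) :=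
      mul_le_mul_of_nonneg_right ih h1
    have h3 : p ^ k ≤ 1 := pow_le_one₀ hp0 hp
    have h4 : x * p ^ k ≤ x := by
      have := mul_le_mul_of_nonneg_left h3 hx
      linarith
    have h5 : (k : ℝ) * x * (p - x) ≤ k * x := by
      have : (k : ℝ) * x * (p - x) ≤ k * x * 1 :=
        mul_le_mul_of_nonneg_left (by linarith) (by positivity)
      linarith
    rw [pow_succ, pow_succ]
    push_cast
    nlinarith

lemma realS {r : ℕ} (hr : 3 ≤ r) {C K n M p2 P q p δ ε z s m : ℝ} (hC : 3 ≤ C) (hn : 0 < n)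
    (hM : 0 < M) (hq : 0 < q) (hp : p = 1 - q) (hp4 : 2 / 5 ≤ p) (hε : 0 < ε)
    (hδ : 0 < δ) (hK : 0 ≤ K)
    (hz : z * (p * n) = 1) (hs : p - δ * q ≤ s) (hs1 : s ≤ 1)
    (hP : P ≤ p * p2 + δ * q / n) (hbud : (1 - K / n) * M ≤ C * (1 / n - p2))
    (hMε : ε * C / n ≤ M) (hm : m < p ^ r * M + δ * q * M)
    (hsmall : C * z + K / n + (3 / ε + r + 1) * (δ * q) ≤ q * (2 / 5) ^ r) :
    m < C * (1 - C * z) * s ^ (r - 2) * (s ^ 2 * z - P) := by
  have hp0 : 0 < p := by linarith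
  have hp1 : p ≤ 1 := by linarith
  have hz0 : 0 < z := by
    have : 0 < p * n := by positivity
    by_contra hc
    push Not at hc
    have := mul_nonpos_of_nonpos_of_nonneg hc this.le
    linarith
  have hpz : p * z = 1 / n := by
    rw [eq_div_iff hn.ne']; linarith
  set x := δ * q with hx
  have hx0 : 0 < x := by positivity
  have hKn : 0 ≤ K / n := by positivity
  have hα : 0 ≤ C * z := by positivity
  have h25 : ((2 : ℝ) / 5) ^ r ≤ 8 / 125 := by
    calc ((2 : ℝ) / 5) ^ r ≤ ((2 : ℝ) / 5) ^ 3 :=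
          pow_le_pow_of_le_one (by norm_num) (by norm_num) hr
      _ = 8 / 125 := by norm_num
  have hq1 : q ≤ 3 / 5 := by linarith
  have hsm : q * (2 / 5) ^ r ≤ 3 / 5 * (8 / 125) :=
    mul_le_mul hq1 h25 (by positivity) (by norm_num)
  have h3ε : 0 ≤ 3 / ε * x := by positivity
  have hrx : 0 ≤ (r : ℝ) * x := by positivity
  have hsum : C * z + K / n + 3 / ε * x + r * x + x ≤ q * (2 / 5) ^ r := by linarith
  have hxp : x ≤ p := by linarith
  have hs0 : 0 ≤ s := by linarith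
  -- step 1, 2
  have s1 : (p - 2 * x) / n ≤ s ^ 2 * z := by
    have a1 : (p - x) ^ 2 ≤ s ^ 2 := pow_le_pow_left₀ (by linarith) hs 2
    have a2 : (p ^ 2 - 2 * p * x) * z ≤ s ^ 2 * z :=
      mul_le_mul_of_nonneg_right (by nlinarith) hz0.le
    have a3 : (p ^ 2 - 2 * p * x) * z = (p - 2 * x) * (p * z) := by ring
    rw [a3, hpz] at a2
    rw [div_eq_mul_one_div]
    exact a2
  have s2 : p * (1 / n - p2) - 3 * x / n ≤ s ^ 2 * z - P := by
    have : p * (1 / n - p2) - 3 * x / n = (p - 2 * x) / n - (p * p2 + x / n) := by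
      field_simp; ring
    rw [this]; linarith
  -- step 3
  set Y := p * (1 - K / n) - 3 / ε * x with hY
  have s3 : M * Y ≤ C * (s ^ 2 * z - P) := by
    have b1 := mul_le_mul_of_nonneg_left s2 (show 0 ≤ C by linarith)
    have b2 := mul_le_mul_of_nonneg_left hbud hp0.le
    have b3 : C * (3 * x / n) ≤ M * (3 / ε * x) := by
      have : C / n ≤ M / ε := by
        rw [le_div_iff₀ hε]
        calc C / n * ε = ε * C / n := by ring
          _ ≤ M := hMε
      have := mul_le_mul_of_nonneg_left this (show 0 ≤ 3 * x by positivity)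
      calc C * (3 * x / n) = 3 * x * (C / n) := by ring
        _ ≤ 3 * x * (M / ε) := this
        _ = _ := by ring
    have e1 : M * Y = p * ((1 - K / n) * M) - M * (3 / ε * x) := by rw [hY]; ring
    have e2 : C * (p * (1 / n - p2) - 3 * x / n) = p * (C * (1 / n - p2)) - C * (3 * x / n) := by
      ring
    rw [e2] at b1
    rw [e1]
    linarith
  have hYe : Y = p - p * (K / n) - 3 / ε * x := by rw [hY]; ring
  have hpK : p * (K / n) ≤ K / n := mul_le_of_le_one_left hKn hp1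
  have hpK0 : 0 ≤ p * (K / n) := by positivity
  have hY0 : 0 ≤ Y := by
    rw [hYe]
    linarith
  have hY1 : Y ≤ 1 := by
    rw [hYe]
    linarith
  -- step 4
  have s4 : p ^ (r - 2) - r * x ≤ s ^ (r - 2) := by
    have c1 := pow_sub_ge hx0.le hxp hp1 (r - 2)
    have c2 : (p - x) ^ (r - 2) ≤ s ^ (r - 2) := pow_le_pow_left₀ (by linarith) hs _
    have c3 : ((r - 2 : ℕ) : ℝ) ≤ r := by exact_mod_cast Nat.sub_le r 2
    have c4 := mul_le_mul_of_nonneg_right c3 hx0.le
    linarith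
  have hS0 : 0 ≤ s ^ (r - 2) := by positivity
  have hS1 : s ^ (r - 2) ≤ 1 := pow_le_one₀ hs0 hs1
  have hpp0 : 0 ≤ p ^ (r - 2) := by positivity
  have hpp1 : p ^ (r - 2) ≤ 1 := pow_le_one₀ hp0.le hp1
  have s5 : p ^ (r - 1) - (C * z + K / n + 3 / ε * x + r * x)
      ≤ (1 - C * z) * s ^ (r - 2) * Y := by
    have d1 : s ^ (r - 2) * Y ≤ 1 := mul_le_one₀ hS1 hY0 hY1
    have d2 : (p ^ (r - 2) - r * x) * Y ≤ s ^ (r - 2) * Y := mul_le_mul_of_nonneg_right s4 hY0
    have d3 : (r : ℝ) * x * Y ≤ r * x := mul_le_of_le_one_right hrx hY1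
    have d4 : p ^ (r - 1) = p ^ (r - 2) * p := by
      rw [← pow_succ]; congr 1; omega
    have d5 : p ^ (r - 2) * (K / n + 3 / ε * x) ≤ K / n + 3 / ε * x :=
      mul_le_of_le_one_left (by positivity) hpp1
    have d6 : p - (K / n + 3 / ε * x) ≤ Y := by
      rw [hYe]
      linarith
    have d7 := mul_le_mul_of_nonneg_left d6 hpp0
    have d8 : C * z * (s ^ (r - 2) * Y) ≤ C * z := mul_le_of_le_one_right hα d1
    have e1 : (1 - C * z) * s ^ (r - 2) * Y = s ^ (r - 2) * Y - C * z * (s ^ (r - 2) * Y) := by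
      ring
    have e2 : (p ^ (r - 2) - r * x) * Y = p ^ (r - 2) * Y - r * x * Y := by ring
    have e3 : p ^ (r - 2) * (p - (K / n + 3 / ε * x))
        = p ^ (r - 2) * p - p ^ (r - 2) * (K / n + 3 / ε * x) := by ring
    rw [e2] at d2
    rw [e3] at d7
    rw [d4, e1]
    linarith
  have hαle : C * z ≤ 1 := by linarith
  have s6 : M * ((1 - C * z) * s ^ (r - 2) * Y)
      ≤ C * (1 - C * z) * s ^ (r - 2) * (s ^ 2 * z - P) := by
    have h7 : 0 ≤ (1 - C * z) * s ^ (r - 2) := mul_nonneg (by linarith) hS0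
    have h8 := mul_le_mul_of_nonneg_left s3 h7
    calc M * ((1 - C * z) * s ^ (r - 2) * Y) = (1 - C * z) * s ^ (r - 2) * (M * Y) := by ring
      _ ≤ _ := h8
      _ = _ := by ring
  have s7 : p ^ r + x ≤ p ^ (r - 1) - (C * z + K / n + 3 / ε * x + r * x) := by
    have d1 : p ^ r = p ^ (r - 1) - q * p ^ (r - 1) := by
      have : p ^ r = p ^ (r - 1) * p := by rw [← pow_succ]; congr 1; omega
      rw [this]; nth_rewrite 2 [hp]; ring
    have d2 : ((2 : ℝ) / 5) ^ r ≤ p ^ (r - 1) := by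
      calc ((2 : ℝ) / 5) ^ r ≤ ((2 : ℝ) / 5) ^ (r - 1) :=
            pow_le_pow_of_le_one (by norm_num) (by norm_num) (by omega)
        _ ≤ p ^ (r - 1) := pow_le_pow_left₀ (by norm_num) hp4 _
    have d3 := mul_le_mul_of_nonneg_left d2 hq.le
    linarith
  calc m < (p ^ r + x) * M := by linarith
    _ ≤ (p ^ (r - 1) - (C * z + K / n + 3 / ε * x + r * x)) * M :=
        mul_le_mul_of_nonneg_right s7 hM.le
    _ ≤ ((1 - C * z) * s ^ (r - 2) * Y) * M := mul_le_mul_of_nonneg_right s5 hM.le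
    _ = M * ((1 - C * z) * s ^ (r - 2) * Y) := by ring
    _ ≤ _ := s6

lemma realT {r : ℕ} (hr : 3 ≤ r) {C K n M p2 P q δ ε z t m : ℝ} (hC : 3 ≤ C) (hn : 0 < n)
    (hM : 0 < M) (hq : 0 < q) (hq1 : q ≤ 13 / 25) (hε : 0 < ε)
    (hδ : 0 < δ) (hK : 0 ≤ K)
    (hz : 1 ≤ z * (q * n)) (ht : (1 - δ) * q ≤ t) 
    (hP : P ≤ q * p2 + δ * q / n) (hbud : (1 - K / n) * M ≤ C * (1 / n - p2))
    (hMε : ε * C / n ≤ M) (hm : m < 3 / 2 * q ^ r * M)
    (hsmall : C * z + K / n + (3 / ε + r) * δ ≤ 1 / 5) :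
    m < C * (1 - C * z) * t ^ (r - 2) * (t ^ 2 * z - P) := by
  have hz0 : 0 < z := by
    have : 0 < q * n := by positivity
    by_contra hc
    push Not at hc
    have := mul_nonpos_of_nonpos_of_nonneg hc this.le
    linarith
  have hqz : 1 / n ≤ q * z := by
    rw [div_le_iff₀ hn]; linarith
  have hKn : 0 ≤ K / n := by positivity
  have hα : 0 ≤ C * z := by positivity
  have h3ε : 0 ≤ 3 / ε * δ := by positivity
  have hrδ : 0 ≤ (r : ℝ) * δ := by positivity
  have hsum : C * z + K / n + 3 / ε * δ + r * δ ≤ 1 / 5 := by linarith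
  have hr' : (3 : ℝ) ≤ r := by exact_mod_cast hr
  have hδ1 : δ ≤ 1 := by nlinarith
  have ht0 : 0 ≤ t := le_trans (mul_nonneg (by linarith) hq.le) ht
  have s1 : (1 - 2 * δ) * q / n ≤ t ^ 2 * z := by
    have a1 : ((1 - δ) * q) ^ 2 ≤ t ^ 2 := pow_le_pow_left₀ (mul_nonneg (by linarith) hq.le) ht 2
    have a2 : ((1 - 2 * δ) * q ^ 2) * z ≤ t ^ 2 * z := by
      apply mul_le_mul_of_nonneg_right _ hz0.le
      have : (1 - 2 * δ) * q ^ 2 ≤ ((1 - δ) * q) ^ 2 := by nlinarith [sq_nonneg (δ * q)]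
      linarith
    have hδ2 : 0 ≤ 1 - 2 * δ := by nlinarith
    have a3 : (1 - 2 * δ) * q * (1 / n) ≤ (1 - 2 * δ) * q * (q * z) :=
      mul_le_mul_of_nonneg_left hqz (mul_nonneg hδ2 hq.le)
    rw [div_eq_mul_one_div]
    calc (1 - 2 * δ) * q * (1 / n) ≤ _ := a3
      _ = ((1 - 2 * δ) * q ^ 2) * z := by ring
      _ ≤ _ := a2
  have s2 : q * (1 / n - p2) - 3 * δ * q / n ≤ t ^ 2 * z - P := by
    have : q * (1 / n - p2) - 3 * δ * q / n = (1 - 2 * δ) * q / n - (q * p2 + δ * q / n) := by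
      field_simp; ring
    rw [this]; linarith
  set Y := 1 - K / n - 3 / ε * δ with hY
  have s3 : q * M * Y ≤ C * (t ^ 2 * z - P) := by
    have b1 := mul_le_mul_of_nonneg_left s2 (show 0 ≤ C by linarith)
    have b2 := mul_le_mul_of_nonneg_left hbud hq.le
    have b3 : C * (3 * δ * q / n) ≤ q * M * (3 / ε * δ) := by
      have : C / n ≤ M / ε := by
        rw [le_div_iff₀ hε]
        calc C / n * ε = ε * C / n := by ring
          _ ≤ M := hMε
      have := mul_le_mul_of_nonneg_left this (show 0 ≤ 3 * δ * q by positivity)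
      calc C * (3 * δ * q / n) = 3 * δ * q * (C / n) := by ring
        _ ≤ 3 * δ * q * (M / ε) := this
        _ = _ := by ring
    have e1 : q * M * Y = q * ((1 - K / n) * M) - q * M * (3 / ε * δ) := by rw [hY]; ring
    have e2 : C * (q * (1 / n - p2) - 3 * δ * q / n)
        = q * (C * (1 / n - p2)) - C * (3 * δ * q / n) := by ring
    rw [e2] at b1
    rw [e1]
    linarith
  have hY0 : 0 ≤ Y := by rw [hY]; linarith
  have hY1 : Y ≤ 1 := by rw [hY]; linarith
  have s4 : q ^ (r - 2) * (1 - r * δ) ≤ t ^ (r - 2) := by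
    have c1 := pow_sub_ge hδ.le hδ1 le_rfl (r - 2)
    have c2 : ((1 - δ) * q) ^ (r - 2) ≤ t ^ (r - 2) :=
      pow_le_pow_left₀ (mul_nonneg (by linarith) hq.le) ht _
    have c3 : ((r - 2 : ℕ) : ℝ) ≤ r := by exact_mod_cast Nat.sub_le r 2
    have c4 := mul_le_mul_of_nonneg_right c3 hδ.le
    rw [one_pow] at c1
    have c5 : q ^ (r - 2) * (1 - r * δ) ≤ q ^ (r - 2) * (1 - δ) ^ (r - 2) :=
      mul_le_mul_of_nonneg_left (by linarith) (by positivity)
    rw [mul_pow] at c2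
    linarith
  have s5 : 4 / 5 * q ^ (r - 2) ≤ (1 - C * z) * t ^ (r - 2) * Y := by
    have d0 : 4 / 5 ≤ (1 - C * z) * (1 - r * δ) * Y := by
      have e1 : 1 - (C * z + r * δ) ≤ (1 - C * z) * (1 - r * δ) := by
        have : 0 ≤ (C * z) * (r * δ) := by positivity
        have e : (1 - C * z) * (1 - r * δ) = 1 - (C * z + r * δ) + (C * z) * (r * δ) := by ring
        rw [e]; linarith
      have e2 : 1 - (C * z + r * δ + K / n + 3 / ε * δ) ≤ (1 - (C * z + r * δ)) * Y := by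
        have : 0 ≤ (C * z + r * δ) * (K / n + 3 / ε * δ) := by positivity
        have e : (1 - (C * z + r * δ)) * Y = 1 - (C * z + r * δ + K / n + 3 / ε * δ)
            + (C * z + r * δ) * (K / n + 3 / ε * δ) := by rw [hY]; ring
        rw [e]; linarith
      have e3 := mul_le_mul_of_nonneg_right e1 hY0
      linarith
    have d1 : (1 - C * z) * (q ^ (r - 2) * (1 - r * δ)) * Y ≤ (1 - C * z) * t ^ (r - 2) * Y := by
      apply mul_le_mul_of_nonneg_right _ hY0
      exact mul_le_mul_of_nonneg_left s4 (by linarith)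
    have d2 : (4 / 5) * q ^ (r - 2) ≤ ((1 - C * z) * (1 - r * δ) * Y) * q ^ (r - 2) :=
      mul_le_mul_of_nonneg_right d0 (by positivity)
    calc 4 / 5 * q ^ (r - 2) ≤ _ := d2
      _ = (1 - C * z) * (q ^ (r - 2) * (1 - r * δ)) * Y := by ring
      _ ≤ _ := d1
  have s6 : q * M * ((1 - C * z) * t ^ (r - 2) * Y)
      ≤ C * (1 - C * z) * t ^ (r - 2) * (t ^ 2 * z - P) := by
    have h7 : 0 ≤ (1 - C * z) * t ^ (r - 2) := mul_nonneg (by linarith) (by positivity)
    have h8 := mul_le_mul_of_nonneg_left s3 h7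
    calc q * M * ((1 - C * z) * t ^ (r - 2) * Y) = (1 - C * z) * t ^ (r - 2) * (q * M * Y) := by
          ring
      _ ≤ _ := h8
      _ = _ := by ring
  have s7 : 3 / 2 * q ^ r * M ≤ q * M * (4 / 5 * q ^ (r - 2)) := by
    have : q ^ r = q ^ (r - 2) * q * q := by
      rw [← pow_succ, ← pow_succ]; congr 1; omega
    rw [this]
    have h : 0 ≤ q ^ (r - 2) * q * M := by positivity
    nlinarith
  calc m < 3 / 2 * q ^ r * M := hm
    _ ≤ q * M * (4 / 5 * q ^ (r - 2)) := s7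
    _ ≤ q * M * ((1 - C * z) * t ^ (r - 2) * Y) :=
        mul_le_mul_of_nonneg_left s5 (by positivity)
    _ ≤ _ := s6

end Pool.Agent.Lib.MP_6da058_co
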