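import Mathlib

set_option autoImplicit false

namespace Pool.Agent.Lib.MP_6da058_co

lemma one_add_pow_le {x : ℝ} (hx : 0 ≤ x) (k : ℕ) (h : 2 * (k : ℝ) * x ≤ 1) :
    (1 + x) ^ k ≤ 1 + 2 * k * x := by
  induction k with
  | zero => simp
  | succ k ih =>
    push_cast at h
    have h' : 2 * (k : ℝ) * x ≤ 1 := by nlinarith
    have i1 := ih h'
    have h1 : 0 ≤ 1 + x := by linarith
    have h2 := mul_le_mul_of_nonneg_right i1 h1
    have h3 : 2 * (k : ℝ) * x * x ≤ 1 * x := mul_le_mul_of_nonneg_right h' hx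
    rw [pow_succ]
    push_cast
    have e : (1 + 2 * (k : ℝ) * x) * (1 + x) = 1 + 2 * k * x + x + 2 * k * x * x := by ring
    rw [e] at h2
    linarith

/-- conversion of the linearised condition into the criterion -/
lemma goodReal {r : ℕ} {C z N s P p' m m₀ : ℝ} (hC : 3 ≤ C) (hz : 0 < z)
    (hCz : C * z < 1) (hN : 0 < N) (hp' : 0 < p') (hs : p' ≤ s) (hm : m ≤ m₀) (hm₀ : 0 ≤ m₀)
    (h : 1 / z + N ^ 2 * (1 / (1 - C * z) / (C * p' ^ (r - 2)) * m₀) < 2 * N * s - N ^ 2 * P) :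
    m < C * (1 - C * z) * s ^ (r - 2) * (s ^ 2 * z - P) := by
  have h1 : 0 < 1 - C * z := by linarith
  have h2 : 2 * N * s - 1 / z ≤ N ^ 2 * (s ^ 2 * z) := by
    have : 0 ≤ (N * s * z - 1) ^ 2 / z := by positivity
    have e : (N * s * z - 1) ^ 2 / z = N ^ 2 * (s ^ 2 * z) - (2 * N * s - 1 / z) := by
      field_simp
      ring
    rw [e] at this
    linarith
  have h3 : N ^ 2 * (1 / (1 - C * z) / (C * p' ^ (r - 2)) * m₀) < N ^ 2 * (s ^ 2 * z - P) := by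
    have : N ^ 2 * (s ^ 2 * z - P) = N ^ 2 * (s ^ 2 * z) - N ^ 2 * P := by ring
    rw [this]; linarith
  have h4 : 1 / (1 - C * z) / (C * p' ^ (r - 2)) * m₀ < s ^ 2 * z - P :=
    lt_of_mul_lt_mul_left h3 (by positivity)
  have h5 : 0 < s ^ 2 * z - P := by
    refine lt_of_le_of_lt ?_ h4
    positivity
  have h6 : m₀ < C * (1 - C * z) * p' ^ (r - 2) * (s ^ 2 * z - P) := by
    have hpos : 0 < C * (1 - C * z) * p' ^ (r - 2) := by positivity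
    have := mul_lt_mul_of_pos_left h4 hpos
    have e : C * (1 - C * z) * p' ^ (r - 2) * (1 / (1 - C * z) / (C * p' ^ (r - 2)) * m₀) = m₀ := by
      field_simp
    rw [e] at this
    exact this
  have h7 : C * (1 - C * z) * p' ^ (r - 2) * (s ^ 2 * z - P)
      ≤ C * (1 - C * z) * s ^ (r - 2) * (s ^ 2 * z - P) := by
    apply mul_le_mul_of_nonneg_right _ h5.le
    apply mul_le_mul_of_nonneg_left _ (by positivity)
    exact pow_le_pow_left₀ hp'.le hs _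
  linarith

lemma ratio_bound {r : ℕ} (hr : 3 ≤ r) {P p' κ X : ℝ} (hP : 0 ≤ P) (hp' : 0 < p')
    (hPp : P ≤ p' * κ) (hκ : κ ^ (r - 2) ≤ X) : P ^ r / p' ^ (r - 2) ≤ P ^ 2 * X := by
  rw [div_le_iff₀ (by positivity)]
  have e : P ^ r = P ^ 2 * P ^ (r - 2) := by rw [← pow_add]; congr 1; omega
  rw [e]
  have h1 : P ^ (r - 2) ≤ (p' * κ) ^ (r - 2) := pow_le_pow_left₀ hP hPp _
  rw [mul_pow] at h1
  have h2 : p' ^ (r - 2) * κ ^ (r - 2) ≤ p' ^ (r - 2) * X :=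
    mul_le_mul_of_nonneg_left hκ (by positivity)
  calc P ^ 2 * P ^ (r - 2) ≤ P ^ 2 * (p' ^ (r - 2) * X) :=
        mul_le_mul_of_nonneg_left (h1.trans h2) (by positivity)
    _ = _ := by ring

lemma niA {r : ℕ} (hr : 3 ≤ r) {q u ca P₁ : ℝ} (hq0 : 0 < q) (hq : q ≤ 13 / 25) (hu0 : 0 ≤ u)
    (hu : 200 * r * u ≤ q) (_hca0 : 0 ≤ ca) (hca : ca ≤ 1 + u) (hP0 : 0 ≤ P₁)
    (hP₁ : P₁ ≤ 1 - q + 5 / 2 * u) :
    ca * (P₁ ^ r / (1 - q - 3 * u) ^ (r - 2)) ≤ (1 - q) ^ 2 + 40 * r * u := by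
  have hr' : (3 : ℝ) ≤ r := by exact_mod_cast hr
  have hu1 : u ≤ 1 / 1000 := by nlinarith
  have hru : 200 * (r * u) ≤ 13 / 25 := by linarith
  have hru0 : 0 ≤ (r : ℝ) * u := by positivity
  have h3u : 3 * u ≤ r * u := mul_le_mul_of_nonneg_right hr' hu0
  have hp' : 0 < 1 - q - 3 * u := by linarith
  have h1 : P₁ ≤ (1 - q - 3 * u) * (1 + 12 * u) := by
    have : 5.5 * u ≤ 12 * u * (1 - q - 3 * u) := by
      have : 5.5 ≤ 12 * (1 - q - 3 * u) := by norm_num; linarith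
      nlinarith
    nlinarith
  have h2 : (1 + 12 * u) ^ (r - 2) ≤ 1 + 24 * (r * u) := by
    have hk : ((r - 2 : ℕ) : ℝ) ≤ r := by exact_mod_cast Nat.sub_le r 2
    have hk2 : ((r - 2 : ℕ) : ℝ) * u ≤ r * u := mul_le_mul_of_nonneg_right hk hu0
    have := one_add_pow_le (x := 12 * u) (by linarith) (r - 2) (by nlinarith)
    nlinarith
  have h3 := ratio_bound hr hP0 hp' h1 h2
  have h4 : P₁ ^ 2 ≤ (1 - q) ^ 2 + 6 * u := by
    have : P₁ ^ 2 ≤ (1 - q + 5 / 2 * u) ^ 2 := pow_le_pow_left₀ hP0 hP₁ 2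
    nlinarith
  have hX : 0 ≤ 1 + 24 * ((r : ℝ) * u) := by positivity
  have h5 : ca * (P₁ ^ r / (1 - q - 3 * u) ^ (r - 2))
      ≤ (1 + u) * (((1 - q) ^ 2 + 6 * u) * (1 + 24 * (r * u))) := by
    apply mul_le_mul hca _ (by positivity) (by linarith)
    exact h3.trans (mul_le_mul_of_nonneg_right h4 hX)
  refine h5.trans ?_
  have h6 : (1 + u) * (1 + 24 * (r * u)) ≤ 1 + 30 * (r * u) := by
    have : u * (24 * (r * u)) ≤ 1 * (r * u) := by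
      have : 24 * u ≤ 1 := by linarith
      nlinarith
    nlinarith
  have h7 : (1 - q) ^ 2 + 6 * u ≤ 101 / 100 := by
    have : (1 - q) ^ 2 ≤ 1 := by nlinarith
    linarith
  have h8 : 0 ≤ (1 - q) ^ 2 + 6 * u := by positivity
  calc (1 + u) * (((1 - q) ^ 2 + 6 * u) * (1 + 24 * (r * u)))
      = ((1 - q) ^ 2 + 6 * u) * ((1 + u) * (1 + 24 * (r * u))) := by ring
    _ ≤ ((1 - q) ^ 2 + 6 * u) * (1 + 30 * (r * u)) := mul_le_mul_of_nonneg_left h6 h8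
    _ = ((1 - q) ^ 2 + 6 * u) + ((1 - q) ^ 2 + 6 * u) * (30 * (r * u)) := by ring
    _ ≤ ((1 - q) ^ 2 + 6 * u) + 101 / 100 * (30 * (r * u)) := by
        have := mul_le_mul_of_nonneg_right h7 (show 0 ≤ 30 * ((r : ℝ) * u) by positivity)
        linarith
    _ ≤ _ := by linarith

lemma niB1 {r : ℕ} (hr : 3 ≤ r) {q η cb P₂ : ℝ} (hq0 : 0 < q) (hη0 : 0 ≤ η)
    (hη : 200 * r * η ≤ 1) (_hcb0 : 0 ≤ cb) (hcb : cb ≤ 1 + η) (hP0 : 0 ≤ P₂)
    (hP₂ : P₂ ≤ (1 + 3 / 2 * η) * q) :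
    cb * (P₂ ^ r / ((1 - 2 * η) * q) ^ (r - 2)) ≤ (1 + 20 * r * η) * q ^ 2 := by
  have hr' : (3 : ℝ) ≤ r := by exact_mod_cast hr
  have hη1 : η ≤ 1 / 600 := by nlinarith
  have hrη : 200 * (r * η) ≤ 1 := by linarith
  have hrη0 : 0 ≤ (r : ℝ) * η := by positivity
  have h3η : 3 * η ≤ r * η := mul_le_mul_of_nonneg_right hr' hη0
  have hp' : 0 < (1 - 2 * η) * q := mul_pos (by linarith) hq0
  have h1 : P₂ ≤ ((1 - 2 * η) * q) * (1 + 4 * η) := by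
    have : 1 + 3 / 2 * η ≤ (1 - 2 * η) * (1 + 4 * η) := by nlinarith
    have := mul_le_mul_of_nonneg_right this hq0.le
    linarith
  have h2 : (1 + 4 * η) ^ (r - 2) ≤ 1 + 8 * (r * η) := by
    have hk : ((r - 2 : ℕ) : ℝ) ≤ r := by exact_mod_cast Nat.sub_le r 2
    have hk2 : ((r - 2 : ℕ) : ℝ) * η ≤ r * η := mul_le_mul_of_nonneg_right hk hη0
    have := one_add_pow_le (x := 4 * η) (by linarith) (r - 2) (by nlinarith)
    nlinarith
  have h3 := ratio_bound hr hP0 hp' h1 h2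
  have h4 : P₂ ^ 2 ≤ (1 + 4 * η) * q ^ 2 := by
    have a : P₂ ^ 2 ≤ ((1 + 3 / 2 * η) * q) ^ 2 := pow_le_pow_left₀ hP0 hP₂ 2
    have b : (1 + 3 / 2 * η) ^ 2 ≤ 1 + 4 * η := by nlinarith
    have := mul_le_mul_of_nonneg_right b (sq_nonneg q)
    rw [mul_pow] at a
    linarith
  have hX : 0 ≤ 1 + 8 * ((r : ℝ) * η) := by positivity
  have h5 : cb * (P₂ ^ r / ((1 - 2 * η) * q) ^ (r - 2))
      ≤ (1 + η) * (((1 + 4 * η) * q ^ 2) * (1 + 8 * (r * η))) := by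
    apply mul_le_mul hcb _ (by positivity) (by linarith)
    exact h3.trans (mul_le_mul_of_nonneg_right h4 hX)
  refine h5.trans ?_
  have h6 : (1 + η) * (1 + 4 * η) ≤ 1 + 6 * η := by nlinarith
  have h7 : (1 + 6 * η) * (1 + 8 * (r * η)) ≤ 1 + 20 * r * η := by
    have : 6 * η * (8 * (r * η)) ≤ 1 * (r * η) := by
      have : 48 * η ≤ 1 := by linarith
      nlinarith
    nlinarith
  have h8 : (1 + η) * (1 + 4 * η) * (1 + 8 * (r * η)) ≤ 1 + 20 * r * η :=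
    (mul_le_mul_of_nonneg_right h6 hX).trans h7
  calc (1 + η) * (((1 + 4 * η) * q ^ 2) * (1 + 8 * (r * η)))
      = ((1 + η) * (1 + 4 * η) * (1 + 8 * (r * η))) * q ^ 2 := by ring
    _ ≤ _ := mul_le_mul_of_nonneg_right h8 (sq_nonneg q)

lemma niB2 {r : ℕ} (hr : 3 ≤ r) {q cb P₂ : ℝ} (hq0 : 0 < q)
    (_hcb0 : 0 ≤ cb) (hcb : cb ≤ 2) (hP0 : 0 ≤ P₂)
    (hP₂ : P₂ ≤ 4 / 3 * q) :
    cb * (P₂ ^ r / (q / 3) ^ (r - 2)) ≤ q ^ 2 * 4 ^ r / 4 := by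
  have h1 : P₂ ≤ (q / 3) * 4 := by linarith
  have h3 := ratio_bound hr hP0 (by positivity) h1 (le_refl ((4 : ℝ) ^ (r - 2)))
  have h4 : P₂ ^ 2 ≤ 2 * q ^ 2 := by
    have a : P₂ ^ 2 ≤ (4 / 3 * q) ^ 2 := pow_le_pow_left₀ hP0 hP₂ 2
    nlinarith [sq_nonneg q]
  have h5 : cb * (P₂ ^ r / (q / 3) ^ (r - 2)) ≤ 2 * ((2 * q ^ 2) * 4 ^ (r - 2)) := by
    apply mul_le_mul hcb _ (by positivity) (by linarith)
    exact h3.trans (mul_le_mul_of_nonneg_right h4 (by positivity))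
  refine h5.trans (le_of_eq ?_)
  have : (4 : ℝ) ^ r = 4 ^ (r - 2) * 4 ^ 2 := by rw [← pow_add]; congr 1; omega
  rw [this]; ring

end Pool.Agent.Lib.MP_6da058_co
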