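import Pool.Agent.Lib.MP_6da058_co.Expect

set_option autoImplicit false
set_option linter.unusedSectionVars false

namespace Pool.Agent.Lib.MP_6da058_co

open Finset

variable {ι : Type*} [DecidableEq ι]

namespace Core

variable {r : ℕ} {V : Finset ι} {w : ι → ℝ} {Q : Finset (Finset ι)} {Λ : ℝ}

lemma regimeA_exists (c : Core r V w Q Λ) (hr : 3 ≤ r) {q W δ N : ℝ} (hq0 : 0 < q) (hq1 : q < 1)
    (hN : 0 < N) (hδ : 0 < δ) (hW0 : 0 ≤ W)
    (hW : ∀ i ∈ V, w i ≤ W) (hMi : ∀ i ∈ V, Mi r w Q i ≤ W) (hM : 0 < MM r w Q)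
    (h1 : 10 * ∑ i ∈ V, w i ^ 2 ≤ δ ^ 2 * q)
    (h2 : 10 * N ^ 2 * W ^ 2 * ∑ i ∈ V, w i ^ 2 ≤ δ ^ 2 * q)
    (h3 : 10 * (r : ℝ) ^ 3 * W ^ 2 ≤ δ ^ 2 * q * MM r w Q) :
    ∃ T ⊆ V, |∑ i ∈ T, w i - q| < δ * q ∧ |∑ i ∈ T, w i ^ 2 - q * ∑ i ∈ V, w i ^ 2| < δ * q / N ∧
      ms r w Q (V \ T) < (1 - q) ^ r * MM r w Q + δ * q * MM r w Q ∧
      ms r w Q T < 3 / 2 * q ^ r * MM r w Q := by
  set M := MM r w Q with hMdef
  set p2 := ∑ i ∈ V, w i ^ 2 with hp2
  have hp20 : 0 ≤ p2 := p2_nonneg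
  set cf : Finset ι → ℝ := fun e => (r.factorial : ℝ) * ∏ i ∈ e, w i with hcf
  have hcf0 : ∀ e ∈ Q, 0 ≤ cf e := by
    intro e he
    apply mul_nonneg (by positivity)
    exact Finset.prod_nonneg fun i hi => c.nonneg i ((c.fam e he).1 hi)
  have hms : ∀ S, ms r w Q S = ∑ e ∈ Q.filter (fun e => e ⊆ S), cf e := by
    intro S; unfold ms; rw [Finset.mul_sum]
  have hMs : M = ∑ e ∈ Q, cf e := by
    rw [hMdef]; unfold MM; rw [Finset.mul_sum]
  -- the four expectations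
  have E1 : EX V q (fun T => (∑ i ∈ T, w i - q) ^ 2) ≤ q * p2 := by
    have := EX_var_lin V q w
    rw [c.sum_one, mul_one] at this
    exact this
  have E2 : EX V q (fun T => (∑ i ∈ T, w i ^ 2 - q * p2) ^ 2) ≤ q * (W ^ 2 * p2) := by
    refine (EX_var_lin V q (fun i => w i ^ 2)).trans ?_
    apply mul_le_mul_of_nonneg_left _ hq0.le
    rw [hp2, Finset.mul_sum]
    apply Finset.sum_le_sum
    intro i hi
    have a := hW i hi
    have b := c.nonneg i hi
    have : w i ^ 2 ≤ W ^ 2 := pow_le_pow_left₀ b a 2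
    nlinarith [sq_nonneg (w i)]
  have E3 : EX V q (fun T => (ms r w Q (V \ T) - (1 - q) ^ r * M) ^ 2)
      ≤ q * ((r : ℝ) ^ 3 * W ^ 2 * M) := by
    have := EX_var_fam hq0.le hq1.le c.fam hcf0
    simp only [← hms, ← hMs] at this
    refine this.trans ?_
    have a : ∑ i ∈ V, (∑ e ∈ Q.filter (fun e => i ∈ e), cf e) ^ 2 ≤ (r : ℝ) ^ 2 * W ^ 2 * M := by
      rw [hMdef, ← c.sum_Mi (by omega), Finset.mul_sum]
      apply Finset.sum_le_sum
      intro i hi
      have e1 : ∑ e ∈ Q.filter (fun e => i ∈ e), cf e = r * (w i * Mi r w Q i) := by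
        unfold Mi dg
        rw [hcf]
        rw [← Finset.mul_sum]
        have e2 : ∑ e ∈ Q.filter (fun e => i ∈ e), ∏ j ∈ e, w j
            = w i * ∑ e ∈ Q.filter (fun e => i ∈ e), ∏ j ∈ e.erase i, w j := by
          rw [Finset.mul_sum]
          apply Finset.sum_congr rfl
          intro e he
          exact (Finset.mul_prod_erase e w (Finset.mem_filter.1 he).2).symm
        rw [e2]
        have : r.factorial = r * (r - 1).factorial := (Nat.mul_factorial_pred (by omega)).symm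
        rw [this]; push_cast; ring
      rw [e1]
      have a1 := hW i hi
      have a2 := hMi i hi
      have a3 := c.nonneg i hi
      have a4 := c.Mi_nonneg i
      have a5 : w i * Mi r w Q i ≤ W ^ 2 := by
        rw [sq]; exact mul_le_mul a1 a2 a4 hW0
      have a6 : 0 ≤ w i * Mi r w Q i := mul_nonneg a3 a4
      have a7 : (w i * Mi r w Q i) ^ 2 ≤ W ^ 2 * (w i * Mi r w Q i) := by
        rw [sq (w i * Mi r w Q i)]
        exact mul_le_mul_of_nonneg_right a5 a6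
      calc (↑r * (w i * Mi r w Q i)) ^ 2 = (r : ℝ) ^ 2 * (w i * Mi r w Q i) ^ 2 := by ring
        _ ≤ (r : ℝ) ^ 2 * (W ^ 2 * (w i * Mi r w Q i)) :=
            mul_le_mul_of_nonneg_left a7 (by positivity)
        _ = _ := by ring
    calc (r : ℝ) * q * ∑ i ∈ V, (∑ e ∈ Q.filter (fun e => i ∈ e), cf e) ^ 2
        ≤ (r : ℝ) * q * ((r : ℝ) ^ 2 * W ^ 2 * M) := mul_le_mul_of_nonneg_left a (by positivity)
      _ = _ := by ring
  have E4 : EX V q (fun T => ms r w Q T) = q ^ r * M := by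
    have : ∀ T ⊆ V, ms r w Q T = ∑ e ∈ Q, cf e * (if e ⊆ T then 1 else 0) := by
      intro T _
      rw [hms]
      simp only [mul_ite, mul_one, mul_zero]
      rw [← Finset.sum_filter]
    rw [EX_congr this, EX_sum]
    have e2 : ∀ e ∈ Q, EX V q (fun T => cf e * (if e ⊆ T then 1 else 0)) = cf e * q ^ r := by
      intro e he
      rw [EX_mul, EX_sub V q (c.fam e he).1, (c.fam e he).2]
    rw [Finset.sum_congr rfl e2, ← Finset.sum_mul, ← hMs, mul_comm]
  -- combine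
  have hqr : 0 < q ^ r := by positivity
  have key : EX V q (fun T => 1 / (δ * q) ^ 2 * (∑ i ∈ T, w i - q) ^ 2
      + 1 / (δ * q / N) ^ 2 * (∑ i ∈ T, w i ^ 2 - q * p2) ^ 2
      + 1 / (δ * q * M) ^ 2 * (ms r w Q (V \ T) - (1 - q) ^ r * M) ^ 2
      + 2 / (3 * q ^ r * M) * ms r w Q T) < 1 := by
    rw [EX_add, EX_add, EX_add, EX_mul, EX_mul, EX_mul, EX_mul, E4]
    have f1 : 1 / (δ * q) ^ 2 * EX V q (fun T => (∑ i ∈ T, w i - q) ^ 2) ≤ 1 / 10 := by
      have : 1 / (δ * q) ^ 2 * EX V q (fun T => (∑ i ∈ T, w i - q) ^ 2)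
          ≤ 1 / (δ * q) ^ 2 * (q * p2) := mul_le_mul_of_nonneg_left E1 (by positivity)
      refine this.trans ?_
      rw [div_mul_eq_mul_div, one_mul, div_le_iff₀ (by positivity)]
      nlinarith [mul_le_mul_of_nonneg_left h1 hq0.le]
    have f2 : 1 / (δ * q / N) ^ 2 * EX V q (fun T => (∑ i ∈ T, w i ^ 2 - q * p2) ^ 2) ≤ 1 / 10 := by
      have : 1 / (δ * q / N) ^ 2 * EX V q (fun T => (∑ i ∈ T, w i ^ 2 - q * p2) ^ 2)
          ≤ 1 / (δ * q / N) ^ 2 * (q * (W ^ 2 * p2)) := mul_le_mul_of_nonneg_left E2 (by positivity)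
      refine this.trans ?_
      rw [div_mul_eq_mul_div, one_mul, div_le_iff₀ (by positivity), div_pow, ← mul_div_assoc,
        le_div_iff₀ (by positivity)]
      nlinarith [mul_le_mul_of_nonneg_left h2 hq0.le]
    have f3 : 1 / (δ * q * M) ^ 2 * EX V q (fun T => (ms r w Q (V \ T) - (1 - q) ^ r * M) ^ 2)
        ≤ 1 / 10 := by
      have : 1 / (δ * q * M) ^ 2 * EX V q (fun T => (ms r w Q (V \ T) - (1 - q) ^ r * M) ^ 2)
          ≤ 1 / (δ * q * M) ^ 2 * (q * ((r : ℝ) ^ 3 * W ^ 2 * M)) :=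
        mul_le_mul_of_nonneg_left E3 (by positivity)
      refine this.trans ?_
      rw [div_mul_eq_mul_div, one_mul, div_le_iff₀ (by positivity)]
      have := mul_le_mul_of_nonneg_left h3 (show 0 ≤ q * M by positivity)
      nlinarith
    have f4 : 2 / (3 * q ^ r * M) * (q ^ r * M) = 2 / 3 := by
      field_simp
    linarith
  obtain ⟨T, hT, hlt⟩ := EX_exists hq0.le hq1.le key
  have g1 : 0 ≤ 1 / (δ * q) ^ 2 * (∑ i ∈ T, w i - q) ^ 2 := by positivity
  have g2 : 0 ≤ 1 / (δ * q / N) ^ 2 * (∑ i ∈ T, w i ^ 2 - q * p2) ^ 2 := by positivity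
  have g3 : 0 ≤ 1 / (δ * q * M) ^ 2 * (ms r w Q (V \ T) - (1 - q) ^ r * M) ^ 2 := by positivity
  have g4 : 0 ≤ 2 / (3 * q ^ r * M) * ms r w Q T := by
    have := ms_nonneg c.nonneg c.fam T
    positivity
  refine ⟨T, hT, ?_, ?_, ?_, ?_⟩
  · have : 1 / (δ * q) ^ 2 * (∑ i ∈ T, w i - q) ^ 2 < 1 := by linarith
    rw [div_mul_eq_mul_div, one_mul, div_lt_one (by positivity)] at this
    exact abs_lt_of_sq_lt_sq this (by positivity)
  · have : 1 / (δ * q / N) ^ 2 * (∑ i ∈ T, w i ^ 2 - q * p2) ^ 2 < 1 := by linarith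
    rw [div_mul_eq_mul_div, one_mul, div_lt_one (by positivity)] at this
    exact abs_lt_of_sq_lt_sq this (by positivity)
  · have : 1 / (δ * q * M) ^ 2 * (ms r w Q (V \ T) - (1 - q) ^ r * M) ^ 2 < 1 := by linarith
    rw [div_mul_eq_mul_div, one_mul, div_lt_one (by positivity)] at this
    have := abs_lt_of_sq_lt_sq this (by positivity)
    have := (abs_lt.1 this).2
    linarith
  · have : 2 / (3 * q ^ r * M) * ms r w Q T < 1 := by linarith
    rw [div_mul_eq_mul_div, div_lt_one (by positivity)] at this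
    linarith

end Core

end Pool.Agent.Lib.MP_6da058_co
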