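import Pool.Agent.Lib.MP_6da058_co.RegA
import Pool.Agent.Lib.MP_6da058_co.RealA

set_option autoImplicit false
set_option linter.unusedSectionVars false
set_option maxHeartbeats 4000000

namespace Pool.Agent.Lib.MP_6da058_co

open Finset

variable {ι : Type*} [DecidableEq ι]

/-- `S` beats the threshold `U r z`. -/
def Good (r : ℕ) (w : ι → ℝ) (Q : Finset (Finset ι)) (S : Finset ι) (z : ℝ) : Prop :=
  0 < ∑ i ∈ S, w i ∧ U r z * (∑ i ∈ S, w i) ^ r < G w S r - ms r w Q S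

lemma sdiff_sum {V T : Finset ι} (hT : T ⊆ V) (f : ι → ℝ) :
    ∑ i ∈ V \ T, f i = ∑ i ∈ V, f i - ∑ i ∈ T, f i := by
  have := Finset.sum_sdiff (f := f) hT
  linarith

namespace Core

variable {r : ℕ} {V : Finset ι} {w : ι → ℝ} {Q : Finset (Finset ι)} {Λ : ℝ}

lemma regimeA (c : Core r V w Q Λ) (hr : 3 ≤ r) {a b N : ℕ} (hab : N + 1 = a + b) (hba : b ≤ a)
    (hN : 2 * r ^ 3 * CC r ≤ N) (hΛ : U r (1 / (N : ℝ)) < Λ) {ε δ : ℝ} (hε : 0 < ε)
    (hδ : 0 < δ) (hMε : ε * CC r / N < MM r w Q)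
    (hb1 : 10 * CC r ^ 2 ≤ δ ^ 2 * b) (hb2 : 10 * (r : ℝ) ^ 3 * CC r ≤ δ ^ 2 * ε * b)
    (hδs : (3 / ε + r + 1) * δ ≤ (2 / 5) ^ r / 2)
    (hb3 : 2 * (3 * CC r + (r : ℝ) ^ 3 * CC r) ≤ (2 / 5) ^ r * b) :
    ∃ T ⊆ V, Good r w Q (V \ T) (1 / ((a : ℝ) - 1)) ∧ Good r w Q T (1 / ((b : ℝ) - 1)) := by
  obtain ⟨h0, hN0, h1, h2, h3⟩ := one_sub_lt hr hN hΛ
  have hC := CC_pos hr
  have hr' : (3 : ℝ) ≤ r := by exact_mod_cast hr
  have hbud := c.budget hr hN hΛ
  set M := MM r w Q with hM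
  set p2 := ∑ i ∈ V, w i ^ 2 with hp2
  have hp20 : 0 ≤ p2 := p2_nonneg
  have habR : (N : ℝ) + 1 = a + b := by exact_mod_cast hab
  have hbaR : (b : ℝ) ≤ a := by exact_mod_cast hba
  have h25 : ((2 : ℝ) / 5) ^ r ≤ 8 / 125 := by
    calc ((2 : ℝ) / 5) ^ r ≤ ((2 : ℝ) / 5) ^ 3 :=
          pow_le_pow_of_le_one (by norm_num) (by norm_num) hr
      _ = 8 / 125 := by norm_num
  have h25p : (0 : ℝ) < (2 / 5) ^ r := by positivity
  have hr3 : (27 : ℝ) ≤ (r : ℝ) ^ 3 := by
    have := pow_le_pow_left₀ (by norm_num : (0 : ℝ) ≤ 3) hr' 3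
    linarith
  have hK : 81 ≤ (r : ℝ) ^ 3 * CC r := by nlinarith only [hC, hr3]
  have hbb : (0 : ℝ) ≤ b := by positivity
  have hb180 : (180 : ℝ) ≤ b := by
    have : ((2 : ℝ) / 5) ^ r * b ≤ 1 * b := mul_le_mul_of_nonneg_right (by linarith) hbb
    linarith only [hC, hK, hb3, this]
  have hbN : (b : ℝ) ≤ N := by linarith only [h25, h25p, habR, hb180, hbaR]
  set q : ℝ := b / N with hq
  have hq0 : 0 < q := by positivity
  have hqn : q * N = b := by rw [hq]; field_simp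
  have hq1 : q ≤ 13 / 25 := by
    rw [hq, div_le_iff₀ hN0]; linarith only [h25, h25p, habR, hb180, hbaR]
  have hp4 : 2 / 5 ≤ 1 - q := by linarith
  have hpn : (1 - q) * N = a - 1 := by
    have : (1 - q) * N = N - q * N := by ring
    rw [this, hqn]; linarith only [habR]
  have hM0 : 0 < M := by
    have : 0 < ε * CC r / N := by positivity
    linarith only [hMε, this]
  have hp2N : p2 ≤ 1 / N := by
    have hnn : 0 ≤ (1 - (r : ℝ) ^ 3 * CC r / N) * M := mul_nonneg (by linarith) hM0.le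
    have : 0 < CC r * (1 / N - p2) := by linarith only [hbud, hnn]
    have := (pos_iff_pos_of_mul_pos this).1 (by linarith only [h25, h25p, hC])
    linarith
  have hWi : ∀ i ∈ V, w i ≤ CC r / N := fun i hi => by linarith [c.w_le hr hi]
  have hMi : ∀ i ∈ V, Mi r w Q i ≤ CC r / N := fun i hi => by linarith only [c, h0, hi, c.Mi_le hi]
  obtain ⟨T, hT, t1, t2, t3, t4⟩ := c.regimeA_exists hr (q := q) (W := CC r / N) (δ := δ) (N := N)
    hq0 (by linarith only [h25, h25p, hq1]) hN0 hδ (by positivity) hWi hMi hM0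
    (by
      have : δ ^ 2 * q = δ ^ 2 * b / N := by rw [hq]; ring
      rw [this]
      calc 10 * p2 ≤ 10 * (1 / N) := by linarith
        _ ≤ (δ ^ 2 * b) / N := by
          rw [mul_one_div]
          apply div_le_div_of_nonneg_right _ hN0.le
          nlinarith only [h25, hC, hK, hb1, hb3, hδ])
    (by
      have : δ ^ 2 * q = δ ^ 2 * b / N := by rw [hq]; ring
      rw [this]
      have e : 10 * (N : ℝ) ^ 2 * (CC r / N) ^ 2 * p2 = 10 * CC r ^ 2 * p2 := by
        field_simp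
      rw [e]
      calc 10 * CC r ^ 2 * p2 ≤ 10 * CC r ^ 2 * (1 / N) :=
            mul_le_mul_of_nonneg_left hp2N (by positivity)
        _ ≤ (δ ^ 2 * b) / N := by
          rw [mul_one_div]
          exact div_le_div_of_nonneg_right hb1 hN0.le)
    (by
      rw [← hM]
      have : δ ^ 2 * q * (ε * CC r / N) ≤ δ ^ 2 * q * M :=
        mul_le_mul_of_nonneg_left hMε.le (by positivity)
      refine le_trans ?_ this
      have e1 : 10 * (r : ℝ) ^ 3 * (CC r / N) ^ 2 = (10 * (r : ℝ) ^ 3 * CC r) * (CC r / N ^ 2) := by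
        field_simp
      have e2 : δ ^ 2 * q * (ε * CC r / N) = (δ ^ 2 * ε * b) * (CC r / N ^ 2) := by
        rw [hq]; field_simp
      rw [e1, e2]
      exact mul_le_mul_of_nonneg_right hb2 (by positivity))
  rw [← hM] at t3 t4
  have ws : ∑ i ∈ V \ T, w i = 1 - ∑ i ∈ T, w i := by rw [sdiff_sum hT, c.sum_one]
  have ps : ∑ i ∈ V \ T, w i ^ 2 = p2 - ∑ i ∈ T, w i ^ 2 := by rw [sdiff_sum hT]
  have t1' := abs_lt.1 t1
  have t2' := abs_lt.1 t2
  have hδ1 : δ ≤ 1 / 10 := by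
    have : 3 * δ ≤ (3 / ε + r + 1) * δ := by
      apply mul_le_mul_of_nonneg_right _ hδ.le
      have : 0 ≤ 3 / ε := by positivity
      linarith only [h25, h25p, hr', this]
    linarith only [h25, hδ, hδs, this]
  have hwT0 : 0 ≤ ∑ i ∈ T, w i := Finset.sum_nonneg fun i hi => c.nonneg i (hT hi)
  refine ⟨T, hT, ⟨?_, ?_⟩, ⟨?_, ?_⟩⟩
  · rw [ws]
    have : δ * q ≤ 1 / 10 * (13 / 25) := mul_le_mul hδ1 hq1 hq0.le (by norm_num)
    linarith only [hq1, t1', this]
  · have hs0 : 0 < ∑ i ∈ V \ T, w i := by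
      rw [ws]
      have : δ * q ≤ 1 / 10 * (13 / 25) := mul_le_mul hδ1 hq1 hq0.le (by norm_num)
      linarith only [hq1, t1', this]
    have ha1 : (0 : ℝ) < (a : ℝ) - 1 := by linarith only [h25, h25p, hb180, hbaR]
    have hz : 1 / ((a : ℝ) - 1) * ((1 - q) * N) = 1 := by
      rw [hpn]; field_simp
    have hCz : CC r * (1 / ((a : ℝ) - 1)) ≤ 3 * CC r / N := by
      rw [mul_one_div, div_le_div_iff₀ ha1 hN0]
      have h5 : (N : ℝ) ≤ 3 * ((a : ℝ) - 1) := by linarith only [h25, h25p, habR, hb180, hbaR]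
      have h6 := mul_le_mul_of_nonneg_left h5 (show 0 ≤ CC r by linarith only [h25, h25p, hC])
      calc CC r * N ≤ _ := h6
        _ = _ := by ring
    have hbs : (3 * CC r + (r : ℝ) ^ 3 * CC r) / N ≤ q * (2 / 5) ^ r / 2 := by
      have e3 : q * (2 / 5) ^ r / 2 = ((2 / 5) ^ r * b / 2) / N := by rw [hq]; ring
      rw [e3]
      apply div_le_div_of_nonneg_right _ hN0.le
      linarith only [hb3]
    have hsmall : CC r * (1 / ((a : ℝ) - 1)) + (r : ℝ) ^ 3 * CC r / N
        + (3 / ε + r + 1) * (δ * q) ≤ q * (2 / 5) ^ r := by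
      have e1 : (3 / ε + r + 1) * (δ * q) ≤ q * (2 / 5) ^ r / 2 := by
        have := mul_le_mul_of_nonneg_left hδs hq0.le
        calc (3 / ε + r + 1) * (δ * q) = q * ((3 / ε + r + 1) * δ) := by ring
          _ ≤ _ := this
          _ = _ := by ring
      have e2 : (3 * CC r + (r : ℝ) ^ 3 * CC r) / N = 3 * CC r / N + (r : ℝ) ^ 3 * CC r / N := by
        ring
      rw [e2] at hbs
      linarith only [e1, hCz, hbs]
    have hCz1 : CC r * (1 / ((a : ℝ) - 1)) ≤ 1 := by
      have e2 : (3 * CC r + (r : ℝ) ^ 3 * CC r) / N = 3 * CC r / N + (r : ℝ) ^ 3 * CC r / N := by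
        ring
      have : 0 ≤ (r : ℝ) ^ 3 * CC r / N := by positivity
      have : q * (2 / 5) ^ r ≤ 13 / 25 * (8 / 125) := mul_le_mul hq1 h25 h25p.le (by norm_num)
      linarith
    apply good_of hr (fun i hi => c.nonneg i (Finset.sdiff_subset hi))
      (ms_nonneg c.nonneg c.fam _) (by positivity) _ hCz1 hs0
    · exact realS hr hC hN0 hM0 hq0 rfl hp4 hε hδ (by positivity) hz (by rw [ws]; linarith only [t1'])
        (by rw [ws]; linarith only [hwT0]) (P := ∑ i ∈ V \ T, w i ^ 2)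
        (by
          rw [ps]
          have : (1 - q) * p2 = p2 - q * p2 := by ring
          rw [this]; linarith only [t2'])
        hbud.le hMε.le t3 hsmall
    · intro k hk
      have hk' : (k : ℝ) ≤ r := by exact_mod_cast hk.le
      have : (k : ℝ) * (1 / ((a : ℝ) - 1)) ≤ CC r * (1 / ((a : ℝ) - 1)) :=
        mul_le_mul_of_nonneg_right (hk'.trans (CC_ge hr)) (by positivity)
      linarith only [hCz1, this]
  · have : (1 - δ) * q ≤ ∑ i ∈ T, w i := by linarith only [t1']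
    have : 0 < (1 - δ) * q := mul_pos (by linarith only [h25, h25p, hδ1]) hq0
    linarith only [t1', this]
  · have hs0 : 0 < ∑ i ∈ T, w i := by
      have : (1 - δ) * q ≤ ∑ i ∈ T, w i := by linarith only [t1']
      have : 0 < (1 - δ) * q := mul_pos (by linarith only [h25, h25p, hδ1]) hq0
      linarith only [t1', this]
    have hb1' : (0 : ℝ) < (b : ℝ) - 1 := by linarith only [h25, h25p, hb180]
    have hz : 1 ≤ 1 / ((b : ℝ) - 1) * (q * N) := by
      rw [hqn, one_div_mul_eq_div, le_div_iff₀ hb1']; linarith only [h25, h25p]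
    have hbs : (3 * CC r + (r : ℝ) ^ 3 * CC r) / b ≤ 4 / 125 := by
      rw [div_le_iff₀ (by linarith only [h25, h25p, hb180])]
      have : ((2 : ℝ) / 5) ^ r * b ≤ 8 / 125 * b := mul_le_mul_of_nonneg_right h25 hbb
      linarith only [hb3, this]
    have hCz : CC r * (1 / ((b : ℝ) - 1)) ≤ 3 * CC r / b := by
      rw [mul_one_div, div_le_div_iff₀ hb1' (by linarith only [h25, h25p, hb180])]
      have h5 : (b : ℝ) ≤ 3 * ((b : ℝ) - 1) := by linarith only [h25, h25p, hb180]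
      have h6 := mul_le_mul_of_nonneg_left h5 (show 0 ≤ CC r by linarith only [h25, h25p, hC])
      calc CC r * b ≤ _ := h6
        _ = _ := by ring
    have hKN : (r : ℝ) ^ 3 * CC r / N ≤ (r : ℝ) ^ 3 * CC r / b :=
      div_le_div_of_nonneg_left (by positivity) (by linarith only [h25, h25p, hb180]) hbN
    have e2 : (3 * CC r + (r : ℝ) ^ 3 * CC r) / b = 3 * CC r / b + (r : ℝ) ^ 3 * CC r / b := by
      ring
    rw [e2] at hbs
    have hKb : 0 ≤ (r : ℝ) ^ 3 * CC r / b := by positivity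
    have hsmall : CC r * (1 / ((b : ℝ) - 1)) + (r : ℝ) ^ 3 * CC r / N
        + (3 / ε + r) * δ ≤ 1 / 5 := by
      have : (3 / ε + r) * δ ≤ (3 / ε + r + 1) * δ :=
        mul_le_mul_of_nonneg_right (by linarith only [h25, h25p]) hδ.le
      linarith only [h25, h25p, hCz, hKN, hbs, hδ, hδs]
    have hCz1 : CC r * (1 / ((b : ℝ) - 1)) ≤ 1 := by linarith only [h25, h25p, hCz, hKb, hbs]
    apply good_of hr (fun i hi => c.nonneg i (hT hi))
      (ms_nonneg c.nonneg c.fam _) (by positivity) _ hCz1 hs0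
    · exact realT hr hC hN0 hM0 hq0 hq1 hε hδ (by positivity) hz (by linarith only [t1'])
        (P := ∑ i ∈ T, w i ^ 2) (by linarith only [t2']) hbud.le hMε.le t4 hsmall
    · intro k hk
      have hk' : (k : ℝ) ≤ r := by exact_mod_cast hk.le
      have : (k : ℝ) * (1 / ((b : ℝ) - 1)) ≤ CC r * (1 / ((b : ℝ) - 1)) :=
        mul_le_mul_of_nonneg_right (hk'.trans (CC_ge hr)) (by positivity)
      linarith only [h25, h25p, hCz, hKb, hbs, this]

end Core

end Pool.Agent.Lib.MP_6da058_co
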