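import Pool.Agent.Lib.MP_6da058_co.Split
import Pool.Agent.Lib.MP_6da058_co.RealB
import Pool.Agent.Lib.MP_6da058_co.RegA2

set_option autoImplicit false
set_option linter.unusedSectionVars false
set_option maxHeartbeats 4000000

namespace Pool.Agent.Lib.MP_6da058_co

open Finset

variable {ι : Type*} [DecidableEq ι]

/-- The concave transform of the scaled weights. -/
noncomputable def hh (N : ℝ) (w : ι → ℝ) (i : ι) : ℝ := 2 * N * w i - N ^ 2 * w i ^ 2

lemma hh_sum (N : ℝ) (w : ι → ℝ) (S : Finset ι) :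
    ∑ i ∈ S, hh N w i = 2 * N * ∑ i ∈ S, w i - N ^ 2 * ∑ i ∈ S, w i ^ 2 := by
  unfold hh
  rw [Finset.sum_sub_distrib, ← Finset.mul_sum, ← Finset.mul_sum]

namespace Core

variable {r : ℕ} {V : Finset ι} {w : ι → ℝ} {Q : Finset (Finset ι)} {Λ : ℝ}

/-- Basic facts in the near complete regime. -/
lemma regB_facts (c : Core r V w Q Λ) (hr : 3 ≤ r) {N : ℕ}
    (hN : 2 * r ^ 3 * CC r ≤ N) (hΛ : U r (1 / (N : ℝ)) < Λ) (hΛ' : Λ ≤ U r (1 / ((N : ℝ) + 1)))
    {ε : ℝ} (hε : 0 < ε) (hεC : ε * CC r ≤ 1 / 10) (hMε : MM r w Q ≤ ε * CC r / N) :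
    (∀ i ∈ V, N * w i ≤ 1 + ε * CC r) ∧
    (N : ℝ) + (1 - (r : ℝ) ^ 3 * CC r / N) * (N ^ 2 * (MM r w Q / CC r)) < ∑ i ∈ V, hh N w i ∧
    ∑ i ∈ V, hh N w i ≤ N + 1 + 2 * ε * N ∧
    (∀ i ∈ V, 0 < hh N w i ∧ hh N w i ≤ 1) ∧
    (∀ S ⊆ V, (1 - ε * CC r) * (N * ∑ i ∈ S, w i) ≤ ∑ i ∈ S, hh N w i) ∧
    (∀ S ⊆ V, ∑ i ∈ S, hh N w i ≤ 2 * (N * ∑ i ∈ S, w i)) ∧
    (∀ S ⊆ V, ∑ i ∈ S, hh N w i ≤ N * ∑ i ∈ S, w i + 1 + 2 * ε * N + ε * CC r * N) := by
  obtain ⟨h0, hN0, h1, h2, h3⟩ := one_sub_lt hr hN hΛ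
  have hC := CC_pos hr
  have hr' : (3 : ℝ) ≤ r := by exact_mod_cast hr
  have hbud := c.budget hr hN hΛ
  have hlow := c.p2_lower hr hN hΛ'
  have hM0 := c.MM_nonneg
  obtain ⟨v, hv, hmax⟩ := c.exists_max
  set M := MM r w Q with hM
  set p2 := ∑ i ∈ V, w i ^ 2 with hp2
  have hp20 : 0 ≤ p2 := p2_nonneg
  have hrΛ : (r - 1 : ℝ) * (1 - Λ) ≤ 1 / 2 := by
    have : (r - 1 : ℝ) * (1 - Λ) ≤ r * (CC r / N) := by
      have a : (r - 1 : ℝ) * (1 - Λ) ≤ (r - 1 : ℝ) * (CC r / N) :=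
        mul_le_mul_of_nonneg_left h0.le (by linarith)
      have b : (0 : ℝ) ≤ CC r / N := by positivity
      nlinarith only [a, b]
    linarith
  have sp := c.spread_sum hr hrΛ hv hmax
  rw [← hM] at sp
  have sp2 : ∑ i ∈ V, w i * (w v - w i) = w v - p2 := by
    have : ∀ i ∈ V, w i * (w v - w i) = w v * w i - w i ^ 2 := fun i _ => by ring
    rw [Finset.sum_congr rfl this, Finset.sum_sub_distrib, ← Finset.mul_sum, c.sum_one, mul_one]
  rw [sp2] at sp
  have hp2N : p2 ≤ 1 / N := by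
    have hnn : 0 ≤ (1 - (r : ℝ) ^ 3 * CC r / N) * M := mul_nonneg (by linarith) hM0
    have : 0 < CC r * (1 / N - p2) := by linarith
    have := (pos_iff_pos_of_mul_pos this).1 (by linarith)
    linarith
  have hNinv : (N : ℝ) * (1 / N) = 1 := by field_simp
  have f1 : ∀ i ∈ V, N * w i ≤ 1 + ε * CC r := by
    intro i hi
    have a : w i ≤ 1 / N + ε * CC r / N := by linarith [hmax i hi]
    have := mul_le_mul_of_nonneg_left a hN0.le
    have e : (N : ℝ) * (1 / N + ε * CC r / N) = 1 + ε * CC r := by field_simp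
    linarith
  have f2 : (N : ℝ) + (1 - (r : ℝ) ^ 3 * CC r / N) * (N ^ 2 * (M / CC r)) < ∑ i ∈ V, hh N w i := by
    rw [hh_sum, c.sum_one]
    have hpos : 0 < (N : ℝ) ^ 2 / CC r := by positivity
    have := mul_lt_mul_of_pos_left hbud hpos
    have e1 : (N : ℝ) ^ 2 / CC r * ((1 - (r : ℝ) ^ 3 * CC r / N) * M)
        = (1 - (r : ℝ) ^ 3 * CC r / N) * (N ^ 2 * (M / CC r)) := by ring
    have e2 : (N : ℝ) ^ 2 / CC r * (CC r * (1 / N - p2)) = N - N ^ 2 * p2 := by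
      field_simp
    rw [e1, e2] at this
    rw [← hp2]
    linarith only [this]
  have f3 : ∑ i ∈ V, hh N w i ≤ N + 1 + 2 * ε * N := by
    rw [hh_sum, c.sum_one, ← hp2]
    have a : 2 * M / CC r ≤ 2 * ε / N := by
      rw [div_le_div_iff₀ (by linarith) hN0]
      rw [le_div_iff₀ hN0] at hMε
      nlinarith only [hMε]
    have b : 1 / ((N : ℝ) + 1) - 2 * ε / N ≤ p2 := by linarith
    have c1 := mul_le_mul_of_nonneg_left b (show 0 ≤ (N : ℝ) ^ 2 by positivity)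
    have e1 : (N : ℝ) ^ 2 * (1 / ((N : ℝ) + 1) - 2 * ε / N) = N ^ 2 / (N + 1) - 2 * ε * N := by
      field_simp
    have e2 : (N : ℝ) - 1 ≤ N ^ 2 / (N + 1) := by
      rw [le_div_iff₀ (by linarith)]; nlinarith only []
    rw [e1] at c1
    linarith only [c1, e2]
  have hNw : ∀ i ∈ V, 0 < N * w i := fun i hi => mul_pos hN0 (c.pos i hi)
  have f4 : ∀ i ∈ V, 0 < hh N w i ∧ hh N w i ≤ 1 := by
    intro i hi
    have a := f1 i hi
    have b := hNw i hi
    have e : hh N w i = (N * w i) * (2 - N * w i) := by unfold hh; ring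
    rw [e]
    constructor
    · exact mul_pos b (by linarith)
    · nlinarith only [sq_nonneg (N * w i - 1)]
  have f5 : ∀ i ∈ V, (1 - ε * CC r) * (N * w i) ≤ hh N w i := by
    intro i hi
    have a := f1 i hi
    have b := hNw i hi
    have e : hh N w i = (2 - N * w i) * (N * w i) := by unfold hh; ring
    rw [e]
    exact mul_le_mul_of_nonneg_right (by linarith) b.le
  have f6 : ∀ i ∈ V, hh N w i ≤ 2 * (N * w i) := by
    intro i hi
    unfold hh
    nlinarith only [sq_nonneg (N * w i)]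
  refine ⟨f1, f2, f3, f4, ?_, ?_, ?_⟩
  · intro S hS
    rw [Finset.mul_sum, Finset.mul_sum]
    exact Finset.sum_le_sum fun i hi => f5 i (hS hi)
  · intro S hS
    rw [Finset.mul_sum, Finset.mul_sum]
    exact Finset.sum_le_sum fun i hi => f6 i (hS hi)
  · intro S hS
    have a : ∑ i ∈ S, (hh N w i - N * w i) + ∑ i ∈ V \ S, (hh N w i - N * w i)
        = ∑ i ∈ V, (hh N w i - N * w i) := by
      rw [add_comm]; exact Finset.sum_sdiff hS
    have b : -(ε * CC r * N) ≤ ∑ i ∈ V \ S, (hh N w i - N * w i) := by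
      have b1 : ∑ i ∈ V \ S, -(ε * CC r * (N * w i)) ≤ ∑ i ∈ V \ S, (hh N w i - N * w i) := by
        apply Finset.sum_le_sum
        intro i hi
        have := f5 i (Finset.sdiff_subset hi)
        linarith
      have b2 : ∑ i ∈ V \ S, -(ε * CC r * (N * w i)) = -(ε * CC r * N * ∑ i ∈ V \ S, w i) := by
        rw [Finset.sum_neg_distrib, Finset.mul_sum]
        congr 1
        apply Finset.sum_congr rfl; intro i _; ring
      have b3 : ∑ i ∈ V \ S, w i ≤ 1 := by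
        rw [← c.sum_one]
        exact Finset.sum_le_sum_of_subset_of_nonneg Finset.sdiff_subset
          (fun i hi _ => c.nonneg i hi)
      have b4 : ε * CC r * N * ∑ i ∈ V \ S, w i ≤ ε * CC r * N * 1 :=
        mul_le_mul_of_nonneg_left b3 (by positivity)
      rw [b2] at b1
      linarith
    have d : ∑ i ∈ V, (hh N w i - N * w i) = ∑ i ∈ V, hh N w i - N := by
      rw [Finset.sum_sub_distrib, ← Finset.mul_sum, c.sum_one, mul_one]
    have e : ∑ i ∈ S, (hh N w i - N * w i) = ∑ i ∈ S, hh N w i - N * ∑ i ∈ S, w i := by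
      rw [Finset.sum_sub_distrib, ← Finset.mul_sum]
    rw [d, e] at a
    linarith

end Core

end Pool.Agent.Lib.MP_6da058_co
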