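import Pool.Agent.Lib.MP_6da058_co.RegB

set_option autoImplicit false
set_option linter.unusedSectionVars false
set_option maxHeartbeats 4000000

namespace Pool.Agent.Lib.MP_6da058_co

open Finset

variable {ι : Type*} [DecidableEq ι]

lemma inv_one_sub_le {y : ℝ} (hy0 : 0 ≤ y) (hy : y ≤ 1 / 2) : 1 / (1 - y) ≤ 1 + 2 * y := by
  rw [div_le_iff₀ (by linarith)]
  nlinarith

/-- elementary consequences of the size control -/
lemma sizes {n b q η ε C H hR hT X : ℝ} (hn : 0 < n) (hq0 : 0 < q) (hq1 : q ≤ 13 / 25)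
    (hqn : q * n = b) (hη0 : 0 < η) (hη1 : η ≤ 1 / 600) (hε : 0 < ε) (hC : 3 ≤ C)
    (hεC : 20 * C * ε ≤ η) (hb : 10 ≤ η * b)
    (hH1 : n ≤ H) (hH2 : H ≤ n + 1 + 2 * ε * n) (hR0 : 0 ≤ hR)
    (hR1 : |hR - 2 * η * q * H| ≤ 1) (hT1 : |hT - (1 - η / 2) * q * (H - hR)| ≤ 1)
    (hX : (1 - ε * C) * X ≤ hT + hR) :
    hT ≤ b ∧ b - 1 + η * b / 4 < hT + hR ∧ X ≤ (1 + 3 * η) * b ∧
      b * (1 - 77 / 50 * η) - 2 ≤ hT := by
  have hR1' := abs_le.1 hR1
  have hT1' := abs_le.1 hT1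
  have hε60 : 60 * ε ≤ η := by
    have := mul_le_mul_of_nonneg_right hC (show 0 ≤ 20 * ε by positivity)
    linarith
  have hb0 : 0 < b := by rw [← hqn]; positivity
  have hηq : 0 ≤ η * q := by positivity
  have hηq2 : η * q ≤ η * (13 / 25) := mul_le_mul_of_nonneg_left hq1 hη0.le
  have hβ0 : 0 ≤ (1 - η / 2) * q := mul_nonneg (by linarith) hq0.le
  have hβq : (1 - η / 2) * q ≤ q := by linarith
  have hqH2 : q * H ≤ b + q + 2 * (ε * b) := by
    have := mul_le_mul_of_nonneg_left hH2 hq0.le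
    have e : q * (n + 1 + 2 * ε * n) = q * n + q + 2 * (ε * (q * n)) := by ring
    rw [e, hqn] at this
    exact this
  have hqH1 : b ≤ q * H := by
    have := mul_le_mul_of_nonneg_left hH1 hq0.le
    rwa [hqn] at this
  have hεb : 60 * (ε * b) ≤ η * b := by
    have := mul_le_mul_of_nonneg_right hε60 hb0.le
    linarith
  have hεb0 : 0 ≤ ε * b := by positivity
  have hηb0 : 0 ≤ η * b := by positivity
  have eT : (1 - η / 2) * q * (H - hR) = (1 - η / 2) * (q * H) - (1 - η / 2) * q * hR := by ring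
  rw [eT] at hT1'
  have hβR : 0 ≤ (1 - η / 2) * q * hR := mul_nonneg hβ0 hR0
  -- upper bound for hT
  have u3 : (1 - η / 2) * (q * H) ≤ b - η * b / 2 + q + 2 * (ε * b) := by
    have a1 : (1 - η / 2) * (q * H) ≤ (1 - η / 2) * (b + q + 2 * (ε * b)) :=
      mul_le_mul_of_nonneg_left hqH2 (by linarith)
    have a2 : 0 ≤ η / 2 * (q + 2 * (ε * b)) := by positivity
    linarith
  have r1 : hT ≤ b := by linarith
  -- ηqH bounds
  have v1 : η * b ≤ η * (q * H) := mul_le_mul_of_nonneg_left hqH1 hη0.le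
  have v2 : η * (q * H) ≤ 101 / 100 * (η * b) + 1 / 100 := by
    have a1 := mul_le_mul_of_nonneg_left hqH2 hη0.le
    have a2 : η * (2 * (ε * b)) ≤ 1 / 600 * (2 * (ε * b)) :=
      mul_le_mul_of_nonneg_right hη1 (by positivity)
    linarith
  have eR : 2 * η * q * H = 2 * (η * (q * H)) := by ring
  rw [eR] at hR1'
  -- lower bound for the sum
  have w1 : (1 - η / 2) * b ≤ (1 - η / 2) * (q * H) :=
    mul_le_mul_of_nonneg_left hqH1 (by linarith)
  have w2 : 12 / 25 * (2 * (η * b) - 1) ≤ (1 - (1 - η / 2) * q) * hR := by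
    have a1 : 2 * (η * b) - 1 ≤ hR := by linarith
    have a2 : 12 / 25 ≤ 1 - (1 - η / 2) * q := by linarith
    have a3 : (1 - (1 - η / 2) * q) * (2 * (η * b) - 1) ≤ (1 - (1 - η / 2) * q) * hR :=
      mul_le_mul_of_nonneg_left a1 (by linarith)
    have a4 : 12 / 25 * (2 * (η * b) - 1) ≤ (1 - (1 - η / 2) * q) * (2 * (η * b) - 1) :=
      mul_le_mul_of_nonneg_right a2 (by linarith)
    linarith
  have e2 : (1 - (1 - η / 2) * q) * hR = hR - (1 - η / 2) * q * hR := by ring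
  rw [e2] at w2
  have r2 : b - 1 + η * b / 4 < hT + hR := by linarith
  -- X
  have hS : hT + hR ≤ (1 + 8 / 5 * η) * b + 2 * (ε * b) + 3 := by linarith
  have r3 : X ≤ (1 + 3 * η) * b := by
    have e1 : ε * C ≤ η / 20 := by linarith
    have hpos : 0 < 1 - ε * C := by linarith
    have : (1 - ε * C) * X ≤ (1 - ε * C) * ((1 + 3 * η) * b) := by
      refine hX.trans (hS.trans ?_)
      have e2 : ε * C * ((1 + 3 * η) * b) ≤ η / 20 * (2 * b) := by
        apply mul_le_mul e1 _ (by positivity) (by positivity)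
        apply mul_le_mul_of_nonneg_right _ hb0.le
        linarith
      linarith
    exact le_of_mul_le_mul_left this hpos
  refine ⟨r1, r2, r3, ?_⟩
  -- lower bound of hT
  have a1 : H - 2 * (η * (q * H)) - 1 ≤ H - hR := by linarith
  have a2 := mul_le_mul_of_nonneg_left a1 hβ0
  have e1 : (1 - η / 2) * q * (H - 2 * (η * (q * H)) - 1)
      = (1 - η / 2) * (1 - 2 * (η * q)) * (q * H) - (1 - η / 2) * q := by ring
  rw [e1, eT] at a2
  have a3 : (1 - 77 / 50 * η) ≤ (1 - η / 2) * (1 - 2 * (η * q)) := by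
    have : 0 ≤ η * (η * q) := by positivity
    linarith
  have a4 : (1 - 77 / 50 * η) * b ≤ (1 - η / 2) * (1 - 2 * (η * q)) * (q * H) := by
    have b1 : (1 - 77 / 50 * η) * b ≤ (1 - η / 2) * (1 - 2 * (η * q)) * b :=
      mul_le_mul_of_nonneg_right a3 hb0.le
    have b2 : (1 - η / 2) * (1 - 2 * (η * q)) * b ≤ (1 - η / 2) * (1 - 2 * (η * q)) * (q * H) :=
      mul_le_mul_of_nonneg_left hqH1 (le_trans (by linarith) a3)
    linarith
  linarith

end Pool.Agent.Lib.MP_6da058_co
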