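import Pool.Agent.Lib.MP_6da058_co.RegB2

set_option autoImplicit false
set_option linter.unusedSectionVars false
set_option maxHeartbeats 4000000

namespace Pool.Agent.Lib.MP_6da058_co

open Finset

variable {ι : Type*} [DecidableEq ι]

namespace Core

variable {r : ℕ} {V : Finset ι} {w : ι → ℝ} {Q : Finset (Finset ι)} {Λ : ℝ}

lemma regimeB_core (c : Core r V w Q Λ) (hr : 3 ≤ r) {a b N : ℕ} (hab : N + 1 = a + b)
    (hba : b ≤ a) (hN : 2 * r ^ 3 * CC r ≤ N) (hΛ : U r (1 / (N : ℝ)) < Λ)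
    (hΛ' : Λ ≤ U r (1 / ((N : ℝ) + 1))) {ε η q' lam B₀ : ℝ} (hε : 0 < ε) (hη0 : 0 < η)
    (hη : 200 * r * η ≤ 1) (hεη : 20 * CC r * ε ≤ η) (hMε : MM r w Q ≤ ε * CC r / N)
    (hb1 : 10 ≤ η * b) (hb2 : 6 * CC r ≤ η * b) (hb3 : 2 * ((r : ℝ) ^ 3 * CC r) ≤ b)
    (hq' : 0 < q') (hlam : 1 ≤ lam)
    (hNI : ∀ P₂ : ℝ, 0 ≤ P₂ → P₂ ≤ (1 + 3 / 2 * η) * ((b : ℝ) / N) →
      lam * (1 / (1 - CC r * (1 / ((b : ℝ) - 1))) * (P₂ ^ r / q' ^ (r - 2))) ≤ B₀)
    (hNI2 : (1 - (b : ℝ) / N) ^ 2 + 40 * r * (η * ((b : ℝ) / N)) + B₀ ≤ 1 - ((b : ℝ) / N) / 2)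
    (hwT : ∀ T ⊆ V, b * (1 - 77 / 50 * η) - 2 ≤ ∑ i ∈ T, hh N w i → q' ≤ ∑ i ∈ T, w i)
    (hB : (N : ℝ) ^ 2 * (MM r w Q / CC r) ≤ lam * (η * b / 4)) :
    ∃ T ⊆ V, Good r w Q (V \ T) (1 / ((a : ℝ) - 1)) ∧ Good r w Q T (1 / ((b : ℝ) - 1)) := by
  obtain ⟨h0, hN0, h1, h2, h3⟩ := one_sub_lt hr hN hΛ
  have hC := CC_pos hr
  have hr' : (3 : ℝ) ≤ r := by exact_mod_cast hr
  have hM0 := c.MM_nonneg
  have hη1 : η ≤ 1 / 600 := by
    have := mul_le_mul_of_nonneg_right hr' (show 0 ≤ 200 * η by positivity)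
    linarith only [hη, this]
  have hεC : ε * CC r ≤ η / 20 := by linarith only [hεη]
  obtain ⟨f1, f2, f3, f4, f5, f6, f7⟩ := c.regB_facts hr hN hΛ hΛ' hε (by linarith) hMε
  set M := MM r w Q with hM
  set μ := (N : ℝ) ^ 2 * (M / CC r) with hμ
  have hμ0 : 0 ≤ μ := by (clear * - hC hM0 hN0; positivity)
  have habR : (N : ℝ) + 1 = a + b := by exact_mod_cast hab
  have hbaR : (b : ℝ) ≤ a := by exact_mod_cast hba
  have hr3 : (27 : ℝ) ≤ (r : ℝ) ^ 3 := by
    have := pow_le_pow_left₀ (by norm_num : (0 : ℝ) ≤ 3) hr' 3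
    linarith only [this]
  have hK : 81 ≤ (r : ℝ) ^ 3 * CC r := by
    have := mul_le_mul hr3 hC (by norm_num) (by positivity)
    linarith only [this]
  have hbb : (162 : ℝ) ≤ b := by linarith only [hK, hb3]
  set q : ℝ := (b : ℝ) / N with hq
  have hq0 : 0 < q := by positivity
  have hqn : q * N = b := by rw [hq]; field_simp
  have hq1 : q ≤ 13 / 25 := by
    rw [hq, div_le_iff₀ hN0]; linarith only [hK, habR, hb3, hbaR, hη0, hη1]
  have ha1 : (0 : ℝ) < (a : ℝ) - 1 := by linarith only [hK, hb3, hbaR, hη0, hη1]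
  have hb1' : (0 : ℝ) < (b : ℝ) - 1 := by linarith only [hK, hb3, hη0, hη1]
  set zs := 1 / ((a : ℝ) - 1) with hzs
  set zt := 1 / ((b : ℝ) - 1) with hzt
  have hzs0 : 0 < zs := by positivity
  have hzt0 : 0 < zt := by positivity
  -- bounds for C z
  have hCs : CC r * zs ≤ 3 * CC r / N := by
    rw [hzs, mul_one_div, div_le_div_iff₀ ha1 hN0]
    have h5 : (N : ℝ) ≤ 3 * ((a : ℝ) - 1) := by linarith only [hK, habR, hb3, hbaR, hη0, hη1]
    have h6 := mul_le_mul_of_nonneg_left h5 (show 0 ≤ CC r by linarith only [hC, hη0, hη1])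
    calc CC r * N ≤ _ := h6
      _ = _ := by ring
  have hCt : CC r * zt ≤ 3 / 2 * CC r / b := by
    rw [hzt, mul_one_div, div_le_div_iff₀ hb1' (by linarith only [hK, hb3, hη0, hη1])]
    have h5 : (b : ℝ) ≤ 3 / 2 * ((b : ℝ) - 1) := by linarith only [hK, hb3, hη0, hη1]
    have h6 := mul_le_mul_of_nonneg_left h5 (show 0 ≤ CC r by linarith only [hC, hη0, hη1])
    calc CC r * b ≤ _ := h6
      _ = _ := by ring
  have hCsq : 2 * (CC r * zs) ≤ η * q := by
    have : 2 * (3 * CC r / N) ≤ η * q := by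
      have e : η * q = η * b / N := by rw [hq]; ring
      have e2 : 2 * (3 * CC r / N) = 6 * CC r / N := by ring
      rw [e, e2]
      exact div_le_div_of_nonneg_right hb2 hN0.le
    linarith only [hCs, this]
  have hCtq : 2 * (CC r * zt) ≤ η := by
    have : 2 * (3 / 2 * CC r / b) ≤ η := by
      have e2 : 2 * (3 / 2 * CC r / b) = 3 * CC r / b := by ring
      rw [e2, div_le_iff₀ (by linarith only [hK, hb3, hη0, hη1])]
      linarith only [hC, hb2, hη0, hη1]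
    linarith only [hCt, this]
  have hηq0 : 0 < η * q := by positivity
  have hηq1 : η * q ≤ 1 / 600 * (13 / 25) := mul_le_mul hη1 hq1 hq0.le (by norm_num)
  have hCs0 : 0 ≤ CC r * zs := by positivity
  have hCt0 : 0 ≤ CC r * zt := by positivity
  have hca : 1 / (1 - CC r * zs) ≤ 1 + η * q := by
    have := inv_one_sub_le hCs0 (by linarith only [hCsq, hηq0, hηq1])
    linarith only [hCsq, this]
  have hca0 : 0 < 1 / (1 - CC r * zs) := by
    apply div_pos one_pos; linarith only [hCsq, hηq0, hηq1]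
  have hcb0 : 0 < 1 / (1 - CC r * zt) := by
    apply div_pos one_pos; linarith only [hCtq, hη1, hηq0, hηq1]
  set ca := 1 / (1 - CC r * zs) with hcadef
  set cb := 1 / (1 - CC r * zt) with hcbdef
  set p' := 1 - q - 3 * (η * q) with hp'
  have hp'0 : 0 < p' := by linarith only [hq1, hηq0, hηq1]
  have hβ0 : 0 ≤ (1 - η / 2) * q := mul_nonneg (by linarith only [hη1, hηq0, hηq1]) hq0.le
  have hβ1 : (1 - η / 2) * q ≤ 1 := by linarith only [hq1, hηq0, hηq1]
  have hρ0 : 0 ≤ 2 * η * q := by positivity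
  have hρ1 : 2 * η * q ≤ 1 := by linarith only [hηq0, hηq1]
  obtain ⟨R, T', hRV, hT'V, hRh, hT'h, hpot⟩ := split3 c.nonneg c.fam f4 hβ0 hβ1 hρ0 hρ1
    (α₁ := ca / (CC r * p' ^ (r - 2))) (α₂ := lam * (cb / (CC r * q' ^ (r - 2))))
    (by positivity) (by (clear * - hC hcb0 hlam hq'; positivity))
  set H := ∑ i ∈ V, hh N w i with hH
  set hR := ∑ i ∈ R, hh N w i with hhR
  set hT := ∑ i ∈ T', hh N w i with hhT
  have hT'V' : T' ⊆ V := hT'V.trans Finset.sdiff_subset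
  have hdisj : Disjoint T' R := by
    rw [Finset.disjoint_left]
    intro i hi hiR
    exact (Finset.mem_sdiff.1 (hT'V hi)).2 hiR
  have hTR : T' ∪ R ⊆ V := Finset.union_subset hT'V' hRV
  have hsumTR : ∑ i ∈ T' ∪ R, hh N w i = hT + hR := by rw [Finset.sum_union hdisj]
  have hK1 : 0 ≤ 1 - (r : ℝ) ^ 3 * CC r / N := by linarith only [h2, hηq0, hηq1]
  have hH1 : (N : ℝ) ≤ H := by
    have : 0 ≤ (1 - (r : ℝ) ^ 3 * CC r / N) * μ := mul_nonneg hK1 hμ0
    linarith only [f2, this]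
  have hR0 : 0 ≤ hR := Finset.sum_nonneg fun i hi => (f4 i (hRV hi)).1.le
  obtain ⟨g1, g2, g3, g4⟩ := sizes (n := N) (b := b) (q := q) (η := η) (ε := ε) (C := CC r)
    (H := H) (hR := hR) (hT := hT) (X := N * ∑ i ∈ T' ∪ R, w i) hN0 hq0 hq1 hqn hη0 hη1 hε hC
    hεη hb1 hH1 f3 hR0 hRh hT'h (by rw [← hsumTR]; exact f5 _ hTR)
  have hq't := hwT T' hT'V' g4
  -- weights of T' ∪ R
  have hwTR : ∑ i ∈ T' ∪ R, w i ≤ q + 3 * (η * q) := by
    have e : (1 + 3 * η) * (b : ℝ) = N * (q + 3 * (η * q)) := by rw [← hqn]; ring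
    rw [e] at g3
    exact le_of_mul_le_mul_left g3 hN0
  -- the potential
  set A := (N : ℝ) ^ 2 * (ca / (CC r * p' ^ (r - 2)) * ms r w Q (V \ T')) with hA
  set B := (N : ℝ) ^ 2 * (cb / (CC r * q' ^ (r - 2)) * ms r w Q (T' ∪ R)) with hBdef
  have hmsA := ms_nonneg c.nonneg c.fam (V \ T')
  have hmsB := ms_nonneg c.nonneg c.fam (T' ∪ R)
  have hA0 : 0 ≤ A := by (clear * - hC hN0 hca0 hmsA hp'0; positivity)
  have hB0 : 0 ≤ B := by (clear * - hC hN0 hcb0 hmsB hq'; positivity)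
  have hAB : A + lam * B ≤ (1 - q / 2) * μ := by
    have e1 : A + lam * B = (N : ℝ) ^ 2 * (ca / (CC r * p' ^ (r - 2)) * ms r w Q (V \ T')
        + lam * (cb / (CC r * q' ^ (r - 2))) * ms r w Q (T' ∪ R)) := by
      rw [hA, hBdef]; ring
    have e2 := mul_le_mul_of_nonneg_left hpot (show 0 ≤ (N : ℝ) ^ 2 by positivity)
    rw [← e1] at e2
    refine e2.trans ?_
    set P₁ := 1 - (1 - η / 2) * q * (1 - 2 * η * q) with hP₁
    set P₂ := (1 - η / 2) * q + (1 - (1 - η / 2) * q) * (2 * η * q) with hP₂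
    have e3 : (N : ℝ) ^ 2 * ((ca / (CC r * p' ^ (r - 2)) * P₁ ^ r
        + lam * (cb / (CC r * q' ^ (r - 2))) * P₂ ^ r) * M)
        = (ca * (P₁ ^ r / p' ^ (r - 2)) + lam * (cb * (P₂ ^ r / q' ^ (r - 2)))) * μ := by
      rw [hμ]; field_simp
    rw [e3]
    apply mul_le_mul_of_nonneg_right _ hμ0
    have hP₁0 : 0 ≤ P₁ := by
      have : (1 - η / 2) * q * (1 - 2 * η * q) ≤ 1 * 1 :=
        mul_le_mul hβ1 (by linarith only [hηq0]) (by linarith only [hηq0, hηq1]) (by norm_num)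
      rw [hP₁]; linarith only [this]
    have hP₁1 : P₁ ≤ 1 - q + 5 / 2 * (η * q) := by
      have e : P₁ = 1 - q + (η * q) / 2 + 2 * (η * q) * q - (η * q) * (η * q) := by
        rw [hP₁]; ring
      have : (η * q) * q ≤ (η * q) * 1 := mul_le_mul_of_nonneg_left (by linarith only [hq1, hηq0, hηq1]) hηq0.le
      have : 0 ≤ (η * q) * (η * q) := by positivity
      rw [e]; linarith
    have hP₂0 : 0 ≤ P₂ := by
      have : 0 ≤ (1 - (1 - η / 2) * q) * (2 * η * q) := mul_nonneg (by linarith only [hq1, hηq0, hηq1]) hρ0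
      rw [hP₂]; linarith only [hP₁, hP₁1, hβ0]
    have hP₂1 : P₂ ≤ (1 + 3 / 2 * η) * q := by
      have : (1 - (1 - η / 2) * q) * (2 * η * q) ≤ 1 * (2 * η * q) :=
        mul_le_mul_of_nonneg_right (by linarith only [hβ0]) hρ0
      rw [hP₂]; linarith only [this]
    have n1 := niA hr hq0 hq1 hηq0.le (u := η * q) (by
        have := mul_le_mul_of_nonneg_right hη hq0.le
        linarith only [this]) hca0.le hca hP₁0 hP₁1
    have n2 := hNI P₂ hP₂0 hP₂1
    linarith only [hNI2, n1, n2]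
  have hlamB : B ≤ lam * B := by
    have := mul_le_mul_of_nonneg_right hlam hB0
    linarith only [this]
  have hqμ : 0 ≤ q / 2 * μ := by (clear * - hC hM0 hN0 hbb; positivity)
  have hBle : B ≤ η * b / 4 := by
    have : lam * B ≤ lam * (η * b / 4) := by linarith only [hA0, hAB, hB, hqμ]
    exact le_of_mul_le_mul_left this (by linarith only [hlam, hηq0, hηq1])
  have hbudμ : (1 - q / 2) * μ ≤ (1 - (r : ℝ) ^ 3 * CC r / N) * μ := by
    apply mul_le_mul_of_nonneg_right _ hμ0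
    have : (r : ℝ) ^ 3 * CC r / N ≤ q / 2 := by
      have e : q / 2 = (b / 2) / N := by rw [hq]; ring
      rw [e]
      apply div_le_div_of_nonneg_right _ hN0.le
      linarith only [hb3]
    linarith only [this]
  have hlamB0 : 0 ≤ lam * B := by (clear * - hC hN0 hcb0 hlam hmsB hq'; positivity)
  -- selection
  have hVsplit : ∑ i ∈ V \ (T' ∪ R), hh N w i = H - (hT + hR) := by
    rw [sdiff_sum hTR, hsumTR]
  obtain ⟨R₁, hR₁, k1, k2⟩ := select (h := hh N w) (R := R) (fun i hi => (f4 i (hRV hi)).2)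
    (s := H - (hT + hR)) (t := hT) (x := (a : ℝ) - 1 + A) (y := (b : ℝ) - 1 + B)
    (by rw [← hhR]; linarith only [f2, g1, hAB, hB0, habR, hbudμ, hlamB]) (by rw [← hhR]; linarith only [g2, hBle]) (by rw [← hhR]; linarith only [f2, hAB, habR, hbudμ, hlamB])
  -- the sets
  set T := T' ∪ (R \ R₁) with hTdef
  have hTV : T ⊆ V := Finset.union_subset hT'V' (Finset.sdiff_subset.trans hRV)
  have hT'T : T' ⊆ T := Finset.subset_union_left
  have hTTR : T ⊆ T' ∪ R := Finset.union_subset_union_right Finset.sdiff_subset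
  have hST' : V \ T ⊆ V \ T' := Finset.sdiff_subset_sdiff le_rfl hT'T
  have hdisj2 : Disjoint T' (R \ R₁) := hdisj.mono_right Finset.sdiff_subset
  have hsumT : ∑ i ∈ T, hh N w i = hT + ∑ i ∈ R \ R₁, hh N w i := by
    rw [hTdef, Finset.sum_union hdisj2]
  have hsumR : ∑ i ∈ R \ R₁, hh N w i = hR - ∑ i ∈ R₁, hh N w i := by
    rw [sdiff_sum hR₁]
  have hsumS : ∑ i ∈ V \ T, hh N w i = H - (hT + hR) + ∑ i ∈ R₁, hh N w i := by
    rw [sdiff_sum hTV, hsumT, hsumR]; ring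
  have hwT1 : ∑ i ∈ T, w i ≤ q + 3 * (η * q) := by
    refine le_trans ?_ hwTR
    exact Finset.sum_le_sum_of_subset_of_nonneg hTTR (fun i hi _ => c.nonneg i (hTR hi))
  have hwT2 : q' ≤ ∑ i ∈ T, w i := by
    refine hq't.trans ?_
    exact Finset.sum_le_sum_of_subset_of_nonneg hT'T (fun i hi _ => c.nonneg i (hTV hi))
  have hwS : p' ≤ ∑ i ∈ V \ T, w i := by
    rw [sdiff_sum hTV, c.sum_one]; linarith only [hwT1]
  have hs0 : 0 < ∑ i ∈ V \ T, w i := by linarith only [hq1, hwS, hηq0, hηq1]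
  have ht0 : 0 < ∑ i ∈ T, w i := by linarith only [hq', hwT2]
  have zk : ∀ z : ℝ, 0 ≤ z → CC r * z ≤ 1 → ∀ k : ℕ, k < r → (k : ℝ) * z ≤ 1 := by
    intro z hz hCz k hk
    have hk' : (k : ℝ) ≤ r := by exact_mod_cast hk.le
    have : (k : ℝ) * z ≤ CC r * z := mul_le_mul_of_nonneg_right (hk'.trans (CC_ge hr)) hz
    linarith only [hCz, this]
  refine ⟨T, hTV, ⟨hs0, ?_⟩, ⟨ht0, ?_⟩⟩
  · apply good_of hr (fun i hi => c.nonneg i (Finset.sdiff_subset hi))
      (ms_nonneg c.nonneg c.fam _) hzs0 (zk zs hzs0.le (by linarith only [hCsq, hηq0, hηq1])) (by linarith only [hCsq, hηq0, hηq1]) hs0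
    apply goodReal (N := N) (p' := p') (m₀ := ms r w Q (V \ T')) hC hzs0 (by linarith only [hCsq, hηq0, hηq1]) hN0 hp'0
      hwS (ms_mono c.nonneg c.fam hST') hmsA
    have e1 : 1 / zs = (a : ℝ) - 1 := by rw [hzs]; field_simp
    rw [e1, ← hh_sum, hsumS]
    exact k1
  · apply good_of hr (fun i hi => c.nonneg i (hTV hi))
      (ms_nonneg c.nonneg c.fam _) hzt0 (zk zt hzt0.le (by linarith only [hCtq, hη1, hηq0, hηq1])) (by linarith only [hCtq, hη1, hηq0, hηq1]) ht0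
    apply goodReal (N := N) (p' := q') (m₀ := ms r w Q (T' ∪ R)) hC hzt0 (by linarith only [hCtq, hη1, hηq0, hηq1]) hN0 hq'
      hwT2 (ms_mono c.nonneg c.fam hTTR) hmsB
    have e1 : 1 / zt = (b : ℝ) - 1 := by rw [hzt]; field_simp
    rw [e1, ← hh_sum, hsumT]
    exact k2

end Core

end Pool.Agent.Lib.MP_6da058_co
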