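import Pool.Agent.Lib.MP_6da058_co.Pipage
import Pool.Agent.Lib.MP_6da058_co.Budget

set_option autoImplicit false
set_option linter.unusedSectionVars false

namespace Pool.Agent.Lib.MP_6da058_co

open Finset Function

variable {ι : Type*} [DecidableEq ι]

lemma prod_ind (e A : Finset ι) :
    ∏ i ∈ e, (if i ∈ A then (1 : ℝ) else 0) = if e ⊆ A then 1 else 0 := by
  split_ifs with h
  · exact Finset.prod_eq_one fun i hi => if_pos (h hi)
  · obtain ⟨i, hi, hiA⟩ := Finset.not_subset.1 h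
    exact Finset.prod_eq_zero hi (if_neg hiA)

lemma split3 {r : ℕ} {V : Finset ι} {w : ι → ℝ} {Q : Finset (Finset ι)}
    (hw : ∀ i ∈ V, 0 ≤ w i) (hQ : ∀ e ∈ Q, e ⊆ V ∧ e.card = r)
    {h : ι → ℝ} (hh : ∀ i ∈ V, 0 < h i ∧ h i ≤ 1) {β ρ α₁ α₂ : ℝ}
    (hβ0 : 0 ≤ β) (hβ1 : β ≤ 1) (hρ0 : 0 ≤ ρ) (hρ1 : ρ ≤ 1) (hα₁ : 0 ≤ α₁) (hα₂ : 0 ≤ α₂) :
    ∃ R T : Finset ι, R ⊆ V ∧ T ⊆ V \ R ∧
      |∑ i ∈ R, h i - ρ * ∑ i ∈ V, h i| ≤ 1 ∧
      |∑ i ∈ T, h i - β * (∑ i ∈ V, h i - ∑ i ∈ R, h i)| ≤ 1 ∧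
      α₁ * ms r w Q (V \ T) + α₂ * ms r w Q (T ∪ R)
        ≤ (α₁ * (1 - β * (1 - ρ)) ^ r + α₂ * (β + (1 - β) * ρ) ^ r) * MM r w Q := by
  set cf : Finset ι → ℝ := fun e => (r.factorial : ℝ) * ∏ i ∈ e, w i with hcf
  have hcf0 : ∀ e ∈ Q, 0 ≤ cf e := by
    intro e he
    apply mul_nonneg (by positivity)
    exact Finset.prod_nonneg fun i hi => hw i ((hQ e he).1 hi)
  -- stage 1
  set F₁ : (ι → ℝ) → ℝ := fun Y => ∑ e ∈ Q, cf e *
    (α₁ * ∏ i ∈ e, ((1 - β) + β * Y i) + α₂ * ∏ i ∈ e, (β + (1 - β) * Y i)) with hF₁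
  have hPB₁ : PB V F₁ := by
    apply PB.sum
    intro e he
    apply PB.smul _ (hcf0 e he)
    apply PB.add
    · apply PB.smul _ hα₁
      apply PB_prod V (fun _ => 1 - β) (fun _ => β) e
      · intro k x hx _
        have : 0 ≤ β * x := mul_nonneg hβ0 hx
        linarith
      · intro i j; exact mul_nonneg hβ0 hβ0
    · apply PB.smul _ hα₂
      apply PB_prod V (fun _ => β) (fun _ => 1 - β) e
      · intro k x hx _
        have : 0 ≤ (1 - β) * x := mul_nonneg (by linarith) hx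
        linarith
      · intro i j; exact mul_nonneg (by linarith) (by linarith)
  have hSA₁ : SA V F₁ := by
    apply SA.sum
    intro e he
    apply SA.smul
    apply SA.add
    · apply SA.smul
      exact SA_prod V (fun _ => 1 - β) (fun _ => β) e
    · apply SA.smul
      exact SA_prod V (fun _ => β) (fun _ => 1 - β) e
  have hdep₁ : ∀ X Y : ι → ℝ, (∀ i ∈ V, X i = Y i) → F₁ X = F₁ Y := by
    intro X Y hXY
    rw [hF₁]
    apply Finset.sum_congr rfl
    intro e he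
    have h1 : ∏ i ∈ e, ((1 - β) + β * X i) = ∏ i ∈ e, ((1 - β) + β * Y i) :=
      Finset.prod_congr rfl fun i hi => by rw [hXY i ((hQ e he).1 hi)]
    have h2 : ∏ i ∈ e, (β + (1 - β) * X i) = ∏ i ∈ e, (β + (1 - β) * Y i) :=
      Finset.prod_congr rfl fun i hi => by rw [hXY i ((hQ e he).1 hi)]
    rw [h1, h2]
  obtain ⟨R, hRV, hFR, hRh⟩ := pipage_round hh hPB₁ hSA₁ hdep₁ (X := fun _ => ρ)
    (fun _ => ⟨hρ0, hρ1⟩)
  have hF₁ρ : F₁ (fun _ => ρ)
      = (α₁ * (1 - β * (1 - ρ)) ^ r + α₂ * (β + (1 - β) * ρ) ^ r) * MM r w Q := by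
    rw [hF₁]
    unfold MM
    simp only [Finset.prod_const]
    have : ∀ e ∈ Q, cf e * (α₁ * (1 - β + β * ρ) ^ e.card + α₂ * (β + (1 - β) * ρ) ^ e.card)
        = (α₁ * (1 - β * (1 - ρ)) ^ r + α₂ * (β + (1 - β) * ρ) ^ r) * cf e := by
      intro e he
      rw [(hQ e he).2]
      have : 1 - β + β * ρ = 1 - β * (1 - ρ) := by ring
      rw [this]; ring
    rw [Finset.sum_congr rfl this, ← Finset.mul_sum, hcf, ← Finset.mul_sum]
  -- stage 2
  set F₂ : (ι → ℝ) → ℝ := fun X => ∑ e ∈ Q, cf e *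
    (α₁ * ∏ i ∈ e, (1 + (if i ∈ R then 0 else -1) * X i)
      + α₂ * ∏ i ∈ e, ((if i ∈ R then 1 else 0) + (if i ∈ R then 0 else 1) * X i)) with hF₂
  have hPB₂ : PB (V \ R) F₂ := by
    apply PB.sum
    intro e he
    apply PB.smul _ (hcf0 e he)
    apply PB.add
    · apply PB.smul _ hα₁
      apply PB_prod (V \ R) (fun _ => 1) (fun i => if i ∈ R then 0 else -1) e
      · intro k x hx hx1
        split_ifs <;> linarith
      · intro i j; split_ifs <;> norm_num
    · apply PB.smul _ hα₂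
      apply PB_prod (V \ R) (fun i => if i ∈ R then 1 else 0) (fun i => if i ∈ R then 0 else 1) e
      · intro k x hx hx1
        split_ifs <;> linarith
      · intro i j; split_ifs <;> norm_num
  have hSA₂ : SA (V \ R) F₂ := by
    apply SA.sum
    intro e he
    apply SA.smul
    apply SA.add
    · apply SA.smul
      exact SA_prod (V \ R) (fun _ => 1) (fun i => if i ∈ R then 0 else -1) e
    · apply SA.smul
      exact SA_prod (V \ R) (fun i => if i ∈ R then 1 else 0) (fun i => if i ∈ R then 0 else 1) e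
  have hdep₂ : ∀ X Y : ι → ℝ, (∀ i ∈ V \ R, X i = Y i) → F₂ X = F₂ Y := by
    intro X Y hXY
    rw [hF₂]
    apply Finset.sum_congr rfl
    intro e he
    have h1 : ∏ i ∈ e, (1 + (if i ∈ R then 0 else -1) * X i)
        = ∏ i ∈ e, (1 + (if i ∈ R then 0 else -1) * Y i) :=
      Finset.prod_congr rfl fun i hi => by
        by_cases hiR : i ∈ R
        · simp [hiR]
        · rw [hXY i (Finset.mem_sdiff.2 ⟨(hQ e he).1 hi, hiR⟩)]
    have h2 : ∏ i ∈ e, ((if i ∈ R then 1 else 0) + (if i ∈ R then 0 else 1) * X i)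
        = ∏ i ∈ e, ((if i ∈ R then 1 else 0) + (if i ∈ R then 0 else 1) * Y i) :=
      Finset.prod_congr rfl fun i hi => by
        by_cases hiR : i ∈ R
        · simp [hiR]
        · rw [hXY i (Finset.mem_sdiff.2 ⟨(hQ e he).1 hi, hiR⟩)]
    rw [h1, h2]
  obtain ⟨T, hTV, hFT, hTh⟩ := pipage_round (fun i hi => hh i (Finset.sdiff_subset hi))
    hPB₂ hSA₂ hdep₂ (X := fun _ => β) (fun _ => ⟨hβ0, hβ1⟩)
  have hF₂β : F₂ (fun _ => β) = F₁ (fun i => if i ∈ R then 1 else 0) := by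
    rw [hF₂, hF₁]
    apply Finset.sum_congr rfl
    intro e he
    have h1 : ∏ i ∈ e, (1 + (if i ∈ R then 0 else -1) * β)
        = ∏ i ∈ e, ((1 - β) + β * (if i ∈ R then 1 else 0)) :=
      Finset.prod_congr rfl fun i hi => by split_ifs <;> ring
    have h2 : ∏ i ∈ e, ((if i ∈ R then 1 else 0) + (if i ∈ R then 0 else 1) * β)
        = ∏ i ∈ e, (β + (1 - β) * (if i ∈ R then 1 else 0)) :=
      Finset.prod_congr rfl fun i hi => by split_ifs <;> ring
    rw [h1, h2]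
  have hF₂T : F₂ (fun i => if i ∈ T then 1 else 0)
      = α₁ * ms r w Q (V \ T) + α₂ * ms r w Q (T ∪ R) := by
    rw [hF₂]
    unfold ms
    rw [Finset.sum_filter, Finset.sum_filter, Finset.mul_sum, Finset.mul_sum, Finset.mul_sum,
      Finset.mul_sum, ← Finset.sum_add_distrib]
    apply Finset.sum_congr rfl
    intro e he
    have h1 : ∏ i ∈ e, (1 + (if i ∈ R then 0 else -1) * (if i ∈ T then (1 : ℝ) else 0))
        = if e ⊆ V \ T then 1 else 0 := by
      rw [← prod_ind]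
      apply Finset.prod_congr rfl
      intro i hi
      have hiV := (hQ e he).1 hi
      by_cases hiR : i ∈ R
      · have hiT : i ∉ T := fun hc => (Finset.mem_sdiff.1 (hTV hc)).2 hiR
        simp [hiR, hiT, hiV]
      · by_cases hiT : i ∈ T
        · simp [hiR, hiT]
        · simp [hiT, hiV]
    have h2 : ∏ i ∈ e, ((if i ∈ R then (1 : ℝ) else 0) + (if i ∈ R then 0 else 1) * (if i ∈ T then (1 : ℝ) else 0))
        = if e ⊆ T ∪ R then 1 else 0 := by
      rw [← prod_ind]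
      apply Finset.prod_congr rfl
      intro i hi
      by_cases hiR : i ∈ R
      · simp [hiR]
      · by_cases hiT : i ∈ T
        · simp [hiR, hiT]
        · simp [hiR, hiT]
    rw [h1, h2, hcf]
    by_cases c1 : e ⊆ V \ T <;> by_cases c2 : e ⊆ T ∪ R <;> simp [c1, c2] <;> ring
  refine ⟨R, T, hRV, hTV, ?_, ?_, ?_⟩
  · have : ∑ i ∈ V, h i * ρ = ρ * ∑ i ∈ V, h i := by rw [← Finset.sum_mul, mul_comm]
    rwa [this] at hRh
  · have e1 : ∑ i ∈ V \ R, h i * β = β * (∑ i ∈ V, h i - ∑ i ∈ R, h i) := by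
      rw [← Finset.sum_mul, mul_comm]
      have := Finset.sum_sdiff (f := h) hRV
      rw [← this]; ring
    rwa [e1] at hTh
  · rw [hF₂T, hF₂β] at hFT
    rw [hF₁ρ] at hFR
    exact hFT.trans hFR

/-- Selection of a threshold subset. -/
lemma select {h : ι → ℝ} {R : Finset ι} (hh : ∀ i ∈ R, h i ≤ 1) {s t x y : ℝ}
    (h1 : x < s + ∑ i ∈ R, h i) (h2 : y < t + ∑ i ∈ R, h i)
    (h3 : x + y + 1 < s + t + ∑ i ∈ R, h i) :
    ∃ R₁ ⊆ R, x < s + ∑ i ∈ R₁, h i ∧ y < t + ∑ i ∈ R \ R₁, h i := by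
  classical
  set P := R.powerset.filter (fun A => x < s + ∑ i ∈ A, h i) with hP
  have hne : P.Nonempty := ⟨R, by rw [hP, Finset.mem_filter]; exact ⟨Finset.mem_powerset_self R, h1⟩⟩
  obtain ⟨A, hA, hmin⟩ := Finset.exists_min_image P Finset.card hne
  rw [hP, Finset.mem_filter, Finset.mem_powerset] at hA
  refine ⟨A, hA.1, hA.2, ?_⟩
  have hsd : ∑ i ∈ R \ A, h i = ∑ i ∈ R, h i - ∑ i ∈ A, h i := by
    have := Finset.sum_sdiff (f := h) hA.1
    linarith
  rcases A.eq_empty_or_nonempty with he | ⟨i, hi⟩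
  · subst he
    simpa using h2
  · have hlt : (A.erase i).card < A.card := Finset.card_erase_lt_of_mem hi
    have hnot : A.erase i ∉ P := fun hc => by
      have := hmin _ hc
      omega
    rw [hP, Finset.mem_filter, Finset.mem_powerset] at hnot
    push Not at hnot
    have h4 := hnot ((Finset.erase_subset _ _).trans hA.1)
    have h5 := Finset.add_sum_erase A h hi
    have h6 := hh i (hA.1 hi)
    rw [hsd]
    linarith

end Pool.Agent.Lib.MP_6da058_co
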