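import Pool.Agent.Lib.MP_6da058_co.Esym2

set_option autoImplicit false
set_option linter.unusedSectionVars false

namespace Pool.Agent.Lib.MP_6da058_co

open Finset

variable {ι : Type*} [DecidableEq ι]

/-- weighted degree of `i` in the family `F`. -/
noncomputable def dg (F : Finset (Finset ι)) (w : ι → ℝ) (i : ι) : ℝ :=
  ∑ e ∈ F.filter (fun e => i ∈ e), ∏ j ∈ e.erase i, w j

lemma dg_nonneg {F : Finset (Finset ι)} {w : ι → ℝ} {V : Finset ι}
    (hF : ∀ e ∈ F, e ⊆ V) (hw : ∀ i ∈ V, 0 ≤ w i) (i : ι) : 0 ≤ dg F w i := by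
  unfold dg
  apply Finset.sum_nonneg
  intro e he
  apply Finset.prod_nonneg
  intro j hj
  exact hw j (hF e (Finset.mem_filter.1 he).1 (Finset.mem_of_mem_erase hj))

lemma sum_mul_dg {F : Finset (Finset ι)} {w : ι → ℝ} {V : Finset ι} {r : ℕ}
    (hF : ∀ e ∈ F, e ⊆ V ∧ e.card = r) :
    ∑ i ∈ V, w i * dg F w i = r * ∑ e ∈ F, ∏ i ∈ e, w i := by
  unfold dg
  simp only [Finset.mul_sum]
  rw [Finset.sum_comm' (t' := F) (s' := fun e => e)]
  · apply Finset.sum_congr rfl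
    intro e he
    have : ∀ i ∈ e, w i * ∏ j ∈ e.erase i, w j = ∏ j ∈ e, w j := fun i hi =>
      Finset.mul_prod_erase e w hi
    rw [Finset.sum_congr rfl this, Finset.sum_const, (hF e he).2, nsmul_eq_mul]
  · intro i e
    simp only [Finset.mem_filter]
    constructor
    · rintro ⟨_, h1, h2⟩; exact ⟨h2, h1⟩
    · rintro ⟨h1, h2⟩; exact ⟨(hF e h2).1 h1, h2, h1⟩

/-- The core data: positive weights `w` on `V` with total weight one, a family `Q` of missing
`r`-sets, satisfying the Lagrange conditions. -/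
structure Core (r : ℕ) (V : Finset ι) (w : ι → ℝ) (Q : Finset (Finset ι)) (Λ : ℝ) : Prop where
  pos : ∀ i ∈ V, 0 < w i
  sum_one : ∑ i ∈ V, w i = 1
  fam : ∀ e ∈ Q, e ⊆ V ∧ e.card = r
  lam : Λ = G w V r - (r.factorial : ℝ) * ∑ e ∈ Q, ∏ i ∈ e, w i
  lagr : ∀ i ∈ V, ((r - 1).factorial : ℝ) * dg Q w i + Λ = G w (V.erase i) (r - 1)

/-- total missing mass -/
noncomputable def MM (r : ℕ) (w : ι → ℝ) (Q : Finset (Finset ι)) : ℝ :=
  (r.factorial : ℝ) * ∑ e ∈ Q, ∏ i ∈ e, w i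

/-- missing mass at a vertex -/
noncomputable def Mi (r : ℕ) (w : ι → ℝ) (Q : Finset (Finset ι)) (i : ι) : ℝ :=
  ((r - 1).factorial : ℝ) * dg Q w i

namespace Core

variable {r : ℕ} {V : Finset ι} {w : ι → ℝ} {Q : Finset (Finset ι)} {Λ : ℝ}

lemma nonneg (c : Core r V w Q Λ) : ∀ i ∈ V, 0 ≤ w i := fun i hi => (c.pos i hi).le

lemma Mi_nonneg (c : Core r V w Q Λ) (i : ι) : 0 ≤ Mi r w Q i := by
  unfold Mi
  exact mul_nonneg (by positivity) (dg_nonneg (fun e he => (c.fam e he).1) c.nonneg i)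

lemma MM_nonneg (c : Core r V w Q Λ) : 0 ≤ MM r w Q := by
  unfold MM
  apply mul_nonneg (by positivity)
  apply Finset.sum_nonneg
  intro e he
  exact Finset.prod_nonneg fun i hi => c.nonneg i ((c.fam e he).1 hi)

lemma sum_Mi (c : Core r V w Q Λ) (hr : 1 ≤ r) : ∑ i ∈ V, w i * Mi r w Q i = MM r w Q := by
  unfold Mi MM
  have h := sum_mul_dg (w := w) c.fam
  have e : ∀ i, w i * (((r - 1).factorial : ℝ) * dg Q w i)
      = ((r - 1).factorial : ℝ) * (w i * dg Q w i) := by intro i; ring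
  simp only [e]
  rw [← Finset.mul_sum, h, ← mul_assoc]
  congr 1
  have : r.factorial = r * (r - 1).factorial := (Nat.mul_factorial_pred (by omega)).symm
  rw [this]; push_cast; ring

lemma sum_erase (c : Core r V w Q Λ) {i : ι} (hi : i ∈ V) :
    ∑ j ∈ V.erase i, w j = 1 - w i := by
  have := Finset.add_sum_erase V w hi
  rw [c.sum_one] at this
  linarith

lemma w_le_one (c : Core r V w Q Λ) {i : ι} (hi : i ∈ V) : w i ≤ 1 := by
  have h1 := c.sum_erase hi
  have h2 : 0 ≤ ∑ j ∈ V.erase i, w j :=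
    Finset.sum_nonneg fun j hj => c.nonneg j (Finset.mem_of_mem_erase hj)
  linarith

lemma w_le (c : Core r V w Q Λ) (hr : 3 ≤ r) {i : ι} (hi : i ∈ V) : w i ≤ 1 - Λ := by
  have h1 := c.lagr i hi
  have h2 : G w (V.erase i) (r - 1) ≤ (1 - w i) ^ (r - 1) := by
    rw [← c.sum_erase hi]
    exact G_le_pow (fun j hj => c.nonneg j (Finset.mem_of_mem_erase hj)) _
  have h3 := c.Mi_nonneg i
  unfold Mi at h3
  have h4 : (1 - w i) ^ (r - 1) ≤ 1 - w i := by
    have a : 0 ≤ 1 - w i := by linarith [c.w_le_one hi]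
    have b : 1 - w i ≤ 1 := by linarith [c.nonneg i hi]
    calc (1 - w i) ^ (r - 1) ≤ (1 - w i) ^ 1 := pow_le_pow_of_le_one a b (by omega)
      _ = 1 - w i := pow_one _
  linarith

lemma Mi_le (c : Core r V w Q Λ) {i : ι} (hi : i ∈ V) : Mi r w Q i ≤ 1 - Λ := by
  have h1 := c.lagr i hi
  have h2 : G w (V.erase i) (r - 1) ≤ 1 := by
    apply G_le_one (fun j hj => c.nonneg j (Finset.mem_of_mem_erase hj))
    rw [c.sum_erase hi]; linarith [c.nonneg i hi]
  unfold Mi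
  linarith

lemma spread (c : Core r V w Q Λ) (hr : 3 ≤ r) (hΛ : (r - 1 : ℝ) * (1 - Λ) ≤ 1 / 2)
    {v : ι} (hv : v ∈ V) (hmax : ∀ i ∈ V, w i ≤ w v) {i : ι} (hi : i ∈ V) :
    w v - w i ≤ Mi r w Q i := by
  by_cases hiv : i = v
  · subst hiv
    have := c.Mi_nonneg i
    linarith
  obtain ⟨k, rfl⟩ : ∃ k, r = k + 3 := ⟨r - 3, by omega⟩
  have hk : k + 3 - 1 = k + 2 := by omega
  have l1 := c.lagr i hi
  have l2 := c.lagr v hv
  rw [hk] at l1 l2
  have d := G_erase_sub w V (k + 1) hi hv hiv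
  have hnn : ∀ j ∈ (V.erase i).erase v, 0 ≤ w j := fun j hj =>
    c.nonneg j (Finset.mem_of_mem_erase (Finset.mem_of_mem_erase hj))
  have hnn1 : ∀ j ∈ V.erase i, 0 ≤ w j := fun j hj => c.nonneg j (Finset.mem_of_mem_erase hj)
  -- lower bound for G (V \ {i,v}) (k+1)
  have b1 : G w (V.erase i) (k + 2) ≤ G w (V.erase i) (k + 1) := by
    rw [G_succ w (V.erase i) (k + 1)]
    have : ∀ j ∈ V.erase i, w j * G w ((V.erase i).erase j) (k + 1)
        ≤ w j * G w (V.erase i) (k + 1) := fun j hj =>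
      mul_le_mul_of_nonneg_left (G_mono (Finset.erase_subset _ _) hnn1 _) (hnn1 j hj)
    refine (Finset.sum_le_sum this).trans ?_
    rw [← Finset.sum_mul, c.sum_erase hi]
    have : 0 ≤ G w (V.erase i) (k + 1) := G_nonneg hnn1 _
    have := c.nonneg i hi
    nlinarith
  have b2 := G_erase w (V.erase i) k (i := v) (Finset.mem_erase.2 ⟨Ne.symm hiv, hv⟩)
  have b3 : G w ((V.erase i).erase v) k ≤ 1 := by
    apply G_le_one hnn
    refine le_trans (sum_erase_le hnn1 v) ?_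
    rw [c.sum_erase hi]; linarith [c.nonneg i hi]
  have hv0 := c.nonneg v hv
  have b4 : ((k : ℝ) + 1) * w v * G w ((V.erase i).erase v) k ≤ ((k : ℝ) + 1) * w v :=
    mul_le_of_le_one_right (by positivity) b3
  have b5 := c.w_le hr hv
  have m1 := c.Mi_nonneg i
  have m2 := c.Mi_nonneg v
  unfold Mi at m1 m2 ⊢
  rw [hk] at m1 m2 ⊢
  have b6 : 1 / 2 ≤ G w ((V.erase i).erase v) (k + 1) := by
    have : Λ ≤ G w (V.erase i) (k + 2) := by linarith
    have h7 : ((k : ℝ) + 1) * w v ≤ ((k : ℝ) + 1) * (1 - Λ) :=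
      mul_le_mul_of_nonneg_left b5 (by positivity)
    push_cast at hΛ
    nlinarith
  have hmi := hmax i hi
  have e1 : ((k + 2).factorial : ℝ) * dg Q w i - ((k + 2).factorial : ℝ) * dg Q w v
      = ((k + 1 : ℕ) + 1) * (w v - w i) * G w ((V.erase i).erase v) (k + 1) := by
    rw [← d]; linarith
  have h9 : (w v - w i) ≤ ((k + 1 : ℕ) + 1) * (w v - w i) * G w ((V.erase i).erase v) (k + 1) := by
    have h10 : 0 ≤ w v - w i := by linarith
    have h11 : (1 : ℝ) ≤ ((k + 1 : ℕ) + 1) * G w ((V.erase i).erase v) (k + 1) := by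
      push_cast
      have : (0 : ℝ) ≤ k := by positivity
      nlinarith
    calc w v - w i = (w v - w i) * 1 := by ring
      _ ≤ (w v - w i) * (((k + 1 : ℕ) + 1) * G w ((V.erase i).erase v) (k + 1)) :=
          mul_le_mul_of_nonneg_left h11 h10
      _ = _ := by ring
  linarith

lemma spread_sum (c : Core r V w Q Λ) (hr : 3 ≤ r) (hΛ : (r - 1 : ℝ) * (1 - Λ) ≤ 1 / 2)
    {v : ι} (hv : v ∈ V) (hmax : ∀ i ∈ V, w i ≤ w v) :
    ∑ i ∈ V, w i * (w v - w i) ≤ MM r w Q := by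
  rw [← c.sum_Mi (by omega)]
  apply Finset.sum_le_sum
  intro i hi
  exact mul_le_mul_of_nonneg_left (c.spread hr hΛ hv hmax hi) (c.nonneg i hi)

end Core

end Pool.Agent.Lib.MP_6da058_co
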